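import Mathlib

/-! Definitions used in the statement. -/

namespace Pool.Agent.Lib.MP_ac307a_co

variable {V : Type}

/-- `F` is an incompatibility system over `G`: each `F v` is a set of unordered pairs of distinct
edges of `G` whose intersection is exactly `{v}`. -/
def IsIncompatibilitySystem (G : SimpleGraph V) (F : V → Set (Sym2 (Sym2 V))) : Prop :=
  ∀ v : V, ∀ P ∈ F v, ∃ e e' : Sym2 V, P = s(e, e') ∧ e ≠ e' ∧ e ∈ G.edgeSet ∧ e' ∈ G.edgeSet ∧
    ∀ x : V, (x ∈ e ∧ x ∈ e') ↔ x = v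

/-- Two edges are incompatible if they form a pair of `F v` for some vertex `v`. -/
def Incompatible (F : V → Set (Sym2 (Sym2 V))) (e e' : Sym2 V) : Prop :=
  ∃ v : V, s(e, e') ∈ F v

/-- For every vertex `v` and edge `e` at `v`, at most `Δ` other edges at `v` are incompatible
with `e`. -/
def IsBoundedSystem (G : SimpleGraph V) (F : V → Set (Sym2 (Sym2 V))) (Δ : ℝ) : Prop :=
  ∀ v : V, ∀ e ∈ G.edgeSet, v ∈ e →
    (({e' : Sym2 V | e' ∈ G.edgeSet ∧ e' ≠ e ∧ v ∈ e' ∧ Incompatible F e e'}.ncard : ℕ) : ℝ) ≤ Δ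

/-- `G` has a Hamilton cycle any two of whose edges are compatible. -/
def HasCompatibleHamiltonCycle [DecidableEq V] (G : SimpleGraph V)
    (F : V → Set (Sym2 (Sym2 V))) : Prop :=
  ∃ (a : V) (p : G.Walk a a), p.IsHamiltonianCycle ∧
    ∀ e ∈ p.edges, ∀ e' ∈ p.edges, ¬ Incompatible F e e'

end Pool.Agent.Lib.MP_ac307a_co
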