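import Pool.Agent.Lib.MP_ac307a_co.Lower
import Pool.Agent.Lib.MP_ac307a_co.Defs

/-! From closed links to Hamilton cycles. -/

namespace Pool.Agent.Lib.MP_ac307a_co

open Sys

variable {V : Type}

/-- consecutive pairs of a list -/
def pairs : List V → List (Sym2 V)
  | a :: b :: l => s(a, b) :: pairs (b :: l)
  | _ => []

theorem edges_eq_pairs {G : SimpleGraph V} {u v : V} (p : G.Walk u v) :
    p.edges = pairs p.support := by
  induction p with
  | nil => rfl
  | cons h p ih =>
    rw [SimpleGraph.Walk.edges_cons, SimpleGraph.Walk.support_cons, ih,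
      ← SimpleGraph.Walk.cons_tail_support p]
    rfl

theorem mem_of_mem_pairs : ∀ {l : List V} {e : Sym2 V} {x : V}, e ∈ pairs l → x ∈ e → x ∈ l
  | [], _, _, h, _ => by simp [pairs] at h
  | [_], _, _, h, _ => by simp [pairs] at h
  | a :: b :: l, e, x, h, hx => by
      simp only [pairs, List.mem_cons] at h
      rcases h with rfl | h
      · rw [Sym2.mem_iff] at hx
        rcases hx with rfl | rfl <;> simp
      · exact List.mem_cons_of_mem _ (mem_of_mem_pairs h hx)

theorem pairs_head {b x w : V} {r : List V} (hn : (b :: x :: r).Nodup)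
    (h : s(b, w) ∈ pairs (b :: x :: r)) : w = x := by
  simp only [pairs, List.mem_cons] at h
  rcases h with h | h
  · exact Sym2.congr_right.1 h
  · exact absurd (mem_of_mem_pairs h (Sym2.mem_mk_left _ _)) (List.nodup_cons.1 hn).1

theorem pairs_snoc {R : V → V → V → Prop} : ∀ {l : List V} {a b c d : V} (x : V),
    Wk R a b l c d → pairs (a :: b :: (l ++ [x])) = pairs (a :: b :: l) ++ [s(d, x)]
  | [], _, _, _, _, _, h => by
      obtain ⟨rfl, rfl⟩ := h
      rfl
  | y :: l, _, _, _, _, x, h => by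
      have := pairs_snoc x h.2
      simp only [pairs, List.cons_append] at this ⊢
      rw [this]

theorem pairs_compat {S : Sys V} : ∀ {l : List V} {a b c d : V}, (a :: b :: l).Nodup →
    Wk S.R a b l c d → ∀ v u w, u ≠ w → s(v, u) ∈ pairs (a :: b :: l) →
      s(v, w) ∈ pairs (a :: b :: l) → ¬ S.bad v u w
  | [], a, b, _, _, _, _, v, u, w, hne, h1, h2 => by
      simp only [pairs, List.mem_singleton] at h1 h2
      exact absurd (Sym2.congr_right.1 (h1.trans h2.symm)) hne
  | x :: l, a, b, c, d, hn, h, v, u, w, hne, h1, h2 => by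
      have hn' := List.nodup_cons.1 hn
      have key : ∀ u w, s(v, u) = s(a, b) → s(v, w) ∈ pairs (b :: x :: l) →
          ¬ S.bad v u w := by
        intro u w e1 e2
        rw [Sym2.eq_iff] at e1
        rcases e1 with ⟨rfl, rfl⟩ | ⟨rfl, rfl⟩
        · exact absurd (mem_of_mem_pairs e2 (Sym2.mem_mk_left _ _)) hn'.1
        · rw [pairs_head hn'.2 e2]
          exact h.1.2.2
      rw [pairs, List.mem_cons] at h1 h2
      rcases h1 with h1 | h1 <;> rcases h2 with h2 | h2
      · exact absurd (Sym2.congr_right.1 (h1.trans h2.symm)) hne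
      · exact key u w h1 h2
      · exact fun hb => key w u h2 h1 (S.bad_symm hb)
      · exact pairs_compat hn'.2 h.2 v u w hne h1 h2

theorem wk_walk {S : Sys V} {G : SimpleGraph V} (hG : ∀ u v, S.adj u v → G.Adj u v) :
    ∀ {l : List V} {a b c d : V}, Wk S.R a b l c d → ∃ p : G.Walk b d, p.support = b :: l
  | [], _, _, _, _, h => by
      obtain ⟨rfl, rfl⟩ := h
      exact ⟨.nil, rfl⟩
  | x :: l, _, _, _, _, h => by
      obtain ⟨p, hp⟩ := wk_walk hG h.2
      exact ⟨.cons (hG _ _ h.1.2.1) p, by simp [hp]⟩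

theorem cycle_of_hamCyc [Fintype V] [DecidableEq V] {S : Sys V} {G : SimpleGraph V}
    (hG : ∀ u v, S.adj u v → G.Adj u v) (h3 : 3 ≤ Fintype.card V) (h : HamCyc S) :
    ∃ (a : V) (p : G.Walk a a), p.IsHamiltonianCycle ∧
      ∀ v u w, u ≠ w → s(v, u) ∈ p.edges → s(v, w) ∈ p.edges → ¬ S.bad v u w := by
  obtain ⟨a, b, l, hab, hperm, hl⟩ := h
  have hn : (a :: b :: l).Nodup := hperm.nodup_iff.2 (Finset.nodup_toList _)
  have hlen := hperm.length_eq
  rw [Finset.length_toList, Finset.card_univ] at hlen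
  obtain ⟨x, l', rfl⟩ : ∃ x l', l = x :: l' := by
    cases l with
    | nil => simp at hlen; omega
    | cons x l' => exact ⟨x, l', rfl⟩
  obtain ⟨y, z, h1, h2, h4, -⟩ := Wk.split hl
  have h5 : Wk S.R a b ((x :: l') ++ [a]) z a := h1.append ⟨h2, rfl, rfl⟩
  obtain ⟨p, hp⟩ := wk_walk hG h5
  have hperm2 : (b :: ((x :: l') ++ [a])).Perm (a :: b :: x :: l') :=
    (List.perm_append_singleton a (b :: x :: l'))
  have hn2 : (b :: ((x :: l') ++ [a])).Nodup := hperm2.nodup_iff.2 hn
  have hz : z ∈ x :: l' := h1.2.end_mem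
  have hn' := hn
  simp only [List.nodup_cons, List.mem_cons, not_or] at hn'
  have hza : z ≠ a := by
    rintro rfl
    rw [List.mem_cons] at hz
    tauto
  have hzb : z ≠ b := by
    rintro rfl
    rw [List.mem_cons] at hz
    tauto
  refine ⟨a, .cons (hG _ _ hab) p, ?_, ?_⟩
  · rw [SimpleGraph.Walk.isHamiltonianCycle_iff_isCycle_and_length_eq,
      SimpleGraph.Walk.cons_isCycle_iff]
    refine ⟨⟨?_, ?_⟩, ?_⟩
    · rw [SimpleGraph.Walk.isPath_def, hp]
      exact hn2
    · rw [edges_eq_pairs, hp, Sym2.eq_swap]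
      intro h
      exact hn'.1.2.1 (pairs_head hn2 h)
    · have := p.length_support
      rw [hp] at this
      simp only [SimpleGraph.Walk.length_cons, List.length_cons, List.length_append,
        List.length_nil] at this hlen ⊢
      omega
  · intro v u w hne e1 e2
    have E1 : (SimpleGraph.Walk.cons (hG _ _ hab) p).edges =
        s(a, b) :: pairs (b :: x :: (l' ++ [a])) := by
      rw [SimpleGraph.Walk.edges_cons, edges_eq_pairs, hp]
      rfl
    have E2 : (SimpleGraph.Walk.cons (hG _ _ hab) p).edges =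
        pairs (a :: b :: x :: l') ++ [s(z, a)] := by
      rw [E1, ← pairs_snoc a h1]
      rfl
    have key : ∀ u w, s(v, u) = s(z, a) → s(v, w) = s(a, b) → ¬ S.bad v u w := by
      intro u w f1 f2
      rw [Sym2.eq_iff] at f1 f2
      rcases f1 with ⟨rfl, rfl⟩ | ⟨rfl, rfl⟩ <;> rcases f2 with ⟨f2, rfl⟩ | ⟨f2, rfl⟩
      · exact absurd f2 hza
      · exact absurd f2 hzb
      · exact h4.2.2
      · exact absurd f2 hn'.1.1
    have hne2 : s(z, a) ≠ s(a, b) := by
      rw [Ne, Sym2.eq_iff]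
      tauto
    have a1 := e1
    have a2 := e2
    rw [E1, List.mem_cons] at a1 a2
    rw [E2, List.mem_append, List.mem_singleton] at e1 e2
    rcases e1 with e1 | e1 <;> rcases e2 with e2 | e2
    · exact pairs_compat hn h1 v u w hne e1 e2
    · rcases a1 with a1 | a1
      · exact fun hb => key w u e2 a1 (S.bad_symm hb)
      · exact pairs_compat hn2 h5.2 v u w hne a1 (a2.resolve_left fun h => hne2 (e2.symm.trans h))
    · rcases a2 with a2 | a2
      · exact key u w e1 a2
      · exact pairs_compat hn2 h5.2 v u w hne (a1.resolve_left fun h => hne2 (e1.symm.trans h)) a2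
    · exact absurd (Sym2.congr_right.1 (e1.trans e2.symm)) hne

/-- the system attached to a graph with an incompatibility system -/
def sysOf (G : SimpleGraph V) (F : V → Set (Sym2 (Sym2 V))) : Sys V where
  adj := G.Adj
  bad v u w := s(s(v, u), s(v, w)) ∈ F v
  adj_symm h := h.symm
  adj_irrefl h := G.loopless.irrefl _ h
  bad_symm h := by rwa [Sym2.eq_swap]

theorem lower_bound {μ : ℝ} (hμ0 : 0 < μ) (hμ : μ < 1 / 6) :
    ∃ n0 : ℕ, ∀ (V : Type) [Fintype V] [DecidableEq V] (G : SimpleGraph V) [DecidableRel G.Adj],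
      n0 ≤ Fintype.card V → (Fintype.card V : ℝ) / 2 ≤ G.minDegree →
      ∀ F, IsIncompatibilitySystem G F → IsBoundedSystem G F (μ * Fintype.card V) →
        HasCompatibleHamiltonCycle G F := by
  obtain ⟨N, hN⟩ := lower (γ := min (1 / 6 - μ) (1 / 12)) (lt_min (by linarith) (by norm_num))
    (min_le_right _ _)
  refine ⟨max N 3, fun V _ _ G _ hn hd F hF hB => ?_⟩
  rw [max_le_iff] at hn
  have hsys : ∀ v e e', s(e, e') ∈ F v →
      e ≠ e' ∧ e ∈ G.edgeSet ∧ e' ∈ G.edgeSet ∧ v ∈ e ∧ v ∈ e' := by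
    intro v e e' h
    obtain ⟨f, f', h1, h2, h3, h4, h5⟩ := hF v _ h
    have h6 := (h5 v).2 rfl
    rw [Sym2.eq_iff] at h1
    rcases h1 with ⟨rfl, rfl⟩ | ⟨rfl, rfl⟩
    · exact ⟨h2, h3, h4, h6⟩
    · exact ⟨h2.symm, h4, h3, h6.symm⟩
  have h := hN V (sysOf G F) hn.1 (fun v u => ?_) fun v => ?_
  · obtain ⟨a, p, hp1, hp2⟩ := cycle_of_hamCyc (G := G) (fun _ _ h => h) hn.2 h
    refine ⟨a, p, hp1, ?_⟩
    rintro e he e' he' ⟨v, hv⟩
    obtain ⟨h1, -, -, h2, h3⟩ := hsys v e e' hv
    obtain ⟨u, rfl⟩ := Sym2.mem_iff_exists.1 h2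
    obtain ⟨w, rfl⟩ := Sym2.mem_iff_exists.1 h3
    exact hp2 v u w (fun h => h1 (by rw [h])) he he' hv
  · have e0 : μ * Fintype.card V ≤ (1 / 6 - min (1 / 6 - μ) (1 / 12)) * Fintype.card V :=
      mul_le_mul_of_nonneg_right (by linarith [min_le_left (1 / 6 - μ) (1 / 12)])
        (Nat.cast_nonneg _)
    refine le_trans ?_ e0
    by_cases he : s(v, u) ∈ G.edgeSet
    · refine le_trans ?_ (hB v _ he (Sym2.mem_mk_left _ _))
      unfold bdeg
      rw [Nat.cast_le, ← Set.ncard_coe_finset]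
      refine Set.ncard_le_ncard_of_injOn (fun w => s(v, w)) (fun w hw => ?_)
        (fun w _ w' _ h => Sym2.congr_right.1 h) (Set.toFinite _)
      have h1 : s(s(v, u), s(v, w)) ∈ F v := (mem_bd.1 (Finset.mem_coe.1 hw)).2
      obtain ⟨a1, -, a2, -, a3⟩ := hsys _ _ _ h1
      exact ⟨a2, a1.symm, a3, v, h1⟩
    · have : (sysOf G F).bd v u Finset.univ = ∅ := by
        rw [Finset.eq_empty_iff_forall_notMem]
        intro w hw
        exact he (hsys _ _ _ (mem_bd.1 hw).2).2.1
      unfold bdeg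
      rw [this]
      simp only [Finset.card_empty, Nat.cast_zero]
      positivity
  · refine hd.trans ?_
    unfold deg
    rw [Nat.cast_le]
    refine (G.minDegree_le_degree v).trans (Finset.card_le_card fun w hw => ?_)
    exact mem_nb.2 ⟨Finset.mem_univ _, (G.mem_neighborFinset v w).1 hw⟩

end Pool.Agent.Lib.MP_ac307a_co
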