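import Pool.Agent.Lib.MP_ac307a_co.Matching

-- part Pool.Agent.Lib.MP_ac307a_co.Bip
section

/-! Lemmas for nearly complete balanced bipartite systems. -/

namespace Pool.Agent.Lib.MP_ac307a_co

open Classical Sys

variable {V : Type}

theorem opp_deg {S : Sys V} {side : V → Bool} (hs : ∀ u v, S.adj u v → side u ≠ side v)
    {U Y : Finset V} {z e : ℝ} (hsz : ∀ s, ((U.filter fun x => side x = s).card : ℝ) ≤
      (1 / 2 + z) * U.card) {v : V} (hv : (1 / 2 - e) * U.card ≤ S.deg v U) (hY : Y ⊆ U)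
    (hY' : ∀ y ∈ Y, side y = !side v) : Y.card - (z + e) * U.card ≤ S.deg v Y := by
  have hYO : Y ⊆ U.filter fun x => side x = !side v := fun y hy =>
    Finset.mem_filter.2 ⟨hY hy, hY' y hy⟩
  have h1 : S.deg v U ≤ S.deg v (U.filter fun x => side x = !side v) := by
    unfold deg
    exact_mod_cast Finset.card_le_card fun x hx => by
      rw [mem_nb] at *
      refine ⟨Finset.mem_filter.2 ⟨hx.1, ?_⟩, hx.2⟩
      have := hs v x hx.2
      cases h1 : side x <;> cases h2 : side v <;> simp_all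
  have h2 := deg_le_add (S := S) v (U.filter fun x => side x = !side v) Y
  rw [Finset.card_sdiff_of_subset hYO, Nat.cast_sub (Finset.card_le_card hYO)] at h2
  linarith [hsz (!side v)]

theorem card_sides (side : V → Bool) (X : Finset V) :
    ((X.filter fun x => side x = true).card : ℝ) + (X.filter fun x => side x = false).card =
      X.card := by
  have := Finset.card_filter_add_card_filter_not (s := X) fun x => side x = true
  simp only [Bool.not_eq_true] at this
  exact_mod_cast this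

theorem card_sides' (side : V → Bool) (X : Finset V) (s : Bool) :
    ((X.filter fun x => side x = s).card : ℝ) + (X.filter fun x => side x = !s).card =
      X.card := by
  have := card_sides side X
  cases s
  · simp only [Bool.not_false]
    linarith
  · simp only [Bool.not_true]
    linarith

theorem ec_sides {S : Sys V} {side : V → Bool} (hs : ∀ u v, S.adj u v → side u ≠ side v)
    {U X Y : Finset V} {z e t : ℝ} (hsz : ∀ s, ((U.filter fun x => side x = s).card : ℝ) ≤
      (1 / 2 + z) * U.card) (hd : ∀ v ∈ U, (1 / 2 - e) * U.card ≤ S.deg v U) (hX : X ⊆ U)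
    (hY : Y ⊆ U) (s : Bool) (hze : z + e ≤ t / 2) (ht : 0 ≤ t)
    (h1 : t * U.card ≤ (X.filter fun x => side x = s).card)
    (h2 : t * U.card ≤ (Y.filter fun x => side x = !s).card) :
    t ^ 2 / 2 * (U.card : ℝ) ^ 2 ≤ S.ec X Y := by
  have h0 : (0 : ℝ) ≤ U.card := Nat.cast_nonneg _
  have e1 := ec_ge (S := S) (X := X.filter fun x => side x = s)
    (Y := Y.filter fun x => side x = !s) (t := t / 2 * U.card) fun x hx => by
      rw [Finset.mem_filter] at hx
      have f1 := opp_deg hs hsz (hd x (hX hx.1)) ((Finset.filter_subset _ _).trans hY)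
        (Y := Y.filter fun x => side x = !s) fun y hy => by
          rw [hx.2]
          exact (Finset.mem_filter.1 hy).2
      have f2 : (z + e) * U.card ≤ t / 2 * U.card := mul_le_mul_of_nonneg_right hze h0
      linarith
  have e2 := ec_mono (S := S) (Finset.filter_subset (fun x => side x = s) X)
    (Finset.filter_subset (fun x => side x = !s) Y)
  have e3 : t * U.card * (t / 2 * U.card) ≤ (X.filter fun x => side x = s).card *
      (t / 2 * U.card) := mul_le_mul_of_nonneg_right h1 (by positivity)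
  linarith

theorem cut_of_bip {S : Sys V} {side : V → Bool} (hs : ∀ u v, S.adj u v → side u ≠ side v)
    {U : Finset V} {z e θ : ℝ} (hsz : ∀ s, ((U.filter fun x => side x = s).card : ℝ) ≤
      (1 / 2 + z) * U.card) (hd : ∀ v ∈ U, (1 / 2 - e) * U.card ≤ S.deg v U)
    (hθ : 0 ≤ θ) (hθ1 : θ ≤ 1 / 4) (hz : z ≤ 1 / 4) (hze : z + e ≤ θ / 4) :
    ∀ X ⊆ U, θ * U.card ≤ X.card → θ * U.card ≤ (U \ X).card →
      θ ^ 2 / 8 * (U.card : ℝ) ^ 2 ≤ S.ec X (U \ X) := by
  intro X hX h1 h2
  have h0 : (0 : ℝ) ≤ U.card := Nat.cast_nonneg _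
  have c1 := card_sides side X
  have c2 := card_sides side (U \ X)
  have c3 := card_sides side U
  have c4 : ∀ s, ((U.filter fun x => side x = s).card : ℝ) =
      (X.filter fun x => side x = s).card + ((U \ X).filter fun x => side x = s).card := by
    intro s
    rw [← Nat.cast_add, ← Finset.card_union_of_disjoint
      (Finset.disjoint_filter_filter Finset.disjoint_sdiff), ← Finset.filter_union,
      Finset.union_sdiff_of_subset hX]
  have c5 := c4 true
  have c6 := c4 false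
  have c7 := hsz true
  have c8 := hsz false
  have d1 : θ * U.card ≤ 1 / 4 * U.card := mul_le_mul_of_nonneg_right hθ1 h0
  have d2 : z * U.card ≤ 1 / 4 * U.card := mul_le_mul_of_nonneg_right hz h0
  have key : ∃ s, θ / 2 * U.card ≤ (X.filter fun x => side x = s).card ∧
      θ / 2 * U.card ≤ ((U \ X).filter fun x => side x = !s).card := by
    by_contra hcon
    push Not at hcon
    have k1 := hcon true
    have k2 := hcon false
    simp only [Bool.not_true, Bool.not_false] at k1 k2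
    by_cases hh : θ / 2 * U.card ≤ (X.filter fun x => side x = true).card
    · have k3 := k1 hh
      by_cases hh2 : θ / 2 * U.card ≤ (X.filter fun x => side x = false).card
      · linarith [k2 hh2]
      · linarith
    · have k3 := k2 (by linarith)
      linarith
  obtain ⟨s, k1, k2⟩ := key
  have := ec_sides hs hsz hd hX Finset.sdiff_subset s (t := θ / 2) (by linarith) (by linarith)
    k1 k2
  linarith

theorem level_of_bip {S : Sys V} {side : V → Bool} (hs : ∀ u v, S.adj u v → side u ≠ side v)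
    {U : Finset V} {γ η β θ τ σ : ℝ} (hγ : 0 < γ)
    (hγ1 : γ ≤ 1 / 12) (hη : 0 ≤ η) (hβ : 0 ≤ β) (hθ : 40 * β ≤ θ) (hηβ : η + β ≤ γ ^ 2 / 100)
    (hU : 100 ≤ U.card) (hθm : 8 ≤ θ * U.card)
    (hsz : ∀ s, ((U.filter fun x => side x = s).card : ℝ) ≤ U.card / 2 + 1)
    (hd : ∀ v ∈ U, (1 / 2 - η) * U.card ≤ S.deg v U)
    (hτ : 0 ≤ τ) (hτσ : τ ≤ σ) (hτβ : τ ≤ β * U.card) (hσ : σ ≤ (1 / 6 - γ) * U.card) :
    Level S U τ σ (θ * U.card) := by
  intro P hP
  by_contra hcon
  push Not at hcon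
  have hγ2 : γ ^ 2 ≤ γ / 12 := by nlinarith
  have h1 := level_core (ρ := 1) le_rfl hγ hγ1 hη hβ (by linarith) (by nlinarith [sq_nonneg γ])
    (by omega) (by simpa using hd) hτ hτσ hτβ (by simpa using hσ) hP hcon
  have hm : (100 : ℝ) ≤ U.card := by exact_mod_cast hU
  have hm0 : (0 : ℝ) ≤ U.card := by linarith
  set F := U.filter fun v => ninP S U P v < τ with hF
  have hFU : F ⊆ U := Finset.filter_subset _ _
  have h2 : (1 / 2 - 1 / 100 : ℝ) * U.card ≤ F.card := by
    refine le_trans (mul_le_mul_of_nonneg_right ?_ hm0) h1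
    have : 10 * (η + β) / γ ≤ 1 / 100 := by
      rw [div_le_iff₀ hγ]
      linarith
    linarith
  have h4 := ec_F_le hP hFU (τ := τ) fun v hv => (Finset.mem_filter.1 hv).2.le
  have h5 : (F.card : ℝ) ≤ U.card := by exact_mod_cast Finset.card_le_card hFU
  have h6 : 2 * τ * F.card ≤ 2 * (β * U.card) * U.card := by gcongr
  have hsz' : ∀ s, ((U.filter fun x => side x = s).card : ℝ) ≤ (1 / 2 + 1 / 100) * U.card :=
    fun s => by linarith [hsz s]
  have h7 : ∃ s, (2 / 5 : ℝ) * U.card + 1 / 40 * U.card ≤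
      (F.filter fun x => side x = s).card := by
    by_contra hh
    push Not at hh
    have c1 := card_sides side F
    have c2 := ec_sides hs hsz' hd hFU hFU true (t := 1 / 20) (by linarith) (by norm_num)
      (by linarith [hh false]) (by simp only [Bool.not_true]; linarith [hh true])
    have c3 : 2 * β * (U.card : ℝ) ^ 2 < (1 / 20) ^ 2 / 2 * (U.card : ℝ) ^ 2 := by
      have : (0 : ℝ) < (U.card : ℝ) ^ 2 := by positivity
      exact mul_lt_mul_of_pos_right (by linarith) this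
    linarith
  obtain ⟨s, h7⟩ := h7
  set Fs := F.filter fun x => side x = s with hFs
  set Bd := U.filter fun u => side u = !s ∧ outP S U P u < σ with hBd
  have h8 : ∀ u ∈ Bd, 1 / 5 * U.card ≤
      ∑ v ∈ Fs, if S.adj v u ∧ ¬ P u v then (1 : ℝ) else 0 := by
    intro u hu
    rw [hBd, Finset.mem_filter] at hu
    have e1 := opp_deg hs hsz' (hd u hu.1) ((Finset.filter_subset _ _).trans hFU) (Y := Fs)
      fun y hy => by
        rw [hu.2.1, Bool.not_not]
        exact (Finset.mem_filter.1 hy).2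
    have e2 : S.deg u Fs ≤ outP S U P u + ∑ v ∈ Fs, if S.adj v u ∧ ¬ P u v then (1 : ℝ) else 0 := by
      have e3 : ∑ v ∈ Fs, (if S.adj u v ∧ P u v then (1 : ℝ) else 0) ≤ outP S U P u := by
        unfold outP
        rw [Finset.card_filter]
        push_cast
        exact Finset.sum_le_sum_of_subset_of_nonneg ((Finset.filter_subset _ _).trans hFU)
          fun v _ _ => by split_ifs <;> norm_num
      rw [deg_eq_sum]
      refine le_trans (Finset.sum_le_sum fun v _ => ?_)
        ((le_of_eq Finset.sum_add_distrib).trans (add_le_add_left e3 _))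
      by_cases ha : S.adj u v
      · have ha' := S.adj_symm ha
        by_cases hp : P u v <;> simp [ha, ha', hp]
      · rw [if_neg ha]
        split_ifs <;> norm_num
    have e4 : (1 / 100 + η) * U.card ≤ 1 / 40 * U.card :=
      mul_le_mul_of_nonneg_right (by linarith) hm0
    have e5 : 0 ≤ γ * U.card := by positivity
    linarith [hu.2.2]
  have h9 : (Bd.card : ℝ) * (1 / 5 * U.card) ≤ β * U.card * U.card := by
    calc (Bd.card : ℝ) * (1 / 5 * U.card) ≤
          ∑ u ∈ Bd, ∑ v ∈ Fs, if S.adj v u ∧ ¬ P u v then (1 : ℝ) else 0 := by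
          have := Finset.card_nsmul_le_sum Bd _ _ h8
          simpa using this
      _ = ∑ v ∈ Fs, ∑ u ∈ Bd, if S.adj v u ∧ ¬ P u v then (1 : ℝ) else 0 := Finset.sum_comm
      _ ≤ ∑ v ∈ Fs, β * U.card := by
          refine Finset.sum_le_sum fun v hv => ?_
          have e1 := (Finset.mem_filter.1 (Finset.mem_filter.1 hv).1).2
          refine le_trans ?_ (e1.le.trans hτβ)
          unfold ninP
          rw [Finset.card_filter]
          push_cast
          exact Finset.sum_le_sum_of_subset_of_nonneg (Finset.filter_subset _ _)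
            fun v _ _ => by split_ifs <;> norm_num
      _ ≤ β * U.card * U.card := by
          simp only [Finset.sum_const, nsmul_eq_mul]
          have : (Fs.card : ℝ) ≤ U.card := by
            exact_mod_cast Finset.card_le_card ((Finset.filter_subset _ _).trans hFU)
          rw [mul_comm]
          exact mul_le_mul_of_nonneg_left this (by positivity)
  have h10 : (Bd.card : ℝ) ≤ 5 * β * U.card := by
    have : (Bd.card : ℝ) * (1 / 5 * U.card) ≤ 5 * β * U.card * (1 / 5 * U.card) := by linarith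
    exact le_of_mul_le_mul_right this (by linarith)
  have h11 := card_ge_of_cover (U := U) (A := U.filter fun x => side x = !s) (B := Bd) (C := ∅)
    (D := ∅) (p := fun v => σ ≤ outP S U P v) (by
      intro x h1 h2 _ _
      simp only [hBd, Finset.mem_filter, not_and, not_lt] at h1 h2
      exact ⟨h1.1, h2 h1.1 h1.2⟩)
  simp only [Finset.card_empty, Nat.cast_zero] at h11
  have h12 := card_sides' side U s
  have h13 := hsz s
  have hNA : ((U.filter fun v => ninP S U P v < σ).card : ℝ) +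
      (U.filter fun v => σ ≤ outP S U P v).card ≤ U.card := by
    rw [← Nat.cast_add, ← Finset.card_union_of_disjoint]
    · exact_mod_cast Finset.card_le_card
        (Finset.union_subset (Finset.filter_subset _ _) (Finset.filter_subset _ _))
    · rw [Finset.disjoint_left]
      intro v h1 h2
      rw [Finset.mem_filter] at h1 h2
      linarith [outP_le_ninP (S := S) (U := U) hP v, h1.2, h2.2]
  have hFN : (F.card : ℝ) ≤ (U.filter fun v => ninP S U P v < σ).card := by
    exact_mod_cast Finset.card_le_card fun v hv => by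
      rw [Finset.mem_filter] at *
      exact ⟨hv.1, lt_of_lt_of_le hv.2 hτσ⟩
  have hAO : ((U.filter fun v => σ ≤ outP S U P v).card : ℝ) ≤
      (U.filter fun v => τ ≤ outP S U P v).card := by
    exact_mod_cast Finset.card_le_card fun v hv => by
      rw [Finset.mem_filter] at *
      exact ⟨hv.1, hτσ.trans hv.2⟩
  have h14 : 40 * β * U.card ≤ θ * U.card := mul_le_mul_of_nonneg_right hθ hm0
  linarith

theorem keyChoice_pair {S : Sys V} {side : V → Bool} (hs : ∀ u v, S.adj u v → side u ≠ side v)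
    {V0 : Finset V} {M : ℝ} {A : ℕ} (hV : 0 < V0.card) (hb : ∀ v u, S.bdeg v u V0 ≤ M)
    (hM : M ≤ 1 / 6 * V0.card) (hA : (A : ℝ) + 8 ≤ 1 / 30 * V0.card)
    (hsz : ∀ s, ((V0.filter fun x => side x = s).card : ℝ) ≤ (1 / 2 + 1 / 100) * V0.card)
    (hd : ∀ v ∈ V0, (1 / 2 - 1 / 100) * V0.card ≤ S.deg v V0) :
    KeyChoice S V0 ((V0.filter fun x => side x = true) ×ˢ (V0.filter fun x => side x = false))
      (fun u => [u.1]) (fun u => [u.2]) ((1 / 10) ^ 8) A := by
  intro Used hU w hw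
  have hU' : (Used.card : ℝ) ≤ A := by exact_mod_cast hU
  have hc : (0 : ℝ) < 1 / 10 := by norm_num
  have hVp : (0 : ℝ) < V0.card := by exact_mod_cast hV
  have cnt : ∀ (p q q' : V) (l : List V) (P : V → Prop) [DecidablePred P], p ∈ V0 →
      l.length ≤ 8 →
      (∀ x, S.adj p x → ¬ S.bad p q x → ¬ S.bad p q' x → x ∉ Used → x ∉ l → P x) →
      1 / 10 * (V0.card : ℝ) ≤ (V0.filter P).card := by
    intro p q q' l P _ hp hl h
    have e1 := free_count (Z := Used ∪ l.toFinset) (p := p) (q := q) (q' := q') (P := P) hb (by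
      intro x h1 h2 h3 h4
      simp only [Finset.mem_union, List.mem_toFinset, not_or] at h4
      exact h x h1 h2 h3 h4.1 h4.2)
    have e2 := card_union_list_le Used l
    have e3 : (l.length : ℝ) ≤ 8 := by exact_mod_cast hl
    linarith [hd p hp]
  have cnt2 : ∀ (p y q : V) (l : List V) (P : V → Prop) [DecidablePred P], p ∈ V0 → y ∈ V0 →
      side p = false → side y = false → l.length ≤ 8 →
      (∀ x, S.adj p x → S.adj y x → ¬ S.bad y q x → x ∉ Used → x ∉ l → P x) →
      1 / 10 * (V0.card : ℝ) ≤ (V0.filter P).card := by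
    intro p y q l P _ hp hy sp sy hl h
    have e0 := opp_deg hs hsz (hd p hp) (Y := S.nb y V0) (Finset.filter_subset _ _) fun x hx => by
      have := hs y x (mem_nb.1 hx).2
      rw [sp]
      cases h1 : side x <;> simp_all
    have e1 := card_ge_of_cover (U := V0) (A := S.nb p (S.nb y V0)) (B := S.bd y q V0)
      (C := Used) (D := l.toFinset) (p := P) (by
        intro x h1 h2 h3 h4
        simp only [mem_nb, mem_bd, List.mem_toFinset, not_and] at h1 h2 h4
        exact ⟨h1.1.1, h x h1.2 h1.1.2 (h2 h1.1.1) h3 h4⟩)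
    have e2 : ((l.toFinset.card : ℕ) : ℝ) ≤ 8 := by
      exact_mod_cast (List.toFinset_card_le l).trans hl
    have e3 := hb y q
    have e4 := hd y hy
    unfold deg at e0 e4
    unfold bdeg at e3
    linarith
  set I := (V0.filter fun x => side x = true) ×ˢ (V0.filter fun x => side x = false) with hI
  have memI : ∀ u ∈ I, (u.1 ∈ V0 ∧ side u.1 = true) ∧ u.2 ∈ V0 ∧ side u.2 = false := by
    intro u hu
    simpa only [hI, Finset.mem_product, Finset.mem_filter] using hu
  have s0 : 0 < ∑ u ∈ I, w u := by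
    refine Finset.sum_pos (fun u _ => hw u) (Finset.Nonempty.product ?_ ?_)
    · have e1 := card_sides side V0
      have e2 := hsz false
      have : (0 : ℝ) < (V0.filter fun x => side x = true).card := by linarith
      exact Finset.card_pos.1 (by exact_mod_cast this)
    · have e1 := card_sides side V0
      have e2 := hsz true
      have : (0 : ℝ) < (V0.filter fun x => side x = false).card := by linarith
      exact Finset.card_pos.1 (by exact_mod_cast this)
  have sf : ∀ x y, side x = true → S.adj x y → side y = false := by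
    intro x y h1 h2
    have := hs x y h2
    cases h3 : side y <;> simp_all
  obtain ⟨k2, m2, c2, w2, p2⟩ := averaging2 hw hV hc s0 (fun x => side x = false ∧ x ∉ Used)
    (fun u x => S.adj u.1 x) fun u hu => cnt u.1 u.1 u.1 [] _ (memI u hu).1.1 (by simp)
      fun x h1 _ _ h4 _ => And.intro (And.intro (sf _ _ (memI u hu).1.2 h1) h4) h1
  obtain ⟨k6, m6, c6, w6, p6⟩ := averaging2 hw hV hc p2
    (fun x => side x = false ∧ x ∉ Used ∧ x ∉ [k2])
    (fun u x => S.adj u.1 x ∧ ¬ S.bad u.1 k2 x) fun u hu =>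
      cnt u.1 k2 k2 [k2] _ (memI u (Finset.mem_filter.1 hu).1).1.1 (by simp)
        fun x h1 h2 _ h4 h5 => ⟨⟨sf _ _ (memI u (Finset.mem_filter.1 hu).1).1.2 h1, h4, h5⟩, h1, h2⟩
  obtain ⟨k3, m3, c3, w3, p3⟩ := averaging2 hw hV hc p6
    (fun x => S.adj k2 x ∧ x ∉ Used ∧ x ∉ [k2, k6])
    (fun u x => S.adj u.2 x) fun u hu => by
      have := memI u (Finset.mem_filter.1 (Finset.mem_filter.1 hu).1).1
      exact cnt2 k2 u.2 k2 [k2, k6] _ m2 this.2.1 c2.1 this.2.2 (by simp)
        fun x h1 h2 _ h4 h5 => ⟨⟨h1, h4, h5⟩, h2⟩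
  obtain ⟨k7, m7, c7, w7, p7⟩ := averaging2 hw hV hc p3
    (fun x => S.adj k6 x ∧ x ∉ Used ∧ x ∉ [k2, k6, k3])
    (fun u x => S.adj u.2 x ∧ ¬ S.bad u.2 k3 x) fun u hu => by
      have := memI u (Finset.mem_filter.1 (Finset.mem_filter.1 (Finset.mem_filter.1 hu).1).1).1
      exact cnt2 k6 u.2 k3 [k2, k6, k3] _ m6 this.2.1 c6.1 this.2.2 (by simp)
        fun x h1 h2 h3 h4 h5 => ⟨⟨h1, h4, h5⟩, h2, h3⟩
  obtain ⟨k4, m4, c4, w4, p4⟩ := averaging2 hw hV hc p7
    (fun x => S.adj k3 x ∧ ¬ S.bad k3 k2 x ∧ x ∉ Used ∧ x ∉ [k2, k6, k3, k7])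
    (fun u x => ¬ S.bad k3 u.2 x) fun u _ =>
      cnt k3 k2 u.2 [k2, k6, k3, k7] _ m3 (by simp)
        fun x h1 h2 h3 h4 h5 => ⟨⟨h1, h2, h4, h5⟩, h3⟩
  obtain ⟨k8, m8, c8, w8, p8⟩ := averaging2 hw hV hc p4
    (fun x => S.adj k7 x ∧ ¬ S.bad k7 k6 x ∧ x ∉ Used ∧ x ∉ [k2, k6, k3, k7, k4])
    (fun u x => ¬ S.bad k7 u.2 x) fun u _ =>
      cnt k7 k6 u.2 [k2, k6, k3, k7, k4] _ m7 (by simp)
        fun x h1 h2 h3 h4 h5 => ⟨⟨h1, h2, h4, h5⟩, h3⟩
  obtain ⟨k1, m1, c1, w1, p1⟩ := averaging2 hw hV hc p8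
    (fun x => S.adj k2 x ∧ ¬ S.bad k2 k3 x ∧ x ∉ Used ∧ x ∉ [k2, k6, k3, k7, k4, k8])
    (fun u x => ¬ S.bad k2 u.1 x) fun u _ =>
      cnt k2 k3 u.1 [k2, k6, k3, k7, k4, k8] _ m2 (by simp)
        fun x h1 h2 h3 h4 h5 => ⟨⟨h1, h2, h4, h5⟩, h3⟩
  obtain ⟨k5, m5, c5, w5, -⟩ := averaging2 hw hV hc p1
    (fun x => S.adj k6 x ∧ ¬ S.bad k6 k7 x ∧ x ∉ Used ∧ x ∉ [k2, k6, k3, k7, k4, k8, k1])
    (fun u x => ¬ S.bad k6 u.1 x) fun u _ =>
      cnt k6 k7 u.1 [k2, k6, k3, k7, k4, k8, k1] _ m6 (by simp)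
        fun x h1 h2 h3 h4 h5 => ⟨⟨h1, h2, h4, h5⟩, h3⟩
  refine ⟨⟨k1, k2, k3, k4, k5, k6, k7, k8⟩, ?_, ?_, ?_, ?_⟩
  · exact nodup8 c6.2.2 c3.2.2 c7.2.2 c4.2.2.2 c8.2.2.2 c1.2.2.2 c5.2.2.2
  · simp only [Gad.list, List.mem_cons, List.not_mem_nil, or_false]
    rintro x (rfl | rfl | rfl | rfl | rfl | rfl | rfl | rfl)
    exacts [⟨m1, c1.2.2.1⟩, ⟨m2, c2.2⟩, ⟨m3, c3.2.1⟩, ⟨m4, c4.2.2.1⟩, ⟨m5, c5.2.2.1⟩,
      ⟨m6, c6.2.1⟩, ⟨m7, c7.2.1⟩, ⟨m8, c8.2.2.1⟩]
  · exact ⟨⟨S.adj_symm c1.1, c3.1, fun h => c1.2.1 (S.bad_symm h)⟩, ⟨c3.1, c4.1, c4.2.1⟩,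
      ⟨S.adj_symm c5.1, c7.1, fun h => c5.2.1 (S.bad_symm h)⟩, ⟨c7.1, c8.1, c8.2.1⟩⟩
  · refine le_trans (le_trans (by linarith) w5)
      (Finset.sum_le_sum_of_subset_of_nonneg ?_ fun u _ _ => (hw u).le)
    intro u hu
    simp only [Finset.mem_filter] at hu ⊢
    obtain ⟨⟨⟨⟨⟨⟨⟨⟨h0, h2⟩, h6, h6'⟩, h3⟩, h7, h7'⟩, h4⟩, h8⟩, h1⟩, h5⟩ := hu
    refine ⟨h0, ?_, ?_⟩
    · rw [lk_cons, lk_nil]
      exact ⟨⟨S.adj_symm c1.1, S.adj_symm h2, fun h => h1 (S.bad_symm h)⟩,
        ⟨S.adj_symm h2, h6, h6'⟩, ⟨h6, c5.1, h5⟩⟩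
    · rw [lk_cons, lk_nil]
      exact ⟨⟨S.adj_symm c4.1, S.adj_symm h3, fun h => h4 (S.bad_symm h)⟩,
        ⟨S.adj_symm h3, h7, h7'⟩, ⟨h7, c8.1, h8⟩⟩

theorem zip_perm : ∀ (l1 l2 : List V), l1.length = l2.length →
    ((l1.zip l2).flatMap fun u => [u.1] ++ [u.2]).Perm (l1 ++ l2)
  | [], [], _ => by simp
  | [], _ :: _, h => by simp at h
  | _ :: _, [], h => by simp at h
  | a :: l1, b :: l2, h => by
      have := zip_perm l1 l2 (by simpa using h)
      simp only [List.zip_cons_cons, List.flatMap_cons, List.cons_append, List.nil_append,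
        List.perm_cons] at *
      exact (this.cons b).trans List.perm_middle.symm

end Pool.Agent.Lib.MP_ac307a_co
end

-- part Pool.Agent.Lib.MP_ac307a_co.HamBip
section

/-! Spanning links in nearly complete balanced bipartite systems. -/

namespace Pool.Agent.Lib.MP_ac307a_co

open Classical Sys

variable {V : Type}

/-- the sign of a side -/
noncomputable def balOf (side : V → Bool) (v : V) : ℝ := if side v = true then 1 else -1

theorem sum_balOf (side : V → Bool) (X : Finset V) : ∑ v ∈ X, balOf side v =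
    (X.filter fun x => side x = true).card - (X.filter fun x => side x = false).card := by
  rw [Finset.card_filter, Finset.card_filter]
  push_cast
  rw [← Finset.sum_sub_distrib]
  refine Finset.sum_congr rfl fun v _ => ?_
  unfold balOf
  cases side v <;> simp

theorem abs_balOf (side : V → Bool) (v : V) : |balOf side v| ≤ 1 := by
  unfold balOf
  split_ifs <;> simp

theorem balOf_ne {side : V → Bool} {u v : V} (h : side u ≠ side v) :
    balOf side u + balOf side v = 0 := by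
  unfold balOf
  cases h1 : side u <;> cases h2 : side v <;> simp_all

theorem side_le {side : V → Bool} {X : Finset V} {t : ℝ} (h : |∑ v ∈ X, balOf side v| ≤ t)
    (s : Bool) : ((X.filter fun x => side x = s).card : ℝ) ≤ X.card / 2 + t / 2 := by
  rw [sum_balOf, abs_le] at h
  have := card_sides side X
  cases s <;> linarith [h.1, h.2]

/-- the test sets in the bipartite case -/
def testBip (S : Sys V) (side : V → Bool) : V × V × Fin 4 → V → Prop
  | (x, _, 0) => S.adj x
  | (x, y, 1) => S.bad x y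
  | (_, _, 2) => fun z => side z = true
  | (_, _, 3) => fun z => side z = false

theorem hamBip {γ : ℝ} (hγ : 0 < γ) (hγ1 : γ ≤ 1 / 12) :
    ∃ η : ℝ, 0 < η ∧ ∃ N : ℕ, ∀ (V : Type) [Fintype V] (S : Sys V) (side : V → Bool)
      (V0 : Finset V), (∀ u v, S.adj u v → side u ≠ side v) →
      N ≤ V0.card → Fintype.card V ≤ 3 * V0.card →
      (∀ v u, S.bdeg v u V0 ≤ (1 / 6 - γ) * V0.card) →
      (∀ v ∈ V0, (1 / 2 - η) * V0.card ≤ S.deg v V0) →
      ∀ a b c d, S.adj a b → 1 / 6 * V0.card ≤ S.deg b V0 → S.adj c d →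
        1 / 6 * V0.card ≤ S.deg c V0 →
        balOf side b + 2 * ∑ v ∈ V0, balOf side v + balOf side c = 0 →
        ∃ l : List V, l.Perm V0.toList ∧ Lk S.R a b l c d := by
  obtain ⟨η, hη⟩ : ∃ η : ℝ, η = γ ^ 2 / 1200 := ⟨_, rfl⟩
  have hη0 : 0 < η := by rw [hη]; positivity
  have hγ2 : γ ^ 2 ≤ γ / 12 := by nlinarith
  obtain ⟨K, m1, hconn⟩ := connect (γ := γ / 2) (θ' := ((γ / 2) ^ 2 / 2) ^ 2 / 8) (by positivity)
    (by linarith) (by positivity)
  obtain ⟨ε0, ε, hε0, hε, L0, hL0⟩ := hamLinkT K (c := (1 / 10) ^ 8) (ζ := η) (α := 1 / 100)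
    (by positivity) (by norm_num) hη0 (by linarith) (by positivity)
  obtain ⟨L1, hL1⟩ := exists_nat_ge (4 / ε)
  obtain ⟨L, hL⟩ : ∃ L, L = max L0 L1 := ⟨_, rfl⟩
  have hL2 : 4 ≤ ε * L := by
    rw [div_le_iff₀ hε] at hL1
    have : (L1 : ℝ) ≤ L := by rw [hL]; exact_mod_cast le_max_right _ _
    nlinarith
  have hLp : (0 : ℝ) < L := by
    by_contra h
    push Not at h
    nlinarith
  obtain ⟨N0, hN0⟩ := hL0 L (by rw [hL]; exact le_max_left _ _)
  obtain ⟨β, hβ⟩ : ∃ β : ℝ, β = min η (ε / (4 * L) / 40) := ⟨_, rfl⟩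
  have hβ0 : 0 < β := by rw [hβ]; exact lt_min hη0 (by positivity)
  have hβ1 : β ≤ η := by rw [hβ]; exact min_le_left _ _
  have hβ2 : 40 * β ≤ ε / (4 * L) := by
    have : β ≤ ε / (4 * L) / 40 := by rw [hβ]; exact min_le_right _ _
    linarith
  obtain ⟨m2, hkey⟩ := key_of_level hγ hγ1 hε hβ0 (by linarith) L hL2
  obtain ⟨m3, hm3⟩ := exists_nat_ge (8 / (ε / (4 * L)))
  obtain ⟨N1, hN1⟩ := exists_big hε0 (max (max 100 m3) (max m1 m2))
  obtain ⟨N2, hN2⟩ := exists_nat_ge (1 / η)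
  refine ⟨η, hη0, max (max N0 N1) (max N2 1000), ?_⟩
  intro V _ S side V0 hs hN hV hb hd a b c d hab hb' hcd hc' hbal
  simp only [max_le_iff] at hN
  obtain ⟨⟨n0, n1⟩, n2, n3⟩ := hN
  have : Nonempty V := ⟨a⟩
  have hn0 : (0 : ℝ) < V0.card := by exact_mod_cast (by omega : 0 < V0.card)
  have hn3 : (1000 : ℝ) ≤ V0.card := by exact_mod_cast n3
  have hn2 : 1 ≤ η * V0.card := by
    rw [div_le_iff₀ hη0] at hN2
    have : (N2 : ℝ) ≤ V0.card := by exact_mod_cast n2
    nlinarith
  have hsz0 : ∀ s, ((V0.filter fun x => side x = s).card : ℝ) ≤ (1 / 2 + η) * V0.card := by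
    intro s
    have e1 := abs_le.1 (abs_balOf side b)
    have e2 := abs_le.1 (abs_balOf side c)
    have := side_le (side := side) (X := V0) (t := 1) (by
      rw [abs_le]
      constructor <;> linarith [e1.1, e1.2, e2.1, e2.2]) s
    linarith
  have common : ∀ U ⊆ V0, ε0 * V0.card ≤ U.card → (∀ i, Inh V0 U η (testBip S side i)) →
      (100 ≤ U.card ∧ m3 ≤ U.card) ∧ m1 ≤ U.card ∧ m2 ≤ U.card ∧
      (∀ v u, S.bdeg v u U ≤ (1 / 6 - γ + η) * U.card) ∧
      (∀ v ∈ U, (1 / 2 - 2 * η) * U.card ≤ S.deg v U) ∧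
      (∀ s, ((U.filter fun x => side x = s).card : ℝ) ≤ (1 / 2 + 2 * η) * U.card) := by
    intro U hU hUc hI
    have e0 := hN1 _ _ n1 hUc
    simp only [max_le_iff] at e0
    refine ⟨e0.1, e0.2.1, e0.2.2, fun v u => (hI (v, u, 1)).upper _ (hb v u), fun v hv => ?_,
      fun s => ?_⟩
    · have f1 := (hI (v, v, 0)).lower _ (hd v (hU hv))
      change _ ≤ S.deg v U at f1
      linarith
    · cases s
      · have f0 : Inh V0 U η fun z => side z = false := hI (a, a, 3)
        have f1 := f0.upper _ (hsz0 false)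
        linarith
      · have f0 : Inh V0 U η fun z => side z = true := hI (a, a, 2)
        have f1 := f0.upper _ (hsz0 true)
        linarith
  have hηn : η * V0.card ≤ 1 / 100 * V0.card := mul_le_mul_of_nonneg_right (by linarith) hn0.le
  have hγn : 0 ≤ γ * V0.card := by positivity
  refine hN0 V (V × V × Fin 4) (V × V) S V0 (testBip S side)
    (fun v => 1 / 6 * V0.card ≤ S.deg v V0) (balOf side)
    ((V0.filter fun x => side x = true) ×ˢ (V0.filter fun x => side x = false))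
    (fun u => [u.1]) (fun u => [u.2]) n0 ?_ ?_ ?_ (fun u v h => balOf_ne (hs u v h))
    (abs_balOf side) ?_ ?_ ?_ ?_ a b c d hab hb' hcd hc' hbal
  · simp only [Fintype.card_prod, Fintype.card_fin]
    exact card_test_le hV (by omega) le_rfl
  · rw [Finset.card_product, sq]
    exact Nat.mul_le_mul (Finset.card_filter_le _ _) (Finset.card_filter_le _ _)
  · intro v hv
    linarith [hd v hv]
  · intro U hU hUc hI
    obtain ⟨-, a1, -, a4, a5, a6⟩ := common U hU hUc hI
    have hUp : (0 : ℝ) ≤ U.card := Nat.cast_nonneg _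
    refine (hconn V S U (1 / 6 - γ + η) a1 (by linarith) a4 (fun v hv => ?_)
      (cut_of_bip hs a6 a5 (by positivity) (by linarith) (by linarith) (by linarith))).mono
      fun v hv => ?_
    · exact le_trans (mul_le_mul_of_nonneg_right (by linarith) hUp) (a5 v hv)
    · have f1 := (hI (v, v, 0)).lower _ hv
      change _ ≤ S.deg v U at f1
      exact le_trans (mul_le_mul_of_nonneg_right (by linarith) hUp) f1
  · intro U hU hUc hI hbU
    obtain ⟨a0, -, a2, a4, a5, -⟩ := common U hU hUc hI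
    have hUp : (0 : ℝ) ≤ U.card := Nat.cast_nonneg _
    refine hkey V S U 1 le_rfl (by norm_num) a2 (fun v u => (a4 v u).trans
      (mul_le_mul_of_nonneg_right (by linarith) hUp)) (fun v hv => ?_) ?_
    · exact le_trans (mul_le_mul_of_nonneg_right (by linarith) hUp) (a5 v hv)
    · intro τ σ t1 t2 t3 t4
      refine level_of_bip hs (γ := γ / 2) (η := 2 * η) (by positivity) (by linarith)
        (by linarith) hβ0.le hβ2 (by linarith) a0.1 ?_ (fun s => ?_) a5 t1 t2 t3 (by linarith)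
      · have f0 : 0 < ε / (4 * L) := by positivity
        rw [div_le_iff₀ f0] at hm3
        have f1 : (m3 : ℝ) ≤ U.card := by exact_mod_cast a0.2
        have f2 := mul_le_mul_of_nonneg_right f1 f0.le
        linarith
      · linarith [side_le hbU s]
  · intro A hA
    exact keyChoice_pair hs (by omega) hb (by linarith) (by linarith)
      (fun s => by linarith [hsz0 s]) fun v hv => by linarith [hd v hv]
  · intro W hW hWb
    rw [sum_balOf, sub_eq_zero, Nat.cast_inj] at hWb
    refine ⟨(W.filter fun x => side x = true).toList.zip (W.filter fun x => side x = false).toList,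
      ?_, ?_, ?_⟩
    · rintro ⟨x, y⟩ hu
      have := List.of_mem_zip hu
      simp only [Finset.mem_toList, Finset.mem_filter, Finset.mem_product] at this ⊢
      exact ⟨⟨hW this.1.1, this.1.2⟩, hW this.2.1, this.2.2⟩
    · rw [List.length_zip, Finset.length_toList]
      exact (min_le_left _ _).trans (Finset.card_filter_le _ _)
    · refine (zip_perm _ _ (by simpa using hWb)).trans ?_
      rw [List.perm_ext_iff_of_nodup _ (Finset.nodup_toList _)]
      · intro x
        simp only [List.mem_append, Finset.mem_toList, Finset.mem_filter]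
        cases side x <;> simp
      · rw [List.nodup_append]
        refine ⟨Finset.nodup_toList _, Finset.nodup_toList _, ?_⟩
        rintro x hx y hy rfl
        simp only [Finset.mem_toList, Finset.mem_filter] at hx hy
        rw [hx.2] at hy
        simp at hy

end Pool.Agent.Lib.MP_ac307a_co
end

-- part Pool.Agent.Lib.MP_ac307a_co.BipCase
section

/-! The extremal case of a nearly complete bipartite graph. -/

namespace Pool.Agent.Lib.MP_ac307a_co

open Classical Sys

variable {V : Type}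

/-- the subsystem of crossing edges -/
def crossSys (S : Sys V) (side : V → Bool) : Sys V where
  adj u v := S.adj u v ∧ side u ≠ side v
  bad := S.bad
  adj_symm h := ⟨S.adj_symm h.1, h.2.symm⟩
  adj_irrefl h := S.adj_irrefl h.1
  bad_symm := S.bad_symm

theorem cross_deg {S : Sys V} {side : V → Bool} {v : V} {T U : Finset V}
    (hT : ∀ x ∈ T, side v ≠ side x) : S.deg v T ≤ (crossSys S side).deg v U + (T \ U).card := by
  have h1 : S.deg v T ≤ (crossSys S side).deg v T := by
    unfold deg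
    exact_mod_cast Finset.card_le_card fun x hx => by
      rw [mem_nb] at *
      exact ⟨hx.1, hx.2, hT x hx.1⟩
  linarith [deg_le_add (S := crossSys S side) v T U]

theorem ls_items (y : V → ℝ) (Mt : List (V × V)) (h : ∀ p ∈ Mt, y p.2 = -1) :
    ls y (flat Mt) = ls y (Mt.map Prod.fst) - Mt.length := by
  induction Mt with
  | nil => simp
  | cons p Mt ih =>
    have h1 := h p (by simp)
    have h2 := ih fun q hq => h q (by simp [hq])
    simp only [flat_cons, ls_cons, List.length_cons, List.map_cons]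
    push_cast
    linarith

theorem perm_all [Fintype V] {T : Finset V} {a b : V} {F : List V} (hF : F.Nodup) (hab : a ≠ b)
    (ha : a ∈ T \ F.toFinset) (hb : b ∈ T \ F.toFinset) :
    (Finset.univ : Finset V).toList.Perm (a :: b :: (((T \ F.toFinset) \ {a, b}).toList ++
      (F ++ (Tᶜ \ F.toFinset).toList))) := by
  rw [List.perm_iff_count]
  intro x
  have hc : F.count x = if x ∈ F then 1 else 0 := by
    split_ifs with h
    · exact List.count_eq_one_of_mem hF h
    · exact List.count_eq_zero_of_not_mem h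
  simp only [Finset.mem_sdiff, List.mem_toFinset] at ha hb
  simp only [List.count_cons, List.count_append, hc, count_toList, Finset.mem_univ,
    Finset.mem_sdiff, List.mem_toFinset, Finset.mem_insert, Finset.mem_singleton,
    Finset.mem_compl, beq_iff_eq]
  by_cases b1 : x = a
  · subst b1
    simp [ha.1, ha.2, hab.symm]
  by_cases b2 : x = b
  · subst b2
    simp [hb.1, hb.2, hab]
  by_cases b3 : x ∈ T <;> by_cases b4 : x ∈ F <;> simp [b1, b2, b3, b4, Ne.symm b1, Ne.symm b2]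

theorem bip_final {γ : ℝ} (hγ : 0 < γ) (hγ1 : γ ≤ 1 / 12) :
    ∃ ν : ℝ, 0 < ν ∧ ∃ N : ℕ, ∀ (V : Type) [Fintype V] (S : Sys V) (B TA TB : Finset V)
      (Mt : List (V × V)),
      N ≤ Fintype.card V → (∀ v u, S.bdeg v u Finset.univ ≤ (1 / 6 - γ) * Fintype.card V) →
      TB ⊆ B → TA ⊆ Bᶜ → (((TA ∪ TB)ᶜ.card : ℝ) ≤ ν * Fintype.card V) →
      (∀ v ∈ TA, (1 / 2 - ν) * Fintype.card V ≤ S.deg v TB) →
      (∀ v ∈ TB, (1 / 2 - ν) * Fintype.card V ≤ S.deg v TA) →
      (∀ v ∈ B, (1 / 5 - ν) * Fintype.card V ≤ S.deg v TA) →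
      (∀ v ∈ Bᶜ, (1 / 5 - ν) * Fintype.card V ≤ S.deg v TB) →
      (flat Mt).Nodup → (∀ p ∈ Mt, S.adj p.1 p.2 ∧ p.1 ∈ B ∧ p.2 ∈ B) →
      B.card = Bᶜ.card + Mt.length → (Mt.length : ℝ) ≤ ν * Fintype.card V → HamCyc S := by
  obtain ⟨K, m1, hconn⟩ := connect (γ := γ / 2) (θ' := ((γ / 2) ^ 2 / 2) ^ 2 / 8)
    (by positivity) (by linarith) (by positivity)
  obtain ⟨η, hη, N1, hham⟩ := hamBip (γ := γ / 2) (by positivity) (by linarith)
  obtain ⟨δ, hδ⟩ : ∃ δ : ℝ, δ = min η (γ ^ 2 / 128) := ⟨_, rfl⟩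
  have hδ0 : 0 < δ := by rw [hδ]; exact lt_min hη (by positivity)
  have hδ1 : δ ≤ η := by rw [hδ]; exact min_le_left _ _
  have hδ2 : δ ≤ γ ^ 2 / 128 := by rw [hδ]; exact min_le_right _ _
  have hγ2 : γ ^ 2 ≤ γ / 12 := by nlinarith
  obtain ⟨ν, hν⟩ : ∃ ν : ℝ, ν = δ / (6 * (K + 2)) := ⟨_, rfl⟩
  have hK0 : (0 : ℝ) ≤ K := Nat.cast_nonneg _
  have hν0 : 0 < ν := by rw [hν]; positivity
  have hν1 : ν * (6 * (K + 2)) = δ := by rw [hν]; field_simp
  have hν2 : 12 * ν ≤ δ := by nlinarith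
  obtain ⟨N2, hN2⟩ := exists_nat_ge (12 / δ)
  refine ⟨ν, hν0, max N2 (3 * max m1 N1), ?_⟩
  intro V _ S B TA TB Mt hN hb hTB hTA hex hdA hdB hdB' hdA' hM1 hM2 hM3 hM4
  simp only [max_le_iff] at hN
  have hcc := card_compl' B
  have hcT := card_compl' (TA ∪ TB)
  obtain ⟨n, hn⟩ : ∃ n : ℝ, n = Fintype.card V := ⟨_, rfl⟩
  have hδn : 12 ≤ δ * n := by
    rw [div_le_iff₀ hδ0] at hN2
    have : (N2 : ℝ) ≤ n := by rw [hn]; exact_mod_cast hN.1
    nlinarith
  have hn0 : 0 < n := by
    by_contra h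
    push Not at h
    nlinarith
  rw [← hn] at hb hex hdA hdB hdB' hdA' hM4 hcc hcT
  have hM3' : (B.card : ℝ) = Bᶜ.card + Mt.length := by exact_mod_cast hM3
  have hνn : 12 * ν * n ≤ δ * n := mul_le_mul_of_nonneg_right hν2 hn0.le
  have hδn3 : δ * n ≤ 1 / 1000 * n := mul_le_mul_of_nonneg_right (by linarith) hn0.le
  have hδn2 : δ * n ≤ γ * n := mul_le_mul_of_nonneg_right (by linarith) hn0.le
  have hγn : γ * n ≤ 1 / 12 * n := mul_le_mul_of_nonneg_right hγ1 hn0.le
  have hνn0 : 0 ≤ ν * n := by positivity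
  obtain ⟨A, hA⟩ : ∃ A : ℕ, A = ⌊δ / 3 * n⌋₊ := ⟨_, rfl⟩
  have hA1 : (A : ℝ) ≤ δ / 3 * n := by rw [hA]; exact Nat.floor_le (by positivity)
  set side : V → Bool := fun v => decide (v ∉ B) with hside
  set S' := crossSys S side with hS'
  have hs : ∀ u v, S'.adj u v → side u ≠ side v := fun u v h => h.2
  have sB : ∀ v ∈ B, side v = false := fun v hv => by simp [hside, hv]
  have sA : ∀ v ∈ Bᶜ, side v = true := fun v hv => by simpa [hside] using hv
  have hMV : (((flat Mt).toFinset.card : ℕ) : ℝ) ≤ 2 * ν * n := by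
    have e1 := List.toFinset_card_le (flat Mt)
    rw [flat_length] at e1
    have e2 : (((flat Mt).toFinset.card : ℕ) : ℝ) ≤ 2 * Mt.length := by exact_mod_cast e1
    linarith
  -- degrees in the crossing system
  have dg : ∀ (Z : Finset V) (t : ℝ) (v : V), (v ∈ B → t ≤ S.deg v TA) → (v ∈ Bᶜ → t ≤ S.deg v TB) →
      t ≤ S'.deg v ((TA ∪ TB) \ Z) + Z.card := by
    intro Z t v h1 h2
    have sub : ∀ T : Finset V, T ⊆ TA ∪ TB → ((T \ ((TA ∪ TB) \ Z)).card : ℝ) ≤ Z.card := by
      intro T hT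
      exact_mod_cast Finset.card_le_card fun x hx => by
        have := @hT x
        simp only [Finset.mem_sdiff] at hx
        tauto
    by_cases hv : v ∈ B
    · have e1 := cross_deg (S := S) (side := side) (v := v) (T := TA) (U := (TA ∪ TB) \ Z)
        fun x hx => by rw [sB v hv, sA x (hTA hx)]; simp
      linarith [h1 hv, sub TA Finset.subset_union_left]
    · have hv' := Finset.mem_compl.2 hv
      have e1 := cross_deg (S := S) (side := side) (v := v) (T := TB) (U := (TA ∪ TB) \ Z)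
        fun x hx => by rw [sA v hv', sB x (hTB hx)]; simp
      linarith [h2 hv', sub TB Finset.subset_union_right]
  have dg1 : ∀ (Z : Finset V) (v : V), (1 / 5 - ν) * n ≤ S'.deg v ((TA ∪ TB) \ Z) + Z.card :=
    fun Z v => dg Z _ v (hdB' v) (hdA' v)
  have dg2 : ∀ (Z : Finset V), ∀ v ∈ TA ∪ TB,
      (1 / 2 - ν) * n ≤ S'.deg v ((TA ∪ TB) \ Z) + Z.card := by
    intro Z v hv
    rw [Finset.mem_union] at hv
    refine dg Z _ v (fun h => hdB v ?_) fun h => hdA v ?_
    · exact hv.resolve_left fun h' => Finset.mem_compl.1 (hTA h') h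
    · exact hv.resolve_right fun h' => Finset.mem_compl.1 h (hTB h')
  obtain ⟨a, ha⟩ : ((TA ∪ TB) \ (flat Mt).toFinset).Nonempty := by
    have e1 := card_le_sdiff (TA ∪ TB) (flat Mt).toFinset
    have : (0 : ℝ) < ((TA ∪ TB) \ (flat Mt).toFinset).card := by linarith
    exact Finset.card_pos.1 (by exact_mod_cast this)
  obtain ⟨b, hb0, hab⟩ := exists_adj_of_deg_pos (S := S') (x := a)
    (Y := (TA ∪ TB) \ (flat Mt).toFinset) (by linarith [dg1 (flat Mt).toFinset a])
  have hne : a ≠ b := by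
    rintro rfl
    exact S'.adj_irrefl hab
  set V1 := ((TA ∪ TB) \ (flat Mt).toFinset) \ {a, b} with hV1
  have hc2 : ((({a, b} : Finset V).card : ℕ) : ℝ) ≤ 2 := by exact_mod_cast Finset.card_le_two
  have hZ : ∀ Used : Finset V, Used.card ≤ A → ∃ Z : Finset V, V1 \ Used = (TA ∪ TB) \ Z ∧
      (Z.card : ℝ) ≤ 2 / 3 * δ * n := by
    intro Used hU
    refine ⟨(flat Mt).toFinset ∪ {a, b} ∪ Used, ?_, ?_⟩
    · rw [hV1, sdiff_sdiff_left, sdiff_sdiff_left]
      simp only [Finset.sup_eq_union, Finset.union_assoc]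
    · have e1 := Finset.card_union_le ((flat Mt).toFinset ∪ {a, b}) Used
      have e2 := Finset.card_union_le (flat Mt).toFinset {a, b}
      have e3 : ((((flat Mt).toFinset ∪ {a, b} ∪ Used).card : ℕ) : ℝ) ≤
          (flat Mt).toFinset.card + ({a, b} : Finset V).card + Used.card := by
        exact_mod_cast (by omega)
      have hU' : (Used.card : ℝ) ≤ A := by exact_mod_cast hU
      linarith
  have facts : ∀ Used : Finset V, Used.card ≤ A →
      (∀ v u, S'.bdeg v u (V1 \ Used) ≤ (1 / 6 - γ / 2) * (V1 \ Used).card) ∧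
      (∀ v ∈ V1 \ Used, (1 / 2 - δ) * (V1 \ Used).card ≤ S'.deg v (V1 \ Used)) ∧
      (∀ v, 1 / 6 * (V1 \ Used).card ≤ S'.deg v (V1 \ Used)) ∧
      (∀ s, (((V1 \ Used).filter fun x => side x = s).card : ℝ) ≤
        (1 / 2 + 3 * δ) * (V1 \ Used).card) ∧
      Fintype.card V ≤ 3 * (V1 \ Used).card := by
    intro Used hU
    obtain ⟨Z, hZ1, hZ2⟩ := hZ Used hU
    rw [hZ1]
    have e1 := card_le_sdiff (TA ∪ TB) Z
    have e2 : (((TA ∪ TB) \ Z).card : ℝ) ≤ n := by
      rw [hn]; exact_mod_cast Finset.card_le_univ _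
    obtain ⟨m, hm⟩ : ∃ m : ℝ, m = ((TA ∪ TB) \ Z).card := ⟨_, rfl⟩
    rw [← hm] at e1 e2 ⊢
    have e5 : (1 - δ) * n ≤ m := by linarith
    refine ⟨fun v u => ?_, fun v hv => ?_, fun v => ?_, fun s => ?_, ?_⟩
    · refine ((bdeg_mono (S := S') v u (Finset.subset_univ _)).trans (hb v u)).trans ?_
      have f1 := mul_le_mul_of_nonneg_left e5 (by linarith : 0 ≤ 1 / 6 - γ / 2)
      have f2 : 0 ≤ γ * δ * n := by positivity
      linarith
    · have f1 := mul_le_mul_of_nonneg_left e2 (by linarith : 0 ≤ 1 / 2 - δ)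
      linarith [dg2 Z v (Finset.mem_sdiff.1 hv).1]
    · linarith [dg1 Z v]
    · have f1 : ((((TA ∪ TB) \ Z).filter fun x => side x = s).card : ℝ) ≤ B.card := by
        cases s
        · exact_mod_cast Finset.card_le_card fun x hx => by
            have := (Finset.mem_filter.1 hx).2
            simpa [hside] using this
        · have : ((((TA ∪ TB) \ Z).filter fun x => side x = true).card : ℝ) ≤ Bᶜ.card := by
            exact_mod_cast Finset.card_le_card fun x hx => by
              have := (Finset.mem_filter.1 hx).2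
              simpa [hside] using this
          linarith [(Nat.cast_nonneg _ : (0 : ℝ) ≤ Mt.length)]
      have f2 := mul_le_mul_of_nonneg_left e5 (by linarith : 0 ≤ 1 / 2 + 3 * δ)
      have f3 : δ * (δ * n) ≤ 1 / 1000 * (δ * n) :=
        mul_le_mul_of_nonneg_right (by linarith) (by linarith)
      linarith
    · have : (Fintype.card V : ℝ) ≤ 3 * ((TA ∪ TB) \ Z).card := by rw [← hn, ← hm]; linarith
      exact_mod_cast this
  set E := (TA ∪ TB)ᶜ \ (flat Mt).toFinset with hE
  have hitems : (Mt.length + E.card) * (K + 2) ≤ A := by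
    rw [hA]
    refine Nat.le_floor ?_
    push_cast
    have e1 : (E.card : ℝ) ≤ (TA ∪ TB)ᶜ.card := by
      exact_mod_cast Finset.card_le_card Finset.sdiff_subset
    have e2 : ((Mt.length : ℝ) + E.card) * (K + 2) ≤ 2 * ν * n * (K + 2) :=
      mul_le_mul_of_nonneg_right (by linarith) (by positivity)
    have e3 : 2 * ν * n * (K + 2) = δ / 3 * n := by rw [← hν1]; ring
    linarith
  have hR : ∀ a b c, S'.R a b c → S.R a b c := fun a b c h => ⟨h.1.1, h.2.1.1, h.2.2⟩
  have hbV1 : ∀ v u, S'.bdeg v u V1 ≤ (1 / 6 - γ) * n := fun v u =>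
    (bdeg_mono (S := S') v u (Finset.subset_univ _)).trans (hb v u)
  have hdV1 : ∀ v, (1 / 5 - δ) * n ≤ S'.deg v V1 := by
    intro v
    obtain ⟨Z, hZ1, hZ2⟩ := hZ ∅ (by simp)
    rw [Finset.sdiff_empty] at hZ1
    rw [hZ1]
    linarith [dg1 Z v]
  obtain ⟨l, w, c, d, p1, p2, p3, p4, p5, p6, -, p8⟩ := precover (S := S) (S' := S') hR
    (V1 := V1) (K := K) (A := A) (Home := fun _ => True) (fun _ _ => trivial)
    (bal := balOf side) (fun u v h => balOf_ne (hs u v h))
    (fun Used hU => by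
      obtain ⟨f1, f2, f3, f4, f5⟩ := facts Used hU
      have f0 : (0 : ℝ) ≤ (V1 \ Used).card := Nat.cast_nonneg _
      refine (hconn V S' (V1 \ Used) (1 / 6 - γ / 2) (by omega) (by linarith) f1
        (fun v hv => le_trans (mul_le_mul_of_nonneg_right (by linarith) f0) (f2 v hv))
        (cut_of_bip hs f4 f2 (by positivity) (by linarith) (by linarith) (by linarith))).mono
        fun v _ => le_trans (mul_le_mul_of_nonneg_right (by linarith) f0) (f3 v))
    hab trivial ((Mt.map fun p => (p.1, [p.2])) ++ E.toList.map fun z => (z, []))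
    (by simpa using hitems) (by
      intro it hit Used hU
      have hU' : (Used.card : ℝ) ≤ A := by exact_mod_cast hU
      have f2 : 0 ≤ γ * n := by positivity
      rw [List.mem_append, List.mem_map, List.mem_map] at hit
      rcases hit with ⟨z, hz, rfl⟩ | ⟨z, -, rfl⟩
      · obtain ⟨p, hp, hpZ, h1, h1'⟩ := pick (S := S') (U := V1) (Z := Used) z.1 z.2
          (by linarith [hbV1 z.1 z.2, hdV1 z.1])
        obtain ⟨q, hq, hqZ, h2, h2'⟩ := pick (S := S') (U := V1) (Z := insert p Used) z.2 z.1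
          (by linarith [hbV1 z.2 z.1, hdV1 z.2, card_insert_le' p Used])
        rw [Finset.mem_insert, not_or] at hqZ
        refine ⟨p, hp, q, hq, hpZ, hqZ.2, fun h => hqZ.1 h.symm, z.2, S'.adj_symm h1,
          ⟨⟨S.adj_symm h1.1, (hM2 z hz).1, fun h => h1' (S.bad_symm h)⟩,
            ⟨(hM2 z hz).1, h2.1, h2'⟩, rfl, rfl⟩, h2, ?_⟩
        simp [balOf, sB _ (hM2 z hz).2.1, sB _ (hM2 z hz).2.2]
      · obtain ⟨p, hp, q, hq, a1, a2, a3, a4⟩ := ext_single (S := S') (U := V1) (Z := Used)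
          (z := z) hbV1 (by linarith [hdV1 z])
        exact ⟨p, hp, q, hq, a1, a2, a3, z, a4.1, ⟨hR _ _ _ a4, rfl, rfl⟩, a4.2.1, rfl⟩)
  obtain ⟨f1, f2, f3, -, f5⟩ := facts l.toFinset (by
    have := List.toFinset_card_le l
    simp only [List.length_map, Finset.length_toList, List.length_append] at p3
    omega)
  have f0 : (0 : ℝ) ≤ (V1 \ l.toFinset).card := Nat.cast_nonneg _
  have P0 := perm_all hM1 hne ha hb0
  rw [← hV1, ← hE] at P0
  have e2 : ((Mt.map fun p => (p.1, [p.2])) ++ E.toList.map fun z => (z, ([] : List V))).flatMap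
      (fun it => it.1 :: it.2) = flat Mt ++ E.toList := by
    rw [List.flatMap_append, List.flatMap_map, List.flatMap_map]
    simp [flat]
  have e3 : ((Mt.map fun p => (p.1, [p.2])) ++ E.toList.map fun z => (z, ([] : List V))).map
      Prod.fst = Mt.map Prod.fst ++ E.toList := by
    simp [List.map_append, Function.comp_def]
  rw [e2] at p5
  rw [e3] at p8
  obtain ⟨l2, q1, q2⟩ := hham V S' side (V1 \ l.toFinset) hs (by omega) f5 f1
    (fun v hv => le_trans (mul_le_mul_of_nonneg_right (by linarith) f0) (f2 v hv))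
    c d a b p6 (f3 d) hab (f3 a) (by
      have g1 := ls_perm (balOf side) P0
      rw [ls_eq_sum _ (Finset.nodup_toList _), Finset.toList_toFinset, sum_balOf] at g1
      have g2 : (Finset.univ.filter fun x => side x = true) = Bᶜ := by
        ext x
        simp [hside]
      have g3 : (Finset.univ.filter fun x => side x = false) = B := by
        ext x
        simp [hside]
      rw [g2, g3] at g1
      simp only [ls_cons, ls_append] at g1 p8
      rw [ls_items _ _ (fun p hp => by simp [balOf, sB _ (hM2 p hp).2.2]),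
        ls_eq_sum _ (Finset.nodup_toList V1), Finset.toList_toFinset] at g1
      rw [sum_sdiff_list _ p1 p2]
      have g4 := balOf_ne (hs a b hab)
      linarith)
  refine ⟨a, b, w ++ l2, hab.1, ?_, p4.trans_lk (q2.mono hR)⟩
  have e1 := toList_perm_sdiff p1 p2
  rw [List.perm_iff_count] at e1 p5 q1 P0 ⊢
  intro x
  have g1 := e1 x
  have g2 := p5 x
  have g3 := q1 x
  have g4 := P0 x
  simp only [List.count_append, List.count_cons] at g1 g2 g3 g4 ⊢
  omega

end Pool.Agent.Lib.MP_ac307a_co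
end

-- part Pool.Agent.Lib.MP_ac307a_co.Lower
section

/-! The lower bound: every Dirac system with bound below one sixth has a compatible cycle. -/

namespace Pool.Agent.Lib.MP_ac307a_co

open Classical Sys

variable {V : Type}

theorem bip_main {γ : ℝ} (hγ : 0 < γ) (hγ1 : γ ≤ 1 / 12) :
    ∃ ν : ℝ, 0 < ν ∧ ∃ N : ℕ, ∀ (V : Type) [Fintype V] (S : Sys V) (B TA TB : Finset V),
      N ≤ Fintype.card V → (∀ v u, S.bdeg v u Finset.univ ≤ (1 / 6 - γ) * Fintype.card V) →
      (∀ v, (Fintype.card V : ℝ) / 2 ≤ S.deg v Finset.univ) →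
      TB ⊆ B → TA ⊆ Bᶜ → (((TA ∪ TB)ᶜ.card : ℝ) ≤ ν * Fintype.card V) →
      (1 / 2 - ν) * Fintype.card V ≤ TA.card →
      (∀ v ∈ TA, (1 / 2 - ν) * Fintype.card V ≤ S.deg v TB) →
      (∀ v ∈ TB, (1 / 2 - ν) * Fintype.card V ≤ S.deg v TA) →
      (∀ v ∈ B, 1 / 5 * Fintype.card V ≤ S.deg v TA) →
      (∀ v ∈ Bᶜ, 1 / 5 * Fintype.card V ≤ S.deg v TB) →
      Bᶜ.card ≤ B.card → HamCyc S := by
  obtain ⟨ν1, hν1, N, hfin⟩ := bip_final hγ hγ1
  obtain ⟨ν, hν⟩ : ∃ ν : ℝ, ν = min (ν1 / 2) (1 / 200) := ⟨_, rfl⟩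
  have hν0 : 0 < ν := by rw [hν]; exact lt_min (by positivity) (by norm_num)
  have hν2 : ν ≤ ν1 / 2 := by rw [hν]; exact min_le_left _ _
  have hν3 : ν ≤ 1 / 200 := by rw [hν]; exact min_le_right _ _
  refine ⟨ν, hν0, max N 10, ?_⟩
  intro V _ S B TA TB hN hb hD hTB hTA hex hTAc hdA hdB hdB' hdA' hBB
  rw [max_le_iff] at hN
  have hfin' := fun B TA TB Mt => hfin V S B TA TB Mt hN.1 hb
  have hcc := card_compl' B
  have hccN := Finset.card_add_card_compl B
  obtain ⟨n, hn⟩ : ∃ n : ℝ, n = Fintype.card V := ⟨_, rfl⟩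
  have hn10 : 10 ≤ n := by rw [hn]; exact_mod_cast hN.2
  have hn0 : 0 < n := by linarith
  have hcc2 := fun X : Finset V => card_compl' X
  rw [← hn] at hD hex hTAc hdA hdB hdB' hdA' hfin' hcc hcc2
  have g2 : ν * n ≤ ν1 / 2 * n := mul_le_mul_of_nonneg_right hν2 hn0.le
  have g3 : ν * n ≤ 1 / 200 * n := mul_le_mul_of_nonneg_right hν3 hn0.le
  have g4 : 0 ≤ ν * n := by positivity
  set Hi := B.filter fun v => n / 5 ≤ S.deg v B with hHi
  obtain ⟨k0, hk0⟩ : ∃ k0, B.card = Bᶜ.card + k0 := ⟨B.card - Bᶜ.card, by omega⟩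
  have hk0' : (B.card : ℝ) = Bᶜ.card + k0 := by exact_mod_cast hk0
  have hk1 : (k0 : ℝ) ≤ 2 * ν * n := by
    have : (TA.card : ℝ) ≤ Bᶜ.card := by exact_mod_cast Finset.card_le_card hTA
    linarith
  obtain ⟨Mv, hMv1, hMv2⟩ := Finset.exists_subset_card_eq (s := Hi) (n := min Hi.card (k0 / 2))
    (min_le_left _ _)
  have hMvB : Mv ⊆ B := hMv1.trans (Finset.filter_subset _ _)
  have hj : 2 * Mv.card ≤ k0 := by
    have := min_le_right Hi.card (k0 / 2)
    omega
  have hj' : (Mv.card : ℝ) ≤ ν * n := by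
    have : 2 * (Mv.card : ℝ) ≤ k0 := by exact_mod_cast hj
    linarith
  obtain ⟨k, hk⟩ : ∃ k, k0 = k + 2 * Mv.card := ⟨k0 - 2 * Mv.card, by omega⟩
  have hB2 : (B \ Mv).card = (B \ Mv)ᶜ.card + k := by
    have e1 := Finset.card_sdiff_add_card_eq_card hMvB
    have e2 := Finset.card_add_card_compl (B \ Mv)
    omega
  have hB2' : ((B \ Mv).card : ℝ) = (B \ Mv)ᶜ.card + k := by exact_mod_cast hB2
  have hkk : (k : ℝ) ≤ 2 * ν * n := by
    have : (k : ℝ) ≤ k0 := by exact_mod_cast (by omega : k ≤ k0)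
    linarith
  have hmin : ∀ v ∈ B \ Mv, (k : ℝ) / 2 ≤ S.deg v (B \ Mv) := by
    intro v _
    linarith [deg_compl (S := S) v (B \ Mv), hD v, deg_le (S := S) v (B \ Mv)ᶜ, hcc2 (B \ Mv)]
  obtain ⟨Mt, m1, m2, m3⟩ : ∃ Mt : List (V × V), Mt.length = k ∧ (flat Mt).Nodup ∧
      ∀ p ∈ Mt, S.adj p.1 p.2 ∧ p.1 ∈ B \ Mv ∧ p.2 ∈ B \ Mv := by
    by_cases hc : Hi.card ≤ k0 / 2
    · have e1 : Mv = Hi := Finset.eq_of_subset_of_card_le hMv1 (by rw [hMv2, min_eq_left hc])
      refine matching (D := n / 5) hmin (fun v hv => ?_) (by linarith) (fun r hr => ?_) k le_rfl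
      · rw [Finset.mem_sdiff, e1, hHi, Finset.mem_filter] at hv
        have e2 : ¬ n / 5 ≤ S.deg v B := fun h => hv.2 ⟨hv.1, h⟩
        linarith [deg_mono (S := S) v (Finset.sdiff_subset : B \ Mv ⊆ B)]
      · have e2 : (r : ℝ) + 1 ≤ k := by exact_mod_cast hr
        have e3 : (0 : ℝ) ≤ r := Nat.cast_nonneg _
        have e4 : 12 / 25 * n * (k / 2) ≤ (((B \ Mv).card : ℝ) - 2 * r) * (k / 2) :=
          mul_le_mul_of_nonneg_right (by linarith [hcc2 (B \ Mv)]) (by linarith)
        have e5 : r * (n / 5) < k * (n / 5) := mul_lt_mul_of_pos_right (by linarith) (by linarith)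
        have e6 : 0 ≤ k * n := by positivity
        linarith
    · have e1 : k = 0 ∨ k = 1 := by
        rw [min_eq_right (by omega)] at hMv2
        omega
      rcases e1 with rfl | rfl
      · exact ⟨[], rfl, by simp, by simp⟩
      · obtain ⟨v, hv⟩ : (B \ Mv).Nonempty := Finset.card_pos.1 (by omega)
        obtain ⟨u, hu, huv⟩ := exists_adj_of_deg_pos (S := S) (x := v) (Y := B \ Mv)
          (by have := hmin v hv; push_cast at this; linarith)
        refine ⟨[(v, u)], rfl, ?_, ?_⟩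
        · simp only [flat_cons, flat_nil, List.nodup_cons, List.mem_cons, List.not_mem_nil,
            or_false, not_false_eq_true, List.nodup_nil, and_true]
          rintro rfl
          exact S.adj_irrefl huv
        · intro p hp
          rw [List.mem_singleton] at hp
          subst hp
          exact ⟨huv, hv, hu⟩
  have dTB : ∀ v, S.deg v TB ≤ S.deg v (TB \ Mv) + ν * n := fun v => by
    linarith [deg_le_sdiff (S := S) v TB Mv]
  refine hfin' (B \ Mv) TA (TB \ Mv) Mt (Finset.sdiff_subset_sdiff hTB (Finset.Subset.refl _))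
    (hTA.trans (Finset.compl_subset_compl.2 Finset.sdiff_subset)) ?_
    (fun v hv => by linarith [hdA v hv, dTB v])
    (fun v hv => by linarith [hdB v (Finset.mem_sdiff.1 hv).1])
    (fun v hv => by linarith [hdB' v (Finset.mem_sdiff.1 hv).1]) (fun v hv => ?_) m2 m3
    (by rw [m1]; exact hB2) (by rw [m1]; linarith)
  · have : (TA ∪ TB \ Mv)ᶜ ⊆ (TA ∪ TB)ᶜ ∪ Mv := by
      intro x hx
      simp only [Finset.mem_compl, Finset.mem_union, Finset.mem_sdiff] at hx ⊢
      tauto
    have e1 := (Finset.card_le_card this).trans (Finset.card_union_le _ _)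
    have e2 : (((TA ∪ TB \ Mv)ᶜ.card : ℕ) : ℝ) ≤ (TA ∪ TB)ᶜ.card + Mv.card := by exact_mod_cast e1
    linarith
  · by_cases hvB : v ∈ B
    · have e1 : v ∈ Mv := by
        by_contra h
        exact Finset.mem_compl.1 hv (Finset.mem_sdiff.2 ⟨hvB, h⟩)
      have e2 := (Finset.mem_filter.1 (hMv1 e1)).2
      have e3 := deg_le_add (S := S) v B TB
      have e4 : ((B \ TB).card : ℝ) ≤ (TA ∪ TB)ᶜ.card := by
        exact_mod_cast Finset.card_le_card fun x hx => by
          have := @hTA x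
          simp only [Finset.mem_compl, Finset.mem_union, Finset.mem_sdiff] at hx this ⊢
          tauto
      linarith [dTB v]
    · linarith [hdA' v (Finset.mem_compl.2 hvB), dTB v]

theorem bip_case {γ : ℝ} (hγ : 0 < γ) (hγ1 : γ ≤ 1 / 12) :
    ∃ ν0 : ℝ, 0 < ν0 ∧ ∃ N : ℕ, ∀ (V : Type) [Fintype V] (S : Sys V) (X : Finset V),
      N ≤ Fintype.card V → (∀ v u, S.bdeg v u Finset.univ ≤ (1 / 6 - γ) * Fintype.card V) →
      (∀ v, (Fintype.card V : ℝ) / 2 ≤ S.deg v Finset.univ) →
      (1 / 2 - ν0) * Fintype.card V ≤ X.card → (X.card : ℝ) ≤ (1 / 2 + ν0) * Fintype.card V →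
      S.ec X X ≤ ν0 * (Fintype.card V : ℝ) ^ 2 → HamCyc S := by
  obtain ⟨ν1, hν1, N, hmain⟩ := bip_main hγ hγ1
  obtain ⟨ν, hν⟩ : ∃ ν : ℝ, ν = min (ν1 / 3) (1 / 100) := ⟨_, rfl⟩
  have hν0 : 0 < ν := by rw [hν]; exact lt_min (by positivity) (by norm_num)
  have hν2 : ν ≤ ν1 / 3 := by rw [hν]; exact min_le_left _ _
  have hν3 : ν ≤ 1 / 100 := by rw [hν]; exact min_le_right _ _
  refine ⟨ν ^ 2, by positivity, max N 10, ?_⟩
  intro V _ S X hN hb hD hX1 hX2 hec
  rw [max_le_iff] at hN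
  have hmain' := fun B TA TB => hmain V S B TA TB hN.1 hb hD
  have hcc := card_compl' X
  obtain ⟨n, hn⟩ : ∃ n : ℝ, n = Fintype.card V := ⟨_, rfl⟩
  have hn10 : 10 ≤ n := by rw [hn]; exact_mod_cast hN.2
  have hn0 : 0 < n := by linarith
  rw [← hn] at hD hX1 hX2 hec hmain' hcc
  have g1 : ν ^ 2 * n ≤ ν * n := mul_le_mul_of_nonneg_right (by nlinarith) hn0.le
  have g2 : ν * n ≤ ν1 / 3 * n := mul_le_mul_of_nonneg_right hν2 hn0.le
  have g3 : ν * n ≤ 1 / 100 * n := mul_le_mul_of_nonneg_right hν3 hn0.le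
  have g4 : 0 ≤ ν * n := by positivity
  have m1 := markov hν0 hn0 hec
  set TB := X.filter fun x => S.deg x X ≤ ν * n with hTB
  set TA := Xᶜ.filter fun x => X.card - ν * n ≤ S.deg x X with hTA
  have dc : ∀ v, n / 2 ≤ S.deg v X + S.deg v Xᶜ := fun v => by
    linarith [deg_compl (S := S) v X, hD v]
  have hX0 : (0 : ℝ) ≤ X.card := Nat.cast_nonneg _
  have m2 : ((Xᶜ \ TA).card : ℝ) ≤ 2 * ν * n := by
    have e1 : X.card * (n / 2) ≤ S.ec X X + S.ec Xᶜ X := by
      rw [ec_comm Xᶜ]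
      unfold ec
      rw [← Finset.sum_add_distrib]
      have := Finset.card_nsmul_le_sum X _ _ fun v _ => dc v
      simpa using this
    have hsub : TA ⊆ Xᶜ := Finset.filter_subset _ _
    have e2 : S.ec Xᶜ X = S.ec (Xᶜ \ TA) X + S.ec TA X := by
      unfold ec
      rw [Finset.sum_sdiff hsub]
    have e3 := ec_le (S := S) (X := Xᶜ \ TA) (Y := X) (t := X.card - ν * n) fun x hx => by
      simp only [hTA, Finset.mem_sdiff, Finset.mem_filter, not_and, not_le] at hx
      exact (hx.2 hx.1).le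
    have e4 := ec_le (S := S) (X := TA) (Y := X) (t := X.card) fun x _ => deg_le _ _
    have e5 : ((Xᶜ \ TA).card : ℝ) + TA.card = Xᶜ.card := by
      exact_mod_cast Finset.card_sdiff_add_card_eq_card hsub
    have e6 : (X.card : ℝ) * (Xᶜ.card - n / 2) ≤ n * (ν ^ 2 * n) :=
      (mul_le_mul_of_nonneg_left (by linarith : (Xᶜ.card : ℝ) - n / 2 ≤ ν ^ 2 * n) hX0).trans
        (mul_le_mul_of_nonneg_right (by linarith) (by positivity))
    have e7 : ((Xᶜ \ TA).card : ℝ) * X.card + TA.card * X.card = Xᶜ.card * X.card := by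
      rw [← e5]; ring
    have : ((Xᶜ \ TA).card : ℝ) * (ν * n) ≤ 2 * ν * n * (ν * n) := by linarith
    exact le_of_mul_le_mul_right this (by positivity)
  have hex : ((TA ∪ TB)ᶜ.card : ℝ) ≤ 3 * ν * n := by
    have : (TA ∪ TB)ᶜ ⊆ (X \ TB) ∪ (Xᶜ \ TA) := by
      intro v hv
      simp only [Finset.mem_union, Finset.mem_sdiff, Finset.mem_compl] at hv ⊢
      tauto
    have e1 := (Finset.card_le_card this).trans (Finset.card_union_le _ _)
    have e2 : (((TA ∪ TB)ᶜ.card : ℕ) : ℝ) ≤ (X \ TB).card + (Xᶜ \ TA).card := by exact_mod_cast e1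
    linarith
  have k3 : (X.card : ℝ) ≤ (X \ TB).card + TB.card := card_le_sdiff _ _
  have k4 : (Xᶜ.card : ℝ) ≤ (Xᶜ \ TA).card + TA.card := card_le_sdiff _ _
  have k5 : ∀ v, S.deg v X ≤ S.deg v TB + ν * n := fun v => by
    linarith [deg_le_add (S := S) v X TB]
  have k6 : ∀ v, S.deg v Xᶜ ≤ S.deg v TA + 2 * ν * n := fun v => by
    linarith [deg_le_add (S := S) v Xᶜ TA]
  have d1 : ∀ v ∈ TA, (1 / 2 - 3 * ν) * n ≤ S.deg v TB := fun v hv => by
    linarith [k5 v, (Finset.mem_filter.1 hv).2]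
  have d2 : ∀ v ∈ TB, (1 / 2 - 3 * ν) * n ≤ S.deg v TA := fun v hv => by
    linarith [k6 v, dc v, (Finset.mem_filter.1 hv).2]
  set B := Finset.univ.filter fun v => v ∈ TB ∨ (v ∉ TA ∧ S.deg v TB ≤ S.deg v TA) with hB
  have s1 : TB ⊆ B := fun v hv => Finset.mem_filter.2 ⟨Finset.mem_univ _, Or.inl hv⟩
  have s2 : TA ⊆ Bᶜ := fun v hv => by
    have e1 := Finset.mem_compl.1 (Finset.mem_filter.1 hv).1
    simp only [hB, Finset.mem_compl, Finset.mem_filter, Finset.mem_univ, true_and, not_or,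
      not_and]
    exact ⟨fun h => e1 (Finset.mem_filter.1 h).1, fun h => absurd hv h⟩
  have d3 : ∀ v ∈ B, 1 / 5 * n ≤ S.deg v TA := fun v hv => by
    rcases (Finset.mem_filter.1 hv).2 with h | h
    · linarith [d2 v h]
    · linarith [k5 v, k6 v, dc v, h.2]
  have d4 : ∀ v ∈ Bᶜ, 1 / 5 * n ≤ S.deg v TB := fun v hv => by
    simp only [hB, Finset.mem_compl, Finset.mem_filter, Finset.mem_univ, true_and, not_or,
      not_and, not_le] at hv
    by_cases h : v ∈ TA
    · linarith [d1 v h]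
    · linarith [k5 v, k6 v, dc v, hv.2 h]
  by_cases hc : Bᶜ.card ≤ B.card
  · exact hmain' B TA TB s1 s2 (by linarith) (by linarith) (fun v hv => by linarith [d1 v hv])
      (fun v hv => by linarith [d2 v hv]) d3 d4 hc
  · refine hmain' Bᶜ TB TA s2 (by rwa [compl_compl]) (by rw [Finset.union_comm]; linarith)
      (by linarith) (fun v hv => by linarith [d2 v hv]) (fun v hv => by linarith [d1 v hv]) d4
      (by rwa [compl_compl]) (by rw [compl_compl]; omega)

theorem structure_of_not_ne [Fintype V] {S : Sys V} {ε : ℝ} (hε : 0 < ε) (hε1 : ε ≤ 1 / 10)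
    (hn : 0 < Fintype.card V) (hD : ∀ v, (Fintype.card V : ℝ) / 2 ≤ S.deg v Finset.univ)
    (h : ¬ NE S Finset.univ (ε ^ 2)) :
    ∃ X : Finset V, (1 / 2 - 5 * ε) * Fintype.card V ≤ X.card ∧
      (X.card : ℝ) ≤ (1 / 2 + 5 * ε) * Fintype.card V ∧
      (S.ec X Xᶜ ≤ 5 * ε * (Fintype.card V : ℝ) ^ 2 ∨
        S.ec X X ≤ 5 * ε * (Fintype.card V : ℝ) ^ 2) := by
  unfold NE at h
  push Not at h
  obtain ⟨X, -, Y, -, hX, hY, hec⟩ := h
  rw [Finset.card_univ] at hX hY hec
  have hcc := fun X : Finset V => card_compl' X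
  obtain ⟨n, hn'⟩ : ∃ n : ℝ, n = Fintype.card V := ⟨_, rfl⟩
  have hn0 : 0 < n := by rw [hn']; exact_mod_cast hn
  rw [← hn'] at hX hY hec hD hcc ⊢
  have g1 : ε ^ 2 * n ≤ ε * n := mul_le_mul_of_nonneg_right (by nlinarith) hn0.le
  have g2 : ε * n ≤ 1 / 10 * n := mul_le_mul_of_nonneg_right hε1 hn0.le
  have g3 : ε ^ 2 * n ^ 2 ≤ ε * n ^ 2 := mul_le_mul_of_nonneg_right (by nlinarith) (by positivity)
  have g4 : 0 < ε * n := by positivity
  have g5 : 0 < ε * n ^ 2 := by positivity
  have m1 := markov hε hn0 hec.le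
  have m2 := markov (X := Y) (Y := X) hε hn0 (by rw [ec_comm]; exact hec.le)
  set X' := X.filter fun x => S.deg x Y ≤ ε * n with hX'
  set Y' := Y.filter fun x => S.deg x X ≤ ε * n with hY'
  have hXn : (X.card : ℝ) ≤ n := by linarith [hcc X, (Nat.cast_nonneg _ : (0 : ℝ) ≤ Xᶜ.card)]
  have ecb : ∀ Z : Finset V, ((Z \ Y).card : ℝ) ≤ 4 * ε * n → S.ec X Z ≤ 5 * ε * n ^ 2 := by
    intro Z hZ
    have e1 : S.ec X Z ≤ S.ec X Y + X.card * (4 * ε * n) := by
      unfold ec
      have := Finset.sum_le_sum (s := X) fun x _ =>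
        (deg_le_add (S := S) x Z Y).trans (add_le_add_right hZ _)
      rw [Finset.sum_add_distrib] at this
      simpa using this
    have e2 : X.card * (4 * ε * n) ≤ n * (4 * ε * n) :=
      mul_le_mul_of_nonneg_right hXn (by linarith)
    linarith
  obtain ⟨y, hy⟩ : Y'.Nonempty := by
    have : (0 : ℝ) < Y'.card := by linarith [card_le_sdiff Y Y']
    exact Finset.card_pos.1 (by exact_mod_cast this)
  have hu : ((X ∪ Y).card : ℝ) + (X ∩ Y).card = X.card + Y.card := by
    exact_mod_cast Finset.card_union_add_card_inter X Y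
  refine ⟨X, by linarith, ?_, ?_⟩
  · linarith [deg_compl (S := S) y X, hD y, deg_le (S := S) y Xᶜ, hcc X,
      (Finset.mem_filter.1 hy).2]
  by_cases hz : ∃ z, z ∈ X' ∧ z ∈ Y'
  · obtain ⟨z, hz1, hz2⟩ := hz
    refine Or.inr (ecb X ?_)
    have e1 : S.deg z (X ∪ Y) ≤ S.deg z X + S.deg z Y := by
      have f1 := deg_split (S := S) z (Finset.subset_union_left : X ⊆ X ∪ Y)
      have f2 := deg_mono (S := S) z (U := (X ∪ Y) \ X) (W := Y) fun x hx => by
        simp only [Finset.mem_sdiff, Finset.mem_union] at hx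
        tauto
      linarith
    have e2 : ((X \ Y).card : ℝ) + Y.card = (X ∪ Y).card := by
      exact_mod_cast Finset.card_sdiff_add_card X Y
    linarith [deg_compl (S := S) z (X ∪ Y), hD z, deg_le (S := S) z (X ∪ Y)ᶜ, hcc (X ∪ Y),
      (Finset.mem_filter.1 hz1).2, (Finset.mem_filter.1 hz2).2]
  · refine Or.inl (ecb Xᶜ ?_)
    push Not at hz
    have e1 : X ∩ Y ⊆ (X \ X') ∪ (Y \ Y') := by
      intro x hx
      have := hz x
      simp only [Finset.mem_inter, Finset.mem_union, Finset.mem_sdiff] at hx ⊢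
      tauto
    have e2 := (Finset.card_le_card e1).trans (Finset.card_union_le _ _)
    have e3 : ((X ∩ Y).card : ℝ) ≤ (X \ X').card + (Y \ Y').card := by exact_mod_cast e2
    have e4 : Xᶜ \ Y = (X ∪ Y)ᶜ := by
      ext x
      simp
    rw [e4]
    linarith [hcc (X ∪ Y)]

theorem lower {γ : ℝ} (hγ : 0 < γ) (hγ1 : γ ≤ 1 / 12) :
    ∃ N : ℕ, ∀ (V : Type) [Fintype V] (S : Sys V),
      N ≤ Fintype.card V → (∀ v u, S.bdeg v u Finset.univ ≤ (1 / 6 - γ) * Fintype.card V) →
      (∀ v, (Fintype.card V : ℝ) / 2 ≤ S.deg v Finset.univ) → HamCyc S := by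
  obtain ⟨ν1, hν1, N1, h1⟩ := clique_case hγ hγ1
  obtain ⟨ν2, hν2, N2, h2⟩ := bip_case hγ hγ1
  obtain ⟨ε, hε⟩ : ∃ ε : ℝ, ε = min (1 / 10) (min (ν1 / 5) (ν2 / 5)) := ⟨_, rfl⟩
  have hε0 : 0 < ε := by rw [hε]; exact lt_min (by norm_num) (lt_min (by positivity) (by positivity))
  have hε1 : ε ≤ 1 / 10 := by rw [hε]; exact min_le_left _ _
  have hε2 : ε ≤ ν1 / 5 := by rw [hε]; exact (min_le_right _ _).trans (min_le_left _ _)
  have hε3 : ε ≤ ν2 / 5 := by rw [hε]; exact (min_le_right _ _).trans (min_le_right _ _)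
  obtain ⟨κ, hκ⟩ : ∃ κ : ℝ, κ = ε ^ 2 := ⟨_, rfl⟩
  have hκ0 : 0 < κ := by rw [hκ]; positivity
  have hκ1 : κ ≤ 1 / 100 := by rw [hκ]; nlinarith
  obtain ⟨η, hη, N3, h3⟩ := hamNE (γ := γ / 2) (κ := κ / 2) (by positivity) (by linarith)
    (by positivity) (by linarith)
  obtain ⟨N4, hN4⟩ := exists_nat_ge (max (2 / η) (max (8 / κ) (1 / γ)))
  refine ⟨max (max N1 N2) (max (N3 + 2) (max N4 100)), ?_⟩
  intro V _ S hN hb hD
  simp only [max_le_iff] at hN hN4
  obtain ⟨⟨n1, n2⟩, n3, n4, n5⟩ := hN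
  have hn0 : (0 : ℝ) ≤ Fintype.card V := Nat.cast_nonneg _
  by_cases hne : NE S Finset.univ κ
  swap
  · rw [hκ] at hne
    obtain ⟨X, a1, a2, a3⟩ := structure_of_not_ne hε0 hε1 (by omega) hD hne
    have hsq : (0 : ℝ) ≤ (Fintype.card V : ℝ) ^ 2 := by positivity
    rcases a3 with a3 | a3
    · exact h1 V S X n1 hb hD (le_trans (mul_le_mul_of_nonneg_right (by linarith) hn0) a1)
        (a2.trans (mul_le_mul_of_nonneg_right (by linarith) hn0))
        (a3.trans (mul_le_mul_of_nonneg_right (by linarith) hsq))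
    · exact h2 V S X n2 hb hD (le_trans (mul_le_mul_of_nonneg_right (by linarith) hn0) a1)
        (a2.trans (mul_le_mul_of_nonneg_right (by linarith) hn0))
        (a3.trans (mul_le_mul_of_nonneg_right (by linarith) hsq))
  have hn100 : (100 : ℝ) ≤ Fintype.card V := by exact_mod_cast n5
  obtain ⟨a⟩ : Nonempty V := Fintype.card_pos_iff.1 (by omega)
  obtain ⟨b, -, hab⟩ := exists_adj_of_deg_pos (S := S) (x := a) (Y := Finset.univ)
    (by linarith [hD a])
  have hne' : a ≠ b := by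
    rintro rfl
    exact S.adj_irrefl hab
  set V0 : Finset V := Finset.univ \ {a, b} with hV0
  have hc : V0.card + 2 = Fintype.card V := by
    rw [hV0, ← Finset.card_pair hne', Finset.card_sdiff_add_card_eq_card (Finset.subset_univ _),
      Finset.card_univ]
  have hc' : (V0.card : ℝ) = Fintype.card V - 2 := by
    have : (V0.card : ℝ) + 2 = Fintype.card V := by exact_mod_cast hc
    linarith
  have hc2 : ((({a, b} : Finset V).card : ℕ) : ℝ) ≤ 2 := by exact_mod_cast Finset.card_le_two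
  have hd0 : ∀ v, (Fintype.card V : ℝ) / 2 - 2 ≤ S.deg v V0 := fun v => by
    linarith [deg_le_sdiff (S := S) v Finset.univ {a, b}, hD v]
  have hN4' : (N4 : ℝ) ≤ Fintype.card V := by exact_mod_cast n4
  obtain ⟨n, hn⟩ : ∃ n : ℝ, n = Fintype.card V := ⟨_, rfl⟩
  have hneU := hne
  unfold NE at hneU
  rw [Finset.card_univ] at hneU
  rw [← hn] at hc' hd0 hN4' hn100 hb hneU hn0
  have i1 : 2 ≤ η * n := by
    have := hN4.1.trans hN4'
    rw [div_le_iff₀ hη] at this
    linarith
  have i2 : 8 ≤ κ * n := by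
    have := hN4.2.1.trans hN4'
    rw [div_le_iff₀ hκ0] at this
    linarith
  have i3 : 1 ≤ γ * n := by
    have := hN4.2.2.trans hN4'
    rw [div_le_iff₀ hγ] at this
    linarith
  obtain ⟨l, p1, p2⟩ := h3 V S V0 1 le_rfl (by norm_num) (by omega) (by omega)
    (fun v u => by
      refine ((bdeg_mono v u (Finset.subset_univ _)).trans (hb v u)).trans ?_
      rw [hc']
      linarith)
    (fun v _ => by
      refine le_trans ?_ (hd0 v)
      rw [hc']
      have : η * 2 ≤ η * (n / 2) := mul_le_mul_of_nonneg_left (by linarith) hη.le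
      linarith)
    (fun X _ Y _ hX hY => by
      rw [hc'] at hX hY ⊢
      refine le_trans ?_ (hneU X (Finset.subset_univ _) Y (Finset.subset_univ _)
        (by linarith) (by linarith))
      have e1 : (n - 2) ^ 2 ≤ n ^ 2 := by nlinarith
      have e2 : κ * (n - 2) ^ 2 ≤ κ * n ^ 2 := mul_le_mul_of_nonneg_left e1 hκ0.le
      have e3 : 0 ≤ κ * (n - 2) ^ 2 := by positivity
      linarith)
    a b a b hab (by rw [hc']; linarith [hd0 b]) hab (by rw [hc']; linarith [hd0 a])
  refine ⟨a, b, l, hab, ?_, p2⟩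
  rw [List.perm_iff_count] at p1 ⊢
  intro x
  simp only [List.count_cons, p1 x, count_toList, hV0, Finset.mem_sdiff, Finset.mem_univ,
    Finset.mem_insert, Finset.mem_singleton, beq_iff_eq]
  by_cases b1 : x = a
  · subst b1
    simp [hne'.symm]
  by_cases b2 : x = b
  · subst b2
    simp [hne']
  simp [b1, b2, Ne.symm b1, Ne.symm b2]

end Pool.Agent.Lib.MP_ac307a_co
end
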