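import Mathlib

-- part Pool.Agent.Lib.MP_ac307a_co.Basic
section

/-! Walks in a graph with forbidden transitions. -/

namespace Pool.Agent.Lib.MP_ac307a_co

open Classical

variable {V : Type}

/-- Reading the list from the directed edge `(a, b)` ends in the directed edge `(c, d)`. -/
def Wk (R : V → V → V → Prop) : V → V → List V → V → V → Prop
  | a, b, [], c, d => a = c ∧ b = d
  | a, b, x :: l, c, d => R a b x ∧ Wk R b x l c d

/-- A link from `(a, b)` to `(c, d)` with interior `l`. -/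
def Lk (R : V → V → V → Prop) (a b : V) (l : List V) (c d : V) : Prop :=
  Wk R a b (l ++ [c, d]) c d

@[simp] theorem wk_nil {R : V → V → V → Prop} {a b c d : V} :
    Wk R a b [] c d ↔ a = c ∧ b = d := Iff.rfl

@[simp] theorem wk_cons {R : V → V → V → Prop} {a b x c d : V} {l : List V} :
    Wk R a b (x :: l) c d ↔ R a b x ∧ Wk R b x l c d := Iff.rfl

theorem Wk.append {R : V → V → V → Prop} : ∀ {l : List V} {a b c d e f : V} {l' : List V},
    Wk R a b l c d → Wk R c d l' e f → Wk R a b (l ++ l') e f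
  | [], _, _, _, _, _, _, _, h, h' => by
      obtain ⟨rfl, rfl⟩ := h
      simpa using h'
  | x :: l, _, _, _, _, _, _, _, h, h' => ⟨h.1, Wk.append h.2 h'⟩

theorem Wk.split {R : V → V → V → Prop} : ∀ {l : List V} {a b e f : V} {l' : List V},
    Wk R a b (l ++ l') e f → ∃ c d, Wk R a b l c d ∧ Wk R c d l' e f
  | [], a, b, _, _, _, h => ⟨a, b, ⟨rfl, rfl⟩, by simpa using h⟩
  | x :: l, _, _, _, _, _, h => by
      obtain ⟨c, d, h1, h2⟩ := Wk.split (l := l) h.2
      exact ⟨c, d, ⟨h.1, h1⟩, h2⟩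

theorem Wk.mono {R R' : V → V → V → Prop} (hR : ∀ a b c, R a b c → R' a b c) :
    ∀ {l : List V} {a b c d : V}, Wk R a b l c d → Wk R' a b l c d
  | [], _, _, _, _, h => h
  | _ :: _, _, _, _, _, h => ⟨hR _ _ _ h.1, Wk.mono hR h.2⟩

theorem Lk.mono {R R' : V → V → V → Prop} (hR : ∀ a b c, R a b c → R' a b c)
    {l : List V} {a b c d : V} (h : Lk R a b l c d) : Lk R' a b l c d := Wk.mono hR h

theorem Wk.trans_lk {R : V → V → V → Prop} {l q : List V} {a b c d e f : V}
    (h : Wk R a b l c d) (h' : Lk R c d q e f) : Lk R a b (l ++ q) e f := by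
  unfold Lk at *
  rw [List.append_assoc]
  exact h.append h'

theorem Lk.trans_wk {R : V → V → V → Prop} {l q : List V} {a b c d e f : V}
    (h : Lk R a b q c d) (h' : Wk R c d l e f) : Wk R a b (q ++ c :: d :: l) e f := by
  have := Wk.append h h'
  simpa using this

theorem Lk.trans {R : V → V → V → Prop} {l q : List V} {a b c d e f : V}
    (h : Lk R a b q c d) (h' : Lk R c d l e f) : Lk R a b (q ++ c :: d :: l) e f := by
  have := Wk.trans_lk (R := R) h h'
  simpa using this

theorem lk_nil {R : V → V → V → Prop} {a b c d : V} :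
    Lk R a b [] c d ↔ R a b c ∧ R b c d := by
  simp [Lk]

theorem lk_cons {R : V → V → V → Prop} {a b x c d : V} {l : List V} :
    Lk R a b (x :: l) c d ↔ R a b x ∧ Lk R b x l c d := by
  simp [Lk]

theorem Lk.snoc {R : V → V → V → Prop} {l : List V} {a b u x y : V}
    (h : Lk R a b l u x) (h' : R u x y) : Lk R a b (l ++ [u]) x y := by
  have : Wk R a b ((l ++ [u, x]) ++ [y]) x y := Wk.append h ⟨h', rfl, rfl⟩
  simpa [Lk] using this

theorem Lk.reverse {R : V → V → V → Prop} (hR : ∀ a b c, R a b c → R c b a) :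
    ∀ {l : List V} {a b c d : V}, Lk R a b l c d → Lk R d c l.reverse b a
  | [], a, b, c, d, h => by
      rw [lk_nil] at h
      simpa [lk_nil] using ⟨hR _ _ _ h.2, hR _ _ _ h.1⟩
  | x :: l, a, b, c, d, h => by
      rw [lk_cons] at h
      have := Lk.reverse hR h.2
      rw [List.reverse_cons]
      exact this.snoc (hR _ _ _ h.1)

theorem Wk.end_mem {R : V → V → V → Prop} : ∀ {l : List V} {a b c d : V},
    Wk R a b l c d → d ∈ b :: l
  | [], _, _, _, _, h => by simp [h.2]
  | x :: l, _, _, _, _, h => by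
      have := Wk.end_mem h.2
      exact List.mem_cons_of_mem _ this

/-- A graph together with forbidden transitions. -/
structure Sys (V : Type) where
  adj : V → V → Prop
  bad : V → V → V → Prop
  adj_symm : ∀ {u v}, adj u v → adj v u
  adj_irrefl : ∀ {u}, ¬ adj u u
  bad_symm : ∀ {v u w}, bad v u w → bad v w u

namespace Sys

variable (S : Sys V)

/-- allowed transition -/
def R (a b c : V) : Prop := S.adj a b ∧ S.adj b c ∧ ¬ S.bad b a c

theorem R_symm (a b c : V) (h : S.R a b c) : S.R c b a :=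
  ⟨S.adj_symm h.2.1, S.adj_symm h.1, fun hb => h.2.2 (S.bad_symm hb)⟩

/-- neighbours in `U` -/
noncomputable def nb (v : V) (U : Finset V) : Finset V := U.filter (S.adj v)

/-- forbidden continuations in `U` -/
noncomputable def bd (v u : V) (U : Finset V) : Finset V := U.filter (S.bad v u)

/-- degree into `U` -/
noncomputable def deg (v : V) (U : Finset V) : ℝ := ((S.nb v U).card : ℝ)

/-- number of forbidden continuations in `U` -/
noncomputable def bdeg (v u : V) (U : Finset V) : ℝ := ((S.bd v u U).card : ℝ)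

/-- ordered edge count -/
noncomputable def ec (X Y : Finset V) : ℝ := ∑ x ∈ X, S.deg x Y

variable {S}

@[simp] theorem mem_nb {v x : V} {U : Finset V} : x ∈ S.nb v U ↔ x ∈ U ∧ S.adj v x := by
  simp [nb]

@[simp] theorem mem_bd {v u x : V} {U : Finset V} : x ∈ S.bd v u U ↔ x ∈ U ∧ S.bad v u x := by
  simp [bd]

theorem deg_nonneg (v : V) (U : Finset V) : 0 ≤ S.deg v U := Nat.cast_nonneg _

theorem bdeg_nonneg (v u : V) (U : Finset V) : 0 ≤ S.bdeg v u U := Nat.cast_nonneg _

theorem deg_le (v : V) (U : Finset V) : S.deg v U ≤ U.card := by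
  unfold deg nb
  exact_mod_cast Finset.card_filter_le _ _

theorem deg_mono (v : V) {U W : Finset V} (h : U ⊆ W) : S.deg v U ≤ S.deg v W := by
  unfold deg nb
  exact_mod_cast Finset.card_le_card (Finset.filter_subset_filter _ h)

theorem bdeg_mono (v u : V) {U W : Finset V} (h : U ⊆ W) : S.bdeg v u U ≤ S.bdeg v u W := by
  unfold bdeg bd
  exact_mod_cast Finset.card_le_card (Finset.filter_subset_filter _ h)

theorem deg_eq_sum (v : V) (U : Finset V) :
    S.deg v U = ∑ x ∈ U, if S.adj v x then (1 : ℝ) else 0 := by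
  unfold deg nb
  rw [Finset.card_filter]
  push_cast
  rfl

theorem bdeg_eq_sum (v u : V) (U : Finset V) :
    S.bdeg v u U = ∑ x ∈ U, if S.bad v u x then (1 : ℝ) else 0 := by
  unfold bdeg bd
  rw [Finset.card_filter]
  push_cast
  rfl

theorem deg_le_add (v : V) (U W : Finset V) : S.deg v U ≤ S.deg v W + (U \ W).card := by
  unfold deg
  have : S.nb v U ⊆ S.nb v W ∪ (U \ W) := by
    intro x hx
    simp only [mem_nb, Finset.mem_union, Finset.mem_sdiff] at *
    tauto
  have h1 := Finset.card_le_card this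
  have h2 := Finset.card_union_le (S.nb v W) (U \ W)
  exact_mod_cast h1.trans h2

theorem deg_union (v : V) {U W : Finset V} (h : Disjoint U W) :
    S.deg v (U ∪ W) = S.deg v U + S.deg v W := by
  simp only [deg_eq_sum]
  rw [Finset.sum_union h]

theorem deg_split (v : V) {U X : Finset V} (h : X ⊆ U) :
    S.deg v U = S.deg v X + S.deg v (U \ X) := by
  rw [← deg_union v Finset.disjoint_sdiff, Finset.union_sdiff_of_subset h]

theorem ec_comm (X Y : Finset V) : S.ec X Y = S.ec Y X := by
  unfold ec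
  simp only [deg_eq_sum]
  rw [Finset.sum_comm]
  refine Finset.sum_congr rfl fun y _ => Finset.sum_congr rfl fun x _ => ?_
  by_cases h : S.adj x y
  · simp [h, S.adj_symm h]
  · have : ¬ S.adj y x := fun h' => h (S.adj_symm h')
    simp [h, this]

theorem ec_nonneg (X Y : Finset V) : 0 ≤ S.ec X Y :=
  Finset.sum_nonneg fun _ _ => deg_nonneg _ _

theorem ec_mono {X X' Y Y' : Finset V} (hX : X ⊆ X') (hY : Y ⊆ Y') : S.ec X Y ≤ S.ec X' Y' := by
  unfold ec
  calc ∑ x ∈ X, S.deg x Y ≤ ∑ x ∈ X, S.deg x Y' :=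
        Finset.sum_le_sum fun x _ => deg_mono x hY
    _ ≤ ∑ x ∈ X', S.deg x Y' :=
        Finset.sum_le_sum_of_subset_of_nonneg hX fun x _ _ => deg_nonneg _ _

theorem ec_ge {X Y : Finset V} {t : ℝ} (h : ∀ x ∈ X, t ≤ S.deg x Y) :
    X.card * t ≤ S.ec X Y := by
  unfold ec
  have := Finset.card_nsmul_le_sum X (fun x => S.deg x Y) t h
  simpa using this

theorem ec_le {X Y : Finset V} {t : ℝ} (h : ∀ x ∈ X, S.deg x Y ≤ t) :
    S.ec X Y ≤ X.card * t := by
  unfold ec
  have := Finset.sum_le_card_nsmul X (fun x => S.deg x Y) t h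
  simpa using this

theorem wk_adj {l : List V} : ∀ {a b c d : V}, S.adj a b → Wk S.R a b l c d → S.adj c d := by
  induction l with
  | nil => rintro a b c d h ⟨rfl, rfl⟩; exact h
  | cons x l ih => intro a b c d _ h; exact ih h.1.2.1 h.2

/-- There is an allowed continuation outside a small set. -/
theorem exists_next {U Z : Finset V} {a b : V} (hab : S.adj a b)
    (h : S.bdeg b a U + Z.card < S.deg b U) : ∃ x ∈ U, x ∉ Z ∧ S.R a b x := by
  by_contra hcon
  push Not at hcon
  have : S.nb b U ⊆ S.bd b a U ∪ Z := by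
    intro x hx
    rw [mem_nb] at hx
    by_cases hz : x ∈ Z
    · exact Finset.mem_union_right _ hz
    · refine Finset.mem_union_left _ (mem_bd.2 ⟨hx.1, ?_⟩)
      by_contra hb
      exact hcon x hx.1 hz ⟨hab, hx.2, hb⟩
  have h1 := (Finset.card_le_card this).trans (Finset.card_union_le _ _)
  unfold bdeg deg at h
  have : ((S.nb b U).card : ℝ) ≤ (S.bd b a U).card + Z.card := by exact_mod_cast h1
  linarith

end Sys

/-- sum of a weight along a list -/
def ls (y : V → ℝ) (l : List V) : ℝ := (l.map y).sum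

@[simp] theorem ls_nil (y : V → ℝ) : ls y [] = 0 := rfl

@[simp] theorem ls_cons (y : V → ℝ) (x : V) (l : List V) : ls y (x :: l) = y x + ls y l := by
  simp [ls]

@[simp] theorem ls_append (y : V → ℝ) (l l' : List V) : ls y (l ++ l') = ls y l + ls y l' := by
  simp [ls]

theorem ls_eq_sum (y : V → ℝ) {l : List V} (h : l.Nodup) : ls y l = ∑ x ∈ l.toFinset, y x := by
  rw [List.sum_toFinset y h]
  rfl

theorem ls_perm (y : V → ℝ) {l l' : List V} (h : l.Perm l') : ls y l = ls y l' :=
  (h.map y).sum_eq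

theorem abs_ls_le {y : V → ℝ} {l : List V} (h : ∀ x ∈ l, |y x| ≤ 1) : |ls y l| ≤ l.length := by
  induction l with
  | nil => simp
  | cons x l ih =>
    have h1 := h x (by simp)
    have h2 := ih fun z hz => h z (by simp [hz])
    simp only [ls_cons, List.length_cons]
    push_cast
    have := abs_add_le (y x) (ls y l)
    linarith

/-- Balance along a walk in a bipartite system. -/
theorem wk_bal {S : Sys V} {bal : V → ℝ} (hb : ∀ u v, S.adj u v → bal u + bal v = 0)
    {l : List V} : ∀ {a b c d : V}, Wk S.R a b l c d → bal b + 2 * ls bal l = bal d := by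
  induction l with
  | nil => rintro a b c d ⟨rfl, rfl⟩; simp
  | cons x l ih =>
    intro a b c d h
    have h1 := ih h.2
    have h2 := hb _ _ h.1.2.1
    simp only [ls_cons]
    linarith

theorem lk_bal {S : Sys V} {bal : V → ℝ} (hb : ∀ u v, S.adj u v → bal u + bal v = 0)
    {l : List V} {a b c d : V} (hcd : S.adj c d) (h : Lk S.R a b l c d) :
    bal b + 2 * ls bal l + bal c = 0 := by
  have h1 := wk_bal hb h
  have h2 := hb _ _ hcd
  simp only [ls_append, ls_cons, ls_nil] at h1
  linarith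

end Pool.Agent.Lib.MP_ac307a_co
end

-- part Pool.Agent.Lib.MP_ac307a_co.Key
section

/-! The key lemma: a long compatible path of small weight. -/

namespace Pool.Agent.Lib.MP_ac307a_co

open Classical Sys

variable {V : Type}

theorem exists_quantile (T : Finset V) (f : V → ℝ) (k : ℕ) (hk : 1 ≤ k) (hT : k ≤ T.card) :
    ∃ q : ℝ, (∃ x ∈ T, f x = q) ∧ k ≤ (T.filter fun z => q ≤ f z).card ∧
      (T.filter fun z => q < f z).card < k := by
  have hne : T.Nonempty := Finset.card_pos.1 (by omega)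
  obtain ⟨x0, hx0, hmin⟩ := Finset.exists_min_image T f hne
  set A := T.filter fun x => k ≤ (T.filter fun z => f x ≤ f z).card with hA
  have hAne : A.Nonempty := by
    refine ⟨x0, Finset.mem_filter.2 ⟨hx0, ?_⟩⟩
    rw [Finset.filter_true_of_mem hmin]
    exact hT
  obtain ⟨x, hx, hmax⟩ := Finset.exists_max_image A f hAne
  rw [hA, Finset.mem_filter] at hx
  refine ⟨f x, ⟨x, hx.1, rfl⟩, hx.2, ?_⟩
  by_contra hcon
  push Not at hcon
  have hne' : (T.filter fun z => f x < f z).Nonempty := Finset.card_pos.1 (by omega)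
  obtain ⟨z0, hz0, hmin'⟩ := Finset.exists_min_image _ f hne'
  have hz0' := Finset.mem_filter.1 hz0
  have : z0 ∈ A := by
    refine Finset.mem_filter.2 ⟨hz0'.1, hcon.trans (Finset.card_le_card fun z hz => ?_)⟩
    exact Finset.mem_filter.2 ⟨(Finset.mem_filter.1 hz).1, hmin' z hz⟩
  have := hmax z0 this
  linarith [hz0'.2]

/-- the `k`-th largest value of `f` on `T` -/
noncomputable def qt (T : Finset V) (f : V → ℝ) (k : ℕ) : ℝ :=
  if h : 1 ≤ k ∧ k ≤ T.card then (exists_quantile T f k h.1 h.2).choose else 0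

theorem qt_spec {T : Finset V} (f : V → ℝ) {k : ℕ} (hk : 1 ≤ k) (hT : k ≤ T.card) :
    (∃ x ∈ T, f x = qt T f k) ∧ k ≤ (T.filter fun z => qt T f k ≤ f z).card ∧
      (T.filter fun z => qt T f k < f z).card < k := by
  unfold qt
  rw [dif_pos ⟨hk, hT⟩]
  exact (exists_quantile T f k hk hT).choose_spec

theorem integral_step {t Λ : ℝ} (hΛ : 0 ≤ Λ) (ht : t ≤ Λ) :
    ∫ x in (0 : ℝ)..Λ, (if x < t then (1 : ℝ) else 0) = max t 0 := by
  rw [intervalIntegral.integral_of_le hΛ]
  have : (fun x : ℝ => if x < t then (1 : ℝ) else 0) = (Set.Iio t).indicator fun _ => 1 := by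
    ext x
    simp [Set.indicator]
  rw [this, MeasureTheory.setIntegral_indicator measurableSet_Iio]
  have h2 : Set.Ioc 0 Λ ∩ Set.Iio t = Set.Ioo 0 t := by
    ext x
    simp only [Set.mem_inter_iff, Set.mem_Ioc, Set.mem_Iio, Set.mem_Ioo]
    constructor
    · rintro ⟨⟨h1, _⟩, h3⟩
      exact ⟨h1, h3⟩
    · rintro ⟨h1, h3⟩
      exact ⟨⟨h1, by linarith⟩, h3⟩
  rw [h2]
  simp [MeasureTheory.Measure.real, Real.volume_Ioo, ENNReal.toReal_ofReal']

theorem intInt_step (t Λ : ℝ) :
    IntervalIntegrable (fun x : ℝ => if x < t then (1 : ℝ) else 0) MeasureTheory.volume 0 Λ := by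
  apply Antitone.intervalIntegrable
  intro x y hxy
  dsimp only
  by_cases h : y < t
  · rw [if_pos h, if_pos (lt_of_le_of_lt hxy h)]
  · rw [if_neg h]
    split_ifs <;> norm_num

theorem sum_max_eq (U : Finset V) (t : V → ℝ) {Λ : ℝ} (hΛ : 0 ≤ Λ) (ht : ∀ v ∈ U, t v ≤ Λ) :
    ∑ v ∈ U, max (t v) 0 = ∫ x in (0 : ℝ)..Λ, ((U.filter fun v => x < t v).card : ℝ) := by
  have : (fun x : ℝ => ((U.filter fun v => x < t v).card : ℝ)) =
      fun x => ∑ v ∈ U, if x < t v then (1 : ℝ) else 0 := by
    ext x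
    rw [Finset.card_filter]
    push_cast
    rfl
  rw [this, intervalIntegral.integral_finsetSum fun v _ => intInt_step _ _]
  exact Finset.sum_congr rfl fun v hv => (integral_step hΛ (ht v hv)).symm

theorem intInt_card (U : Finset V) (t : V → ℝ) (Λ : ℝ) :
    IntervalIntegrable (fun x : ℝ => ((U.filter fun v => x < t v).card : ℝ))
      MeasureTheory.volume 0 Λ := by
  apply Antitone.intervalIntegrable
  intro x y hxy
  dsimp only
  exact_mod_cast Finset.card_le_card fun v hv => by
    rw [Finset.mem_filter] at *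
    exact ⟨hv.1, lt_of_le_of_lt hxy hv.2⟩

theorem dominance (U : Finset V) (s t : V → ℝ) {Λ E : ℝ} (hΛ : 0 ≤ Λ)
    (hs : ∀ v ∈ U, |s v| ≤ Λ) (ht : ∀ v ∈ U, |t v| ≤ Λ)
    (h : ∀ x : ℝ, 0 ≤ x → ((U.filter fun v => x < -t v).card : ℝ) +
      (U.filter fun v => x < -s v).card ≤
        (U.filter fun v => x < t v).card + (U.filter fun v => x < s v).card + E) :
    -(E * Λ) ≤ ∑ v ∈ U, (s v + t v) := by
  have e1 := sum_max_eq U t hΛ fun v hv => (abs_le.1 (ht v hv)).2
  have e2 := sum_max_eq U s hΛ fun v hv => (abs_le.1 (hs v hv)).2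
  have e3 := sum_max_eq U (fun v => -t v) hΛ fun v hv => by linarith [(abs_le.1 (ht v hv)).1]
  have e4 := sum_max_eq U (fun v => -s v) hΛ fun v hv => by linarith [(abs_le.1 (hs v hv)).1]
  have i1 := intInt_card U t Λ
  have i2 := intInt_card U s Λ
  have i3 := intInt_card U (fun v => -t v) Λ
  have i4 := intInt_card U (fun v => -s v) Λ
  have hm := intervalIntegral.integral_mono_on hΛ (i3.add i4)
    ((i1.add i2).add (intervalIntegrable_const (c := E))) fun x hx => h x hx.1
  rw [intervalIntegral.integral_add i3 i4,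
    intervalIntegral.integral_add (i1.add i2) intervalIntegrable_const,
    intervalIntegral.integral_add i1 i2, ← e1, ← e2, ← e3, ← e4] at hm
  simp only [intervalIntegral.integral_const, sub_zero, smul_eq_mul] at hm
  have e5 : ∑ v ∈ U, (s v + t v) = ∑ v ∈ U, max (t v) 0 + ∑ v ∈ U, max (s v) 0 -
      (∑ v ∈ U, max (-t v) 0 + ∑ v ∈ U, max (-s v) 0) := by
    rw [← Finset.sum_add_distrib, ← Finset.sum_add_distrib, ← Finset.sum_sub_distrib]
    refine Finset.sum_congr rfl fun v _ => ?_
    have h1 := max_zero_sub_max_neg_zero_eq_self (t v)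
    have h2 := max_zero_sub_max_neg_zero_eq_self (s v)
    linarith
  linarith

/-- out-degree in an oriented subgraph -/
noncomputable def outP (S : Sys V) (U : Finset V) (P : V → V → Prop) (v : V) : ℝ :=
  ((U.filter fun u => S.adj v u ∧ P v u).card : ℝ)

/-- number of edges at `v` that are not in-edges of an oriented subgraph -/
noncomputable def ninP (S : Sys V) (U : Finset V) (P : V → V → Prop) (v : V) : ℝ :=
  ((U.filter fun u => S.adj v u ∧ ¬ P u v).card : ℝ)

/-- the level inequality -/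
def Level (S : Sys V) (U : Finset V) (τ σ E : ℝ) : Prop :=
  ∀ P : V → V → Prop, (∀ u v, P u v → ¬ P v u) →
    ((U.filter fun v => ninP S U P v < τ).card : ℝ) + (U.filter fun v => ninP S U P v < σ).card ≤
      (U.filter fun v => τ ≤ outP S U P v).card + (U.filter fun v => σ ≤ outP S U P v).card + E

/-- robust cost to go -/
noncomputable def HH (S : Sys V) (U : Finset V) (y : V → ℝ) (k : ℕ) : ℕ → V → V → ℝ
  | 0, _, _ => 0
  | j + 1, u, v => y v - qt (U.filter (S.R u v)) (fun w => -HH S U y k j v w) k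

section
variable {S : Sys V} {U : Finset V} {y : V → ℝ} {k : ℕ} {M : ℝ}

theorem succ_card (hb : ∀ v u, S.bdeg v u U ≤ M) (hd : ∀ v ∈ U, M + k ≤ S.deg v U) {u v : V}
    (huv : S.adj u v) (hv : v ∈ U) : k ≤ (U.filter (S.R u v)).card := by
  have hsub : S.nb v U ⊆ U.filter (S.R u v) ∪ S.bd v u U := by
    intro x hx
    rw [mem_nb] at hx
    by_cases hbad : S.bad v u x
    · exact Finset.mem_union_right _ (mem_bd.2 ⟨hx.1, hbad⟩)
    · exact Finset.mem_union_left _ (Finset.mem_filter.2 ⟨hx.1, huv, hx.2, hbad⟩)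
  have h2 := (Finset.card_le_card hsub).trans (Finset.card_union_le _ _)
  have h3 : S.deg v U ≤ (U.filter (S.R u v)).card + S.bdeg v u U := by
    unfold deg bdeg
    exact_mod_cast h2
  have h4 := hb v u
  have h5 := hd v hv
  have : (k : ℝ) ≤ (U.filter (S.R u v)).card := by linarith
  exact_mod_cast this

theorem HH_abs (hk : 1 ≤ k) (hb : ∀ v u, S.bdeg v u U ≤ M) (hd : ∀ v ∈ U, M + k ≤ S.deg v U)
    (hy : ∀ v ∈ U, |y v| ≤ 1) : ∀ (j : ℕ) (u v : V), S.adj u v → v ∈ U →
      |HH S U y k j u v| ≤ j := by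
  intro j
  induction j with
  | zero => intro u v _ _; simp [HH]
  | succ j ih =>
    intro u v huv hv
    obtain ⟨⟨w, hw, hq⟩, -⟩ := qt_spec (fun w => -HH S U y k j v w) hk (succ_card hb hd huv hv)
    rw [Finset.mem_filter] at hw
    have h1 := ih v w hw.2.2.1 hw.1
    have h2 := hy v hv
    simp only [HH]
    rw [← hq]
    push_cast
    rw [abs_le] at *
    constructor <;> linarith [h1.1, h1.2, h2.1, h2.2]

theorem HH_bell (hk : 1 ≤ k) (hb : ∀ v u, S.bdeg v u U ≤ M) (hd : ∀ v ∈ U, M + k ≤ S.deg v U)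
    (j : ℕ) {u v : V} (huv : S.adj u v) (hv : v ∈ U) :
    ((U.filter (S.R u v)).filter fun w => y v + HH S U y k j v w < HH S U y k (j + 1) u v).card
      < k := by
  obtain ⟨-, -, h⟩ := qt_spec (fun w => -HH S U y k j v w) hk (succ_card hb hd huv hv)
  refine lt_of_le_of_lt (Finset.card_le_card fun w hw => ?_) h
  rw [Finset.mem_filter] at *
  refine ⟨hw.1, ?_⟩
  have := hw.2
  simp only [HH] at this
  linarith

theorem HH_path (hk : 1 ≤ k) (hb : ∀ v u, S.bdeg v u U ≤ M) (hd : ∀ v ∈ U, M + k ≤ S.deg v U) :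
    ∀ (j : ℕ) (u v : V) (Z : Finset V), S.adj u v → v ∈ U → Z.card + j ≤ k →
      ∃ (l : List V) (c d : V), l.length = j ∧ l.Nodup ∧ (∀ x ∈ l, x ∈ U ∧ x ∉ Z) ∧
        Wk S.R u v l c d ∧ y v + ls y l - y d ≤ HH S U y k j u v := by
  intro j
  induction j with
  | zero =>
    intro u v Z _ _ _
    exact ⟨[], u, v, rfl, by simp, by simp, ⟨rfl, rfl⟩, by simp [HH]⟩
  | succ j ih =>
    intro u v Z huv hv hZ
    obtain ⟨-, h, -⟩ := qt_spec (fun w => -HH S U y k j v w) hk (succ_card hb hd huv hv)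
    obtain ⟨w, hw, hwZ⟩ := Finset.exists_mem_notMem_of_card_lt_card (s := Z) (lt_of_lt_of_le
      (by omega) h)
    rw [Finset.mem_filter, Finset.mem_filter] at hw
    obtain ⟨l, c, d, h1, h2, h3, h4, h5⟩ := ih v w (insert w Z) hw.1.2.2.1 hw.1.1 (by
      have := Finset.card_insert_le w Z
      omega)
    refine ⟨w :: l, c, d, by simp [h1], ?_, ?_, ⟨hw.1.2, h4⟩, ?_⟩
    · rw [List.nodup_cons]
      exact ⟨fun hh => (h3 w hh).2 (Finset.mem_insert_self _ _), h2⟩
    · intro x hx
      rw [List.mem_cons] at hx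
      rcases hx with rfl | hx
      · exact ⟨hw.1.1, hwZ⟩
      · exact ⟨(h3 x hx).1, fun hh => (h3 x hx).2 (Finset.mem_insert_of_mem hh)⟩
    · have := hw.2
      simp only [HH, ls_cons]
      linarith

theorem exists_pair {T T' : Finset V} {v : V} {E : V → Finset V} {e : ℝ}
    (hb : ∀ u, S.bdeg v u T' ≤ M) (hE : ∀ u ∈ T, ((E u).card : ℝ) ≤ e)
    (hE' : ∀ u ∈ T', ((E u).card : ℝ) ≤ e)
    (h : T.card * (M + e) + T'.card * e < T.card * T'.card) :
    ∃ u ∈ T, ∃ w ∈ T', ¬ S.bad v u w ∧ w ∉ E u ∧ u ∉ E w := by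
  by_contra hcon
  push Not at hcon
  have h1 : ∑ u ∈ T, ∑ w ∈ T', (1 : ℝ) ≤ ∑ u ∈ T, ∑ w ∈ T',
      ((if S.bad v u w then (1 : ℝ) else 0) + (if w ∈ E u then (1 : ℝ) else 0) +
        (if u ∈ E w then (1 : ℝ) else 0)) := by
    refine Finset.sum_le_sum fun u hu => Finset.sum_le_sum fun w hw => ?_
    have := hcon u hu w hw
    by_cases h1 : S.bad v u w <;> by_cases h2 : w ∈ E u <;> by_cases h3 : u ∈ E w <;>
      simp_all
  simp only [Finset.sum_add_distrib] at h1
  have hc : ∀ (A B : Finset V), ∑ w ∈ A, (if w ∈ B then (1 : ℝ) else 0) ≤ B.card := by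
    intro A B
    rw [Finset.sum_ite_mem]
    simp only [Finset.sum_const, nsmul_eq_mul, mul_one]
    exact_mod_cast Finset.card_le_card Finset.inter_subset_right
  have h2 : ∑ u ∈ T, ∑ w ∈ T', (if S.bad v u w then (1 : ℝ) else 0) ≤ T.card * M := by
    have := Finset.sum_le_card_nsmul T (fun u => ∑ w ∈ T', (if S.bad v u w then (1 : ℝ) else 0))
      M fun u _ => by rw [← bdeg_eq_sum]; exact hb u
    simpa using this
  have h3 : ∑ u ∈ T, ∑ w ∈ T', (if w ∈ E u then (1 : ℝ) else 0) ≤ T.card * e := by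
    have := Finset.sum_le_card_nsmul T (fun u => ∑ w ∈ T', (if w ∈ E u then (1 : ℝ) else 0))
      e fun u hu => (hc _ _).trans (hE u hu)
    simpa using this
  have h4 : ∑ u ∈ T, ∑ w ∈ T', (if u ∈ E w then (1 : ℝ) else 0) ≤ T'.card * e := by
    rw [Finset.sum_comm]
    have := Finset.sum_le_card_nsmul T' (fun w => ∑ u ∈ T, (if u ∈ E w then (1 : ℝ) else 0))
      e fun u hu => (hc _ _).trans (hE' u hu)
    simpa using this
  simp only [Finset.sum_const, nsmul_eq_mul, mul_one] at h1
  linarith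

end

/-- The conclusion of the key lemma. -/
def KeyP (S : Sys V) (U : Finset V) (L : ℕ) (ε : ℝ) : Prop :=
  ∀ y : V → ℝ, (∀ v ∈ U, |y v| ≤ 1) → ∑ v ∈ U, y v ≤ 0 →
    ∃ (u v : V) (l : List V) (c d : V), S.adj u v ∧ l.length = L ∧ (u :: v :: l).Nodup ∧
      (∀ x ∈ u :: v :: l, x ∈ U) ∧ Wk S.R u v l c d ∧ ls y (u :: v :: l) ≤ ε * (L + 2)

theorem key {S : Sys V} {U : Finset V} {L τ σ : ℕ} {M E ε : ℝ} (hε : 0 < ε)
    (hL : 4 ≤ ε * L) (hb : ∀ v u, S.bdeg v u U ≤ M)
    (hd : ∀ v ∈ U, M + (L + 2 : ℕ) ≤ S.deg v U) (hσ : ∀ v ∈ U, σ ≤ S.deg v U)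
    (hτ1 : 1 ≤ τ) (hτσ : τ ≤ σ)
    (hpair : τ * (M + L * (L + 1)) + σ * (L * (L + 1)) < (τ : ℝ) * σ)
    (hlev : Level S U τ σ E) (hE : E * L < ε / 2 * U.card) : KeyP S U L ε := by
  intro y hy hy0
  by_contra hcon
  push Not at hcon
  have hk : 1 ≤ L + 2 := by omega
  have hLpos : (0 : ℝ) < L := by
    by_contra h
    push Not at h
    nlinarith
  set H := HH S U y (L + 2) with hH
  have hHL : ∀ u v, S.adj u v → u ∈ U → v ∈ U → ε / 2 * L ≤ H L u v := by
    intro u v huv hu hv
    obtain ⟨l, c, d, h1, h2, h3, h4, h5⟩ := HH_path (y := y) hk hb hd L u v {u, v} huv hv (by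
      have := Finset.card_le_two (a := u) (b := v)
      omega)
    have hne : u ≠ v := by
      rintro rfl
      exact S.adj_irrefl huv
    have hmem : ∀ x ∈ u :: v :: l, x ∈ U := by
      intro x hx
      simp only [List.mem_cons] at hx
      rcases hx with rfl | rfl | hx
      · exact hu
      · exact hv
      · exact (h3 x hx).1
    have h6 := hcon u v l c d huv h1 (by
      simp only [List.nodup_cons, List.mem_cons, not_or]
      refine ⟨⟨hne, fun hh => (h3 u hh).2 (by simp)⟩, fun hh => (h3 v hh).2 (by simp), h2⟩)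
      hmem h4
    have h7 := (abs_le.1 (hy u hu)).2
    have h8 := (abs_le.1 (hy d (hmem d (List.mem_cons_of_mem _ h4.end_mem)))).2
    simp only [ls_cons] at h6
    nlinarith
  set Hs : V → V → ℝ := fun u v => ∑ j ∈ Finset.range L, H (j + 1) u v with hHs
  set Ex : V → V → Finset V := fun v u => (Finset.range L).biUnion fun j =>
    (U.filter (S.R u v)).filter fun w => y v + H j v w < H (j + 1) u v with hEx
  have hExc : ∀ u v, S.adj u v → v ∈ U → ((Ex v u).card : ℝ) ≤ L * (L + 1) := by
    intro u v huv hv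
    have h1 : (Ex v u).card ≤ (Finset.range L).card * (L + 1) :=
      Finset.card_biUnion_le_card_mul _ _ _ fun j _ => by
        have := HH_bell (y := y) hk hb hd j huv hv
        rw [← hH] at this
        omega
    rw [Finset.card_range] at h1
    exact_mod_cast h1
  have hbell : ∀ u v w, v ∈ U → w ∈ U → S.R u v w → w ∉ Ex v u →
      Hs u v ≤ L * y v + Hs v w - ε / 2 * L := by
    intro u v w hv hw hR hex
    have h1 : ∀ j ∈ Finset.range L, H (j + 1) u v ≤ y v + H j v w := by
      intro j hj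
      by_contra hh
      push Not at hh
      exact hex (Finset.mem_biUnion.2 ⟨j, hj, Finset.mem_filter.2
        ⟨Finset.mem_filter.2 ⟨hw, hR⟩, hh⟩⟩)
    have h2 := Finset.sum_le_sum h1
    rw [Finset.sum_add_distrib] at h2
    simp only [Finset.sum_const, Finset.card_range, nsmul_eq_mul] at h2
    have h3 := Finset.sum_range_succ (fun j => H j v w) L
    rw [Finset.sum_range_succ'] at h3
    have h4 : H 0 v w = 0 := rfl
    have h5 := hHL v w hR.2.1 hv hw
    simp only [hHs]
    linarith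
  have hHsabs : ∀ u v, S.adj u v → v ∈ U → |Hs u v| ≤ L * L := by
    intro u v huv hv
    refine (Finset.abs_sum_le_sum_abs _ _).trans ?_
    have := Finset.sum_le_card_nsmul (Finset.range L) (fun j => |H (j + 1) u v|) L fun j hj => by
      have h1 := HH_abs hk hb hd hy (j + 1) u v huv hv
      have h2 : ((j + 1 : ℕ) : ℝ) ≤ L := by exact_mod_cast Finset.mem_range.1 hj
      exact h1.trans h2
    simpa using this
  set W : V → V → ℝ := fun v u => (Hs u v - Hs v u) / (2 * L) with hW
  have hWanti : ∀ u v, W u v = -W v u := by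
    intro u v
    simp only [hW]
    ring
  have hWabs : ∀ v ∈ U, ∀ u ∈ S.nb v U, |W v u| ≤ L := by
    intro v hv u hu
    rw [mem_nb] at hu
    have h1 := abs_le.1 (hHsabs u v (S.adj_symm hu.2) hv)
    have h2 := abs_le.1 (hHsabs v u hu.2 hu.1)
    simp only [hW]
    rw [abs_div, abs_of_pos (by positivity : (0 : ℝ) < 2 * L), div_le_iff₀ (by positivity), abs_le]
    constructor <;> nlinarith [h1.1, h1.2, h2.1, h2.2]
  have hσ' : ∀ v ∈ U, σ ≤ (S.nb v U).card := fun v hv => by
    have := hσ v hv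
    unfold deg at this
    exact_mod_cast this
  set t : V → ℝ := fun v => qt (S.nb v U) (W v) τ with ht
  set s : V → ℝ := fun v => qt (S.nb v U) (W v) σ with hs
  have htspec := fun v (hv : v ∈ U) => qt_spec (W v) hτ1 (hτσ.trans (hσ' v hv))
  have hsspec := fun v (hv : v ∈ U) => qt_spec (W v) (hτ1.trans hτσ) (hσ' v hv)
  have hst : ∀ v ∈ U, s v + t v ≤ y v - ε / 2 := by
    intro v hv
    obtain ⟨T, hT, hTc⟩ := Finset.exists_subset_card_eq (htspec v hv).2.1
    obtain ⟨T', hT', hTc'⟩ := Finset.exists_subset_card_eq (hsspec v hv).2.1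
    have hTm : ∀ u ∈ T, (u ∈ U ∧ S.adj v u) ∧ t v ≤ W v u := fun u hu => by
      have := hT hu
      rwa [Finset.mem_filter, mem_nb] at this
    have hTm' : ∀ u ∈ T', (u ∈ U ∧ S.adj v u) ∧ s v ≤ W v u := fun u hu => by
      have := hT' hu
      rwa [Finset.mem_filter, mem_nb] at this
    obtain ⟨u, hu, w, hw, h1, h2, h3⟩ := exists_pair (S := S) (T := T) (T' := T') (v := v)
      (E := Ex v) (e := L * (L + 1)) (M := M)
      (fun u => (bdeg_mono v u fun x hx => (hTm' x hx).1.1).trans (hb v u))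
      (fun u hu => hExc u v (S.adj_symm (hTm u hu).1.2) hv)
      (fun u hu => hExc u v (S.adj_symm (hTm' u hu).1.2) hv) (by rw [hTc, hTc']; exact hpair)
    have hR : S.R u v w := ⟨S.adj_symm (hTm u hu).1.2, (hTm' w hw).1.2, h1⟩
    have h4 := hbell u v w hv (hTm' w hw).1.1 hR h2
    have h5 := hbell w v u hv (hTm u hu).1.1 (S.R_symm _ _ _ hR) h3
    have h6 : W v u + W v w ≤ y v - ε / 2 := by
      simp only [hW]
      rw [← add_div, div_le_iff₀ (by positivity)]
      linarith
    linarith [(hTm u hu).2, (hTm' w hw).2]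
  have hdom := dominance U s t (Λ := L) (E := E) hLpos.le
    (fun v hv => by
      obtain ⟨x, hx, hq⟩ := (hsspec v hv).1
      simp only [hs]
      rw [← hq]
      exact hWabs v hv x hx)
    (fun v hv => by
      obtain ⟨x, hx, hq⟩ := (htspec v hv).1
      simp only [ht]
      rw [← hq]
      exact hWabs v hv x hx) (by
      intro x hx
      have hl := hlev (fun v u => x < W v u) (fun u v h1 h2 => by
        have := hWanti u v
        linarith)
      have gen1 : ∀ (κ : ℕ) (r : V → ℝ), (∀ v ∈ U, ((S.nb v U).filter fun z => r v < W v z).card < κ) →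
          ((U.filter fun v => x < -r v).card : ℝ) ≤
            (U.filter fun v => ninP S U (fun v u => x < W v u) v < κ).card := by
        intro κ r hr
        exact_mod_cast Finset.card_le_card fun v hv => by
          rw [Finset.mem_filter] at *
          refine ⟨hv.1, ?_⟩
          unfold ninP
          have h1 := hr v hv.1
          have h2 : (U.filter fun u => S.adj v u ∧ ¬ x < W u v).card ≤
              ((S.nb v U).filter fun z => r v < W v z).card := by
            refine Finset.card_le_card fun u hu => ?_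
            rw [Finset.mem_filter] at hu
            rw [Finset.mem_filter, mem_nb]
            refine ⟨⟨hu.1, hu.2.1⟩, ?_⟩
            have := hWanti u v
            linarith [hv.2, not_lt.1 hu.2.2]
          exact_mod_cast lt_of_le_of_lt h2 h1
      have gen2 : ∀ (κ : ℕ) (r : V → ℝ), (∀ v ∈ U, ((S.nb v U).filter fun z => r v < W v z).card < κ) →
          ((U.filter fun v => κ ≤ outP S U (fun v u => x < W v u) v).card : ℝ) ≤
            (U.filter fun v => x < r v).card := by
        intro κ r hr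
        exact_mod_cast Finset.card_le_card fun v hv => by
          rw [Finset.mem_filter] at *
          refine ⟨hv.1, ?_⟩
          by_contra hh
          push Not at hh
          have h1 := hr v hv.1
          have h2 : (U.filter fun u => S.adj v u ∧ x < W v u).card ≤
              ((S.nb v U).filter fun z => r v < W v z).card := by
            refine Finset.card_le_card fun u hu => ?_
            rw [Finset.mem_filter] at hu
            rw [Finset.mem_filter, mem_nb]
            exact ⟨⟨hu.1, hu.2.1⟩, lt_of_le_of_lt hh hu.2.2⟩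
          have h3 := hv.2
          unfold outP at h3
          have h4 : κ ≤ (U.filter fun u => S.adj v u ∧ x < W v u).card := by exact_mod_cast h3
          omega
      have a1 := gen1 τ t fun v hv => (htspec v hv).2.2
      have a2 := gen1 σ s fun v hv => (hsspec v hv).2.2
      have a3 := gen2 τ t fun v hv => (htspec v hv).2.2
      have a4 := gen2 σ s fun v hv => (hsspec v hv).2.2
      linarith)
  have h1 := Finset.sum_le_sum hst
  rw [Finset.sum_sub_distrib] at h1
  simp only [Finset.sum_const, nsmul_eq_mul] at h1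
  linarith

end Pool.Agent.Lib.MP_ac307a_co
end

-- part Pool.Agent.Lib.MP_ac307a_co.Connect
section

/-! The connecting lemma. -/

namespace Pool.Agent.Lib.MP_ac307a_co

open Classical Sys

variable {V : Type}

/-- robust reachability -/
def Reach (S : Sys V) (U : Finset V) (a b : V) (B j : ℕ) (x y : V) : Prop :=
  S.adj x y ∧ x ∈ U ∧ y ∈ U ∧ ∀ Z : Finset V, Z.card + j ≤ B →
    ∃ l : List V, l.Nodup ∧ (∀ z ∈ l, z ∈ U ∧ z ∉ Z ∧ z ≠ x ∧ z ≠ y) ∧ l.length ≤ j ∧
      Lk S.R a b l x y

section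
variable {S : Sys V} {U : Finset V} {a b : V} {B : ℕ}

theorem reach_mono {j : ℕ} {x y : V} (h : Reach S U a b B j x y) : Reach S U a b B (j + 1) x y := by
  obtain ⟨h1, h2, h3, h4⟩ := h
  refine ⟨h1, h2, h3, fun Z hZ => ?_⟩
  obtain ⟨l, hl1, hl2, hl3, hl4⟩ := h4 Z (by omega)
  exact ⟨l, hl1, hl2, by omega, hl4⟩

theorem reach_base {x y : V} (h1 : S.R a b x) (h2 : S.R b x y) (hx : x ∈ U) (hy : y ∈ U) :
    Reach S U a b B 0 x y :=
  ⟨h2.2.1, hx, hy, fun _ _ => ⟨[], by simp, by simp, by simp, lk_nil.2 ⟨h1, h2⟩⟩⟩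

theorem reach_step {j : ℕ} {x y : V} (hxy : S.adj x y) (hx : x ∈ U) (hy : y ∈ U)
    (h : B + 1 ≤ (U.filter fun u => Reach S U a b B j u x ∧ ¬ S.bad x u y).card) :
    Reach S U a b B (j + 1) x y := by
  refine ⟨hxy, hx, hy, fun Z hZ => ?_⟩
  have hc : (insert y Z).card < (U.filter fun u => Reach S U a b B j u x ∧ ¬ S.bad x u y).card := by
    have := Finset.card_insert_le y Z
    omega
  obtain ⟨u, hu, huZ⟩ := Finset.exists_mem_notMem_of_card_lt_card hc
  rw [Finset.mem_filter] at hu
  obtain ⟨huU, ⟨hux, -, -, hr⟩, hb⟩ := hu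
  obtain ⟨l, hl1, hl2, hl3, hl4⟩ := hr (insert y Z) (by have := Finset.card_insert_le y Z; omega)
  rw [Finset.mem_insert, not_or] at huZ
  refine ⟨l ++ [u], ?_, ?_, by simp; omega, hl4.snoc ⟨hux, hxy, hb⟩⟩
  · rw [List.nodup_append]
    refine ⟨hl1, by simp, ?_⟩
    intro z hz w hw
    rw [List.mem_singleton] at hw
    subst hw
    exact (hl2 z hz).2.2.1
  · intro z hz
    rw [List.mem_append, List.mem_singleton] at hz
    rcases hz with hz | rfl
    · obtain ⟨h1, h2, h3, h4⟩ := hl2 z hz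
      rw [Finset.mem_insert, not_or] at h2
      exact ⟨h1, h2.2, h4, h2.1⟩
    · refine ⟨huU, huZ.2, ?_, huZ.1⟩
      rintro rfl
      exact S.adj_irrefl hux

end

/-- number of reached edges into `v` -/
noncomputable def inR (S : Sys V) (U : Finset V) (a b : V) (B j : ℕ) (v : V) : ℝ :=
  ((U.filter fun u => Reach S U a b B j u v).card : ℝ)

/-- number of reached edges out of `v` -/
noncomputable def outR (S : Sys V) (U : Finset V) (a b : V) (B j : ℕ) (v : V) : ℝ :=
  ((U.filter fun w => Reach S U a b B j v w).card : ℝ)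

section
variable {S : Sys V} {U : Finset V} {a b : V} {B : ℕ}

theorem sum_inR_eq (j : ℕ) : ∑ v ∈ U, inR S U a b B j v = ∑ v ∈ U, outR S U a b B j v := by
  unfold inR outR
  simp only [Finset.card_filter]
  push_cast
  rw [Finset.sum_comm]

theorem inR_le (j : ℕ) (v : V) : inR S U a b B j v ≤ U.card := by
  unfold inR
  exact_mod_cast Finset.card_filter_le _ _

theorem inR_nonneg (j : ℕ) (v : V) : 0 ≤ inR S U a b B j v := Nat.cast_nonneg _

theorem outR_nonneg (j : ℕ) (v : V) : 0 ≤ outR S U a b B j v := Nat.cast_nonneg _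

theorem inR_mono (j : ℕ) (v : V) : inR S U a b B j v ≤ inR S U a b B (j + 1) v := by
  unfold inR
  exact_mod_cast Finset.card_le_card fun u hu => by
    rw [Finset.mem_filter] at *
    exact ⟨hu.1, reach_mono hu.2⟩

theorem inR_le_deg (j : ℕ) (v : V) : inR S U a b B j v ≤ S.deg v U := by
  unfold inR deg
  exact_mod_cast Finset.card_le_card fun u hu => by
    rw [Finset.mem_filter] at hu
    exact mem_nb.2 ⟨hu.1, S.adj_symm hu.2.1⟩

theorem high_reach {M : ℝ} (hb : ∀ v u, S.bdeg v u U ≤ M) {j : ℕ} {v w : V} (hv : v ∈ U)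
    (hw : w ∈ U) (hvw : S.adj v w) (h : M + B + 1 ≤ inR S U a b B j v) :
    Reach S U a b B (j + 1) v w := by
  refine reach_step hvw hv hw ?_
  have hsub : (U.filter fun u => Reach S U a b B j u v) ⊆
      (U.filter fun u => Reach S U a b B j u v ∧ ¬ S.bad v u w) ∪ S.bd v w U := by
    intro u hu
    rw [Finset.mem_filter] at hu
    by_cases hbad : S.bad v u w
    · exact Finset.mem_union_right _ (mem_bd.2 ⟨hu.1, S.bad_symm hbad⟩)
    · exact Finset.mem_union_left _ (Finset.mem_filter.2 ⟨hu.1, hu.2, hbad⟩)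
  have h1 := (Finset.card_le_card hsub).trans (Finset.card_union_le _ _)
  have h2 := hb v w
  unfold inR at h
  unfold bdeg at h2
  have h3 : (((U.filter fun u => Reach S U a b B j u v).card : ℕ) : ℝ) ≤
      ((U.filter fun u => Reach S U a b B j u v ∧ ¬ S.bad v u w).card : ℝ) +
        ((S.bd v w U).card : ℝ) := by exact_mod_cast h1
  have h4 : ((B + 1 : ℕ) : ℝ) ≤
      ((U.filter fun u => Reach S U a b B j u v ∧ ¬ S.bad v u w).card : ℝ) := by
    push_cast
    linarith
  exact_mod_cast h4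

theorem high_out {M : ℝ} (hb : ∀ v u, S.bdeg v u U ≤ M) {j : ℕ} {v : V} (hv : v ∈ U)
    (h : M + B + 1 ≤ inR S U a b B j v) : S.deg v U ≤ outR S U a b B (j + 1) v := by
  unfold outR deg
  exact_mod_cast Finset.card_le_card fun w hw => by
    rw [mem_nb] at hw
    exact Finset.mem_filter.2 ⟨hw.1, high_reach hb hv hw.1 hw.2 h⟩

theorem mid_out {M t : ℝ} (hb : ∀ v u, S.bdeg v u U ≤ M) {j : ℕ} {v : V} (hv : v ∈ U)
    (ht : 0 < t) (h : t ≤ inR S U a b B j v) :
    S.deg v U - M - B * U.card / t ≤ outR S U a b B (j + 1) v := by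
  set I := U.filter fun u => Reach S U a b B j u v with hI
  set W := U.filter fun w => S.adj v w ∧ ¬ Reach S U a b B (j + 1) v w with hW
  have hi : inR S U a b B j v = I.card := rfl
  have h1 : S.deg v U ≤ outR S U a b B (j + 1) v + W.card := by
    unfold outR deg
    have hsub : S.nb v U ⊆ (U.filter fun w => Reach S U a b B (j + 1) v w) ∪ W := by
      intro w hw
      rw [mem_nb] at hw
      by_cases hr : Reach S U a b B (j + 1) v w
      · exact Finset.mem_union_left _ (Finset.mem_filter.2 ⟨hw.1, hr⟩)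
      · exact Finset.mem_union_right _ (Finset.mem_filter.2 ⟨hw.1, hw.2, hr⟩)
    exact_mod_cast (Finset.card_le_card hsub).trans (Finset.card_union_le _ _)
  have h2 : ∀ w ∈ W, (I.card : ℝ) - B ≤ ∑ u ∈ I, if S.bad v u w then (1 : ℝ) else 0 := by
    intro w hw
    rw [hW, Finset.mem_filter] at hw
    have hlt : ¬ (B + 1 ≤ (U.filter fun u => Reach S U a b B j u v ∧ ¬ S.bad v u w).card) :=
      fun hh => hw.2.2 (reach_step hw.2.1 hv hw.1 hh)
    have hsub : I ⊆ (U.filter fun u => Reach S U a b B j u v ∧ ¬ S.bad v u w) ∪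
        I.filter fun u => S.bad v u w := by
      intro u hu
      have hu' := hu
      rw [hI, Finset.mem_filter] at hu
      by_cases hbad : S.bad v u w
      · exact Finset.mem_union_right _ (Finset.mem_filter.2 ⟨hu', hbad⟩)
      · exact Finset.mem_union_left _ (Finset.mem_filter.2 ⟨hu.1, hu.2, hbad⟩)
    have h3 := (Finset.card_le_card hsub).trans (Finset.card_union_le _ _)
    have h4 : I.card ≤ B + (I.filter fun u => S.bad v u w).card := by omega
    have h5 : (I.card : ℝ) ≤ B + S.bdeg v w I := by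
      have : S.bd v w I = I.filter fun u => S.bad v u w := by
        ext u
        simp only [mem_bd, Finset.mem_filter]
        exact and_congr_right fun _ => ⟨S.bad_symm, S.bad_symm⟩
      unfold bdeg
      rw [this]
      exact_mod_cast h4
    have h6 : S.bdeg v w I = ∑ u ∈ I, if S.bad v u w then (1 : ℝ) else 0 := by
      rw [bdeg_eq_sum]
      refine Finset.sum_congr rfl fun u _ => ?_
      by_cases hh : S.bad v u w
      · simp [hh, S.bad_symm hh]
      · have : ¬ S.bad v w u := fun h' => hh (S.bad_symm h')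
        simp [hh, this]
    linarith
  have h3 : (W.card : ℝ) * (I.card - B) ≤ I.card * M := by
    calc (W.card : ℝ) * (I.card - B) ≤ ∑ w ∈ W, ∑ u ∈ I, if S.bad v u w then (1 : ℝ) else 0 := by
          have := Finset.card_nsmul_le_sum W _ _ h2
          simpa using this
      _ = ∑ u ∈ I, ∑ w ∈ W, if S.bad v u w then (1 : ℝ) else 0 := Finset.sum_comm
      _ ≤ ∑ u ∈ I, M := by
          refine Finset.sum_le_sum fun u _ => ?_
          rw [← bdeg_eq_sum]
          exact (bdeg_mono v u (Finset.filter_subset _ _)).trans (hb v u)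
      _ = I.card * M := by simp
  have hWU : (W.card : ℝ) ≤ U.card := by exact_mod_cast Finset.card_filter_le _ _
  have hIpos : (0 : ℝ) < I.card := by rw [← hi]; linarith
  have h4 : (W.card : ℝ) ≤ M + B * U.card / t := by
    have h5 : (W.card : ℝ) * I.card ≤ I.card * M + B * U.card := by
      have : (B : ℝ) * W.card ≤ B * U.card := by gcongr
      nlinarith
    have h6 : (B : ℝ) * U.card / I.card ≤ B * U.card / t := by
      apply div_le_div_of_nonneg_left (by positivity) ht
      rw [← hi]; exact h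
    have h7 : (W.card : ℝ) ≤ M + B * U.card / I.card := by
      rw [← sub_le_iff_le_add', le_div_iff₀ hIpos]
      nlinarith
    linarith
  linarith

theorem size_zero {γ μ : ℝ} (hγ : 0 < γ) (hμ : 0 ≤ μ)
    (hb : ∀ v u, S.bdeg v u U ≤ μ * U.card)
    (hd : ∀ v ∈ U, (2 * μ + γ) * U.card ≤ S.deg v U) (hab : S.adj a b)
    (hbd : (μ + γ) * U.card ≤ S.deg b U) :
    γ ^ 2 * (U.card : ℝ) ^ 2 ≤ ∑ v ∈ U, outR S U a b B 0 v := by
  set X := U.filter fun x => S.R a b x with hX
  have h1 : γ * U.card ≤ X.card := by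
    have hsub : S.nb b U ⊆ X ∪ S.bd b a U := by
      intro x hx
      rw [mem_nb] at hx
      by_cases hbad : S.bad b a x
      · exact Finset.mem_union_right _ (mem_bd.2 ⟨hx.1, hbad⟩)
      · exact Finset.mem_union_left _ (Finset.mem_filter.2 ⟨hx.1, hab, hx.2, hbad⟩)
    have h2 := (Finset.card_le_card hsub).trans (Finset.card_union_le _ _)
    have h3 : S.deg b U ≤ X.card + S.bdeg b a U := by
      unfold deg bdeg
      exact_mod_cast h2
    have := hb b a
    linarith
  have h2 : ∀ x ∈ X, γ * U.card ≤ outR S U a b B 0 x := by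
    intro x hx
    rw [hX, Finset.mem_filter] at hx
    have hsub : S.nb x U ⊆ (U.filter fun w => Reach S U a b B 0 x w) ∪ S.bd x b U := by
      intro y hy
      rw [mem_nb] at hy
      by_cases hbad : S.bad x b y
      · exact Finset.mem_union_right _ (mem_bd.2 ⟨hy.1, hbad⟩)
      · exact Finset.mem_union_left _ (Finset.mem_filter.2 ⟨hy.1,
          reach_base hx.2 ⟨hx.2.2.1, hy.2, hbad⟩ hx.1 hy.1⟩)
    have h2 := (Finset.card_le_card hsub).trans (Finset.card_union_le _ _)
    have h3 : S.deg x U ≤ outR S U a b B 0 x + S.bdeg x b U := by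
      unfold deg bdeg outR
      exact_mod_cast h2
    have h4 := hb x b
    have h5 := hd x hx.1
    have h6 : 0 ≤ μ * U.card := by positivity
    linarith
  calc γ ^ 2 * (U.card : ℝ) ^ 2 = (γ * U.card) * (γ * U.card) := by ring
    _ ≤ X.card * (γ * U.card) := by gcongr
    _ ≤ ∑ v ∈ X, outR S U a b B 0 v := by
        have := Finset.card_nsmul_le_sum X _ _ h2
        simpa using this
    _ ≤ ∑ v ∈ U, outR S U a b B 0 v :=
        Finset.sum_le_sum_of_subset_of_nonneg (Finset.filter_subset _ _) fun v _ _ =>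
          outR_nonneg _ _

theorem exists_stall {ω : ℝ} {J : ℕ} (hJ : 1 < J * ω) (hU : 0 < U.card) :
    ∃ j < J, ∑ v ∈ U, inR S U a b B (j + 1) v <
      ∑ v ∈ U, inR S U a b B j v + ω * (U.card : ℝ) ^ 2 := by
  by_contra hcon
  push Not at hcon
  have h1 : ∀ j ≤ J, j * (ω * (U.card : ℝ) ^ 2) ≤ ∑ v ∈ U, inR S U a b B j v := by
    intro j
    induction j with
    | zero => intro _; simpa using Finset.sum_nonneg fun v _ => inR_nonneg _ _
    | succ j ih =>
      intro hj
      have h2 := ih (by omega)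
      have h3 := hcon j (by omega)
      push_cast
      linarith
  have h2 : ∑ v ∈ U, inR S U a b B J v ≤ (U.card : ℝ) ^ 2 := by
    have := Finset.sum_le_card_nsmul U (fun v => inR S U a b B J v) U.card fun v _ => inR_le _ _
    simpa [sq] using this
  have h3 := h1 J le_rfl
  have h4 : (0 : ℝ) < (U.card : ℝ) ^ 2 := by positivity
  nlinarith

theorem size_mono (j : ℕ) : ∑ v ∈ U, inR S U a b B 0 v ≤ ∑ v ∈ U, inR S U a b B j v := by
  induction j with
  | zero => exact le_rfl
  | succ j ih => exact ih.trans (Finset.sum_le_sum fun v _ => inR_mono _ _)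

theorem grow {γ μ ω θ' : ℝ} {J : ℕ} (hγ : 0 < γ) (hγ1 : γ ≤ 1) (hμ : 0 ≤ μ) (hω : 0 < ω)
    (hω1 : 6 * ω ≤ γ * θ') (hω2 : 20 * ω ≤ γ ^ 3) (hJ : 1 < J * ω)
    (hm : B / ω + B + 1 ≤ γ / 2 * U.card)
    (hb : ∀ v u, S.bdeg v u U ≤ μ * U.card)
    (hd : ∀ v ∈ U, (2 * μ + γ) * U.card ≤ S.deg v U)
    (hcut : ∀ X ⊆ U, γ ^ 2 / 2 * U.card ≤ X.card → γ ^ 2 / 2 * U.card ≤ (U \ X).card →
      θ' * (U.card : ℝ) ^ 2 ≤ S.ec X (U \ X))
    (hab : S.adj a b) (hbd : (μ + γ) * U.card ≤ S.deg b U) :
    ∃ j < J, ∃ H ⊆ U, ((U \ H).card : ℝ) < γ ^ 2 / 2 * U.card ∧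
      ∀ v ∈ H, ∀ w ∈ U, S.adj v w → Reach S U a b B (j + 1) v w := by
  have hmpos : (0 : ℝ) < U.card := by
    have : (0 : ℝ) ≤ B / ω := by positivity
    have h2 : (0 : ℝ) < γ / 2 * U.card := by linarith [(Nat.cast_nonneg B : (0 : ℝ) ≤ B)]
    by_contra h
    push Not at h
    nlinarith
  have hU : 0 < U.card := by exact_mod_cast hmpos
  obtain ⟨j, hj, hst⟩ := exists_stall (S := S) (a := a) (b := b) (B := B) hJ hU
  have h0 := size_zero (B := B) hγ hμ hb hd hab hbd
  obtain ⟨m, hmdef⟩ : ∃ m : ℝ, m = U.card := ⟨_, rfl⟩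
  rw [← hmdef] at hm hb hd hcut hbd hmpos hst ⊢
  set H := U.filter fun v => μ * m + B + 1 ≤ inR S U a b B j v with hH
  set Lo := U.filter fun v => ¬ (μ * m + B + 1 ≤ inR S U a b B j v) ∧ inR S U a b B j v < ω * m
    with hLo
  set Mi := U.filter fun v => ¬ (μ * m + B + 1 ≤ inR S U a b B j v) ∧ ¬ inR S U a b B j v < ω * m
    with hMi
  refine ⟨j, hj, H, Finset.filter_subset _ _, ?_, ?_⟩
  swap
  · intro v hv w hw hvw
    rw [hH, Finset.mem_filter] at hv
    exact high_reach hb hv.1 hw hvw hv.2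
  have hUH : U \ H = Lo ∪ Mi := by
    ext v
    simp only [hH, hLo, hMi, Finset.mem_sdiff, Finset.mem_filter, Finset.mem_union]
    tauto
  have hdisj : Disjoint Lo Mi := by
    rw [Finset.disjoint_left]
    intro v h1 h2
    rw [hLo, Finset.mem_filter] at h1
    rw [hMi, Finset.mem_filter] at h2
    exact h2.2.2 h1.2.2
  -- pointwise bound for the growth
  have hpt : ∀ v ∈ U, (if v ∈ Mi then γ / 2 * m else 0) - ω * m ≤
      outR S U a b B (j + 1) v - inR S U a b B j v := by
    intro v hv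
    have hωm : 0 ≤ ω * m := by positivity
    by_cases h1 : μ * m + B + 1 ≤ inR S U a b B j v
    · have h2 : v ∉ Mi := by
        rw [hMi, Finset.mem_filter]
        tauto
      have h3 := high_out hb hv h1
      have h4 := inR_le_deg (S := S) (U := U) (a := a) (b := b) (B := B) j v
      rw [if_neg h2]
      linarith
    · by_cases h5 : inR S U a b B j v < ω * m
      · have h2 : v ∉ Mi := by
          rw [hMi, Finset.mem_filter]
          tauto
        rw [if_neg h2]
        have := outR_nonneg (S := S) (U := U) (a := a) (b := b) (B := B) (j + 1) v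
        linarith
      · have h2 : v ∈ Mi := by
          rw [hMi, Finset.mem_filter]
          tauto
        rw [if_pos h2]
        have h3 := mid_out hb hv (mul_pos hω hmpos) (not_lt.1 h5)
        have h4 : (B : ℝ) * m / (ω * m) = B / ω := by field_simp
        rw [← hmdef, h4] at h3
        have h6 := hd v hv
        push Not at h1
        linarith
  have hsum := Finset.sum_le_sum hpt
  rw [Finset.sum_sub_distrib, Finset.sum_sub_distrib, ← sum_inR_eq, Finset.sum_ite_mem,
    Finset.inter_eq_right.2 (Finset.filter_subset _ _)] at hsum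
  simp only [Finset.sum_const, nsmul_eq_mul] at hsum
  rw [← hmdef] at hsum
  have hMi' : (Mi.card : ℝ) * γ < 4 * ω * m := by
    have : (Mi.card : ℝ) * (γ / 2 * m) < 2 * ω * m ^ 2 := by nlinarith
    nlinarith
  have hLosum : ∑ v ∈ Lo, inR S U a b B j v ≤ ω * m ^ 2 := by
    have h1 : ∑ v ∈ Lo, inR S U a b B j v ≤ Lo.card * (ω * m) := by
      have := Finset.sum_le_card_nsmul Lo (fun v => inR S U a b B j v) (ω * m) fun v hv => by
        rw [hLo, Finset.mem_filter] at hv
        exact hv.2.2.le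
      simpa using this
    have h2 : (Lo.card : ℝ) ≤ m := by rw [hmdef]; exact_mod_cast Finset.card_filter_le _ _
    have h3 : 0 ≤ ω * m := by positivity
    nlinarith
  have hecLo : S.ec Lo H < 2 * ω * m ^ 2 := by
    have h1 : S.ec Lo H ≤ ∑ v ∈ Lo, inR S U a b B (j + 1) v := by
      unfold ec
      refine Finset.sum_le_sum fun v hv => ?_
      have hvU : v ∈ U := Finset.filter_subset _ _ hv
      unfold inR deg
      exact_mod_cast Finset.card_le_card fun u hu => by
        rw [mem_nb, hH, Finset.mem_filter] at hu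
        exact Finset.mem_filter.2 ⟨hu.1.1, high_reach hb hu.1.1 hvU (S.adj_symm hu.2) hu.1.2⟩
    have h2 : ∑ v ∈ Lo, (inR S U a b B (j + 1) v - inR S U a b B j v) ≤
        ∑ v ∈ U, (inR S U a b B (j + 1) v - inR S U a b B j v) :=
      Finset.sum_le_sum_of_subset_of_nonneg (Finset.filter_subset _ _) fun v _ _ =>
        sub_nonneg.2 (inR_mono _ _)
    rw [Finset.sum_sub_distrib, Finset.sum_sub_distrib] at h2
    linarith
  have hecMi : S.ec Mi H ≤ Mi.card * m := by
    refine ec_le fun x _ => (deg_le _ _).trans ?_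
    rw [hmdef]
    exact_mod_cast Finset.card_filter_le _ _
  have hec : S.ec H (U \ H) < θ' * m ^ 2 := by
    rw [ec_comm, hUH]
    unfold ec at *
    rw [Finset.sum_union hdisj]
    have h1 : (Mi.card : ℝ) * m * γ ≤ 4 * ω * m ^ 2 := by nlinarith
    have h2 : 2 * ω * m ^ 2 * γ ≤ 2 * ω * m ^ 2 := by
      have : 0 ≤ 2 * ω * m ^ 2 := by positivity
      nlinarith
    have h3 : 6 * ω * m ^ 2 ≤ γ * θ' * m ^ 2 := by gcongr
    have h4 : (∑ x ∈ Lo, S.deg x H + ∑ x ∈ Mi, S.deg x H) * γ < θ' * m ^ 2 * γ := by nlinarith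
    exact lt_of_mul_lt_mul_right h4 hγ.le
  by_contra hcon
  push Not at hcon
  have hHsmall : (H.card : ℝ) < γ ^ 2 / 2 * m := by
    by_contra h
    push Not at h
    have := hcut H (Finset.filter_subset _ _) h hcon
    linarith
  rw [← sum_inR_eq] at h0
  have h1 := size_mono (S := S) (U := U) (a := a) (b := b) (B := B) j
  have h2 : ∑ v ∈ U, inR S U a b B j v ≤ H.card * m + ω * m ^ 2 + Mi.card * m := by
    rw [← Finset.sum_sdiff (Finset.filter_subset _ _ : H ⊆ U), hUH, Finset.sum_union hdisj]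
    have h3 : ∑ v ∈ H, inR S U a b B j v ≤ H.card * m := by
      have := Finset.sum_le_card_nsmul H (fun v => inR S U a b B j v) m fun v _ => hmdef ▸ inR_le _ _
      simpa using this
    have h4 : ∑ v ∈ Mi, inR S U a b B j v ≤ Mi.card * m := by
      have := Finset.sum_le_card_nsmul Mi (fun v => inR S U a b B j v) m fun v _ => hmdef ▸ inR_le _ _
      simpa using this
    linarith
  rw [← hmdef] at h0
  have h3 : (Mi.card : ℝ) * m * γ ≤ 4 * ω * m ^ 2 := by nlinarith
  have h4 : ω * m ^ 2 * γ ≤ ω * m ^ 2 := by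
    have : 0 ≤ ω * m ^ 2 := by positivity
    nlinarith
  have h5 : 20 * ω * m ^ 2 ≤ γ ^ 3 * m ^ 2 := by gcongr
  have h6 : (H.card : ℝ) * m * γ ≤ γ ^ 2 / 2 * m * m * γ := by gcongr
  have h7 : γ ^ 2 * m ^ 2 * γ ≤ (H.card * m + ω * m ^ 2 + Mi.card * m) * γ := by gcongr; linarith
  have h8 : 0 < γ ^ 3 * m ^ 2 := by positivity
  nlinarith

end

/-- The connecting property inside `U`. -/
def Conn (S : Sys V) (U : Finset V) (K : ℕ) (Home : V → Prop) : Prop :=
  ∀ a b c d, S.adj a b → Home b → S.adj c d → Home c →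
    ∃ q : List V, q.Nodup ∧ (∀ x ∈ q, x ∈ U) ∧ q.length ≤ K ∧ Lk S.R a b q c d

theorem connect {γ θ' : ℝ} (hγ : 0 < γ) (hγ1 : γ ≤ 1) (hθ' : 0 < θ') :
    ∃ K m0 : ℕ, ∀ (V : Type) (S : Sys V) (U : Finset V) (μ : ℝ), m0 ≤ U.card → 0 ≤ μ →
      (∀ v u, S.bdeg v u U ≤ μ * U.card) →
      (∀ v ∈ U, (2 * μ + γ) * U.card ≤ S.deg v U) →
      (∀ X ⊆ U, γ ^ 2 / 2 * U.card ≤ X.card → γ ^ 2 / 2 * U.card ≤ (U \ X).card →
        θ' * (U.card : ℝ) ^ 2 ≤ S.ec X (U \ X)) →
      Conn S U K fun v => (μ + γ) * U.card ≤ S.deg v U := by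
  set ω := min (γ * θ' / 6) (γ ^ 3 / 20) with hωdef
  have hω : 0 < ω := lt_min (by positivity) (by positivity)
  have hω1 : 6 * ω ≤ γ * θ' := by have := min_le_left (γ * θ' / 6) (γ ^ 3 / 20); linarith
  have hω2 : 20 * ω ≤ γ ^ 3 := by have := min_le_right (γ * θ' / 6) (γ ^ 3 / 20); linarith
  obtain ⟨J, hJ⟩ := exists_nat_gt (1 / ω)
  have hJ' : 1 < J * ω := by rwa [div_lt_iff₀ hω] at hJ
  obtain ⟨m0, hm0⟩ := exists_nat_ge ((((2 * J : ℕ) : ℝ) / ω + (2 * J : ℕ) + 1) / (γ / 2))
  refine ⟨2 * J + 2, m0, fun V S U μ hm hμ hb hd hcut a b c d hab hb' hcd hc' => ?_⟩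
  have hm' : ((2 * J : ℕ) : ℝ) / ω + (2 * J : ℕ) + 1 ≤ γ / 2 * U.card := by
    rw [div_le_iff₀ (by positivity)] at hm0
    have : (m0 : ℝ) ≤ U.card := by exact_mod_cast hm
    nlinarith
  obtain ⟨j1, hj1, H1, hH1, hc1, hr1⟩ :=
    grow (B := 2 * J) hγ hγ1 hμ hω hω1 hω2 hJ' hm' hb hd hcut hab hb'
  obtain ⟨j2, hj2, H2, hH2, hc2, hr2⟩ :=
    grow (B := 2 * J) hγ hγ1 hμ hω hω1 hω2 hJ' hm' hb hd hcut (S.adj_symm hcd) hc'
  have hmpos : (0 : ℝ) < U.card := by
    have : (0 : ℝ) ≤ ((2 * J : ℕ) : ℝ) / ω := by positivity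
    have h2 : (0 : ℝ) < γ / 2 * U.card := by
      linarith [(Nat.cast_nonneg (2 * J) : (0 : ℝ) ≤ (2 * J : ℕ))]
    by_contra h
    push Not at h
    nlinarith
  have hg2 : γ ^ 2 / 2 * U.card < γ * U.card := by
    have : γ ^ 2 / 2 < γ := by nlinarith
    gcongr
  have hg3 : γ * U.card ≤ U.card := by nlinarith
  obtain ⟨v, hv⟩ : H1.Nonempty := by
    rw [Finset.nonempty_iff_ne_empty]
    rintro rfl
    simp only [Finset.sdiff_empty] at hc1
    linarith
  obtain ⟨w, hw, hvw⟩ : ∃ w ∈ H2, S.adj v w := by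
    by_contra hcon
    push Not at hcon
    have h1 := deg_le_add (S := S) v U H2
    have h2 : S.deg v H2 = 0 := by
      unfold deg
      rw [Nat.cast_eq_zero, Finset.card_eq_zero]
      ext x
      simp only [mem_nb, Finset.notMem_empty, iff_false, not_and]
      exact hcon x
    have h3 := hd v (hH1 hv)
    have h4 : 0 ≤ μ * U.card := by positivity
    nlinarith
  obtain ⟨-, hvU, hwU, h1⟩ := hr1 v hv w (hH2 hw) hvw
  obtain ⟨-, -, -, h2⟩ := hr2 w hw v (hH1 hv) (S.adj_symm hvw)
  obtain ⟨l1, hl1, hl2, hl3, hl4⟩ := h1 ∅ (by simp; omega)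
  obtain ⟨l2, hk1, hk2, hk3, hk4⟩ := h2 l1.toFinset (by
    have := List.toFinset_card_le l1
    omega)
  have hne : v ≠ w := by
    rintro rfl
    exact S.adj_irrefl hvw
  refine ⟨l1 ++ v :: w :: l2.reverse, ?_, ?_, ?_, hl4.trans (hk4.reverse S.R_symm)⟩
  · rw [List.nodup_append]
    refine ⟨hl1, ?_, ?_⟩
    · simp only [List.nodup_cons, List.mem_cons, List.mem_reverse, List.nodup_reverse]
      refine ⟨?_, ?_, hk1⟩
      · rintro (h | h)
        · exact hne h
        · exact (hk2 _ h).2.2.2 rfl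
      · intro h
        exact (hk2 _ h).2.2.1 rfl
    · intro x hx y hy
      simp only [List.mem_cons, List.mem_reverse] at hy
      rcases hy with rfl | rfl | hy
      · exact (hl2 x hx).2.2.1
      · exact (hl2 x hx).2.2.2
      · rintro rfl
        exact (hk2 _ hy).2.1 (List.mem_toFinset.2 hx)
  · intro x hx
    simp only [List.mem_append, List.mem_cons, List.mem_reverse] at hx
    rcases hx with hx | rfl | rfl | hx
    · exact (hl2 x hx).1
    · exact hvU
    · exact hwU
    · exact (hk2 x hx).1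
  · simp only [List.length_append, List.length_cons, List.length_reverse]
    omega

end Pool.Agent.Lib.MP_ac307a_co
end

-- part Pool.Agent.Lib.MP_ac307a_co.Precover
section

/-! Covering a short list of special pieces. -/

namespace Pool.Agent.Lib.MP_ac307a_co

open Classical Sys

variable {V : Type}

theorem precover {S S' : Sys V} (hR : ∀ a b c, S'.R a b c → S.R a b c) {V1 : Finset V}
    {K A : ℕ} {Home : V → Prop} (hHome : ∀ v ∈ V1, Home v) {bal : V → ℝ}
    (hbal : ∀ u v, S'.adj u v → bal u + bal v = 0)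
    (hConn : ∀ Used : Finset V, Used.card ≤ A → Conn S' (V1 \ Used) K Home)
    {a b : V} (hab : S'.adj a b) (hb : Home b) :
    ∀ items : List (V × List V), items.length * (K + 2) ≤ A →
      (∀ it ∈ items, ∀ Used : Finset V, Used.card ≤ A → ∃ p ∈ V1, ∃ q ∈ V1, p ∉ Used ∧ q ∉ Used ∧
        p ≠ q ∧ ∃ y, S'.adj p it.1 ∧ Wk S.R p it.1 (it.2 ++ [q]) y q ∧ S'.adj y q ∧
          bal y = bal it.1) →
      ∃ (l w : List V) (c d : V), l.Nodup ∧ (∀ x ∈ l, x ∈ V1) ∧
        l.length ≤ items.length * (K + 2) ∧ Wk S.R a b w c d ∧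
        w.Perm (l ++ items.flatMap fun it => it.1 :: it.2) ∧ S'.adj c d ∧ Home d ∧
        bal b + 2 * ls bal l + 2 * ls bal (items.map Prod.fst) = bal d := by
  intro items
  induction items with
  | nil =>
    intro _ _
    exact ⟨[], [], a, b, by simp, by simp, by simp, ⟨rfl, rfl⟩, by simp, hab, hb, by simp⟩
  | cons it items ih =>
    intro hA hext
    rw [List.length_cons, Nat.succ_mul] at hA
    obtain ⟨l, w, c, d, h1, h2, h3, h4, h5, h6, h7, h8⟩ := ih (by omega)
      fun it' hit => hext it' (List.mem_cons_of_mem _ hit)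
    have hlc := List.toFinset_card_le l
    obtain ⟨p, hp, q, hq, hp', hq', hpq, y, e1, e2, e3, e4⟩ := hext it (by simp) l.toFinset
      (by omega)
    obtain ⟨r, r1, r2, r3, r4⟩ := hConn (p :: q :: l).toFinset (by
      have := List.toFinset_card_le (p :: q :: l)
      simp only [List.length_cons] at this
      omega) c d p it.1 h6 h7 e1 (hHome p hp)
    simp only [Finset.mem_sdiff, List.mem_toFinset, List.mem_cons, not_or] at r2 hp' hq'
    refine ⟨p :: q :: (r ++ l), _, y, q, ?_, ?_, ?_,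
      h4.append ((r4.mono hR).trans_wk e2), ?_, e3, hHome q hq, ?_⟩
    · simp only [List.nodup_cons, List.mem_cons, List.mem_append, not_or, List.nodup_append]
      refine ⟨⟨hpq, fun h => (r2 _ h).2.1 rfl, hp'⟩, ⟨fun h => (r2 _ h).2.2.1 rfl, hq'⟩, r1, h1,
        ?_⟩
      rintro x hx z hz rfl
      exact (r2 _ hx).2.2.2 hz
    · intro x hx
      simp only [List.mem_cons, List.mem_append] at hx
      rcases hx with rfl | rfl | hx | hx
      · exact hp
      · exact hq
      · exact (r2 _ hx).1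
      · exact h2 _ hx
    · simp only [List.length_cons, List.length_append]
      rw [Nat.succ_mul]
      omega
    · rw [List.perm_iff_count] at *
      intro x
      have f1 := h5 x
      simp only [List.count_append, List.flatMap_cons, List.count_cons, List.count_nil] at *
      omega
    · have f1 := lk_bal hbal e1 r4
      have f2 := hbal _ _ e1
      have f3 := hbal _ _ e3
      simp only [ls_cons, ls_append, List.map_cons]
      linarith

end Pool.Agent.Lib.MP_ac307a_co
end
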