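import Pool.Agent.Lib.MP_ac307a_co.Wrap
import Pool.Agent.Lib.MP_ac307a_co.Precover

-- part Pool.Agent.Lib.MP_ac307a_co.NE
section

/-! The non-extremal case. -/

namespace Pool.Agent.Lib.MP_ac307a_co

open Classical Sys

variable {V : Type}

/-- non-extremality -/
def NE (S : Sys V) (U : Finset V) (κ : ℝ) : Prop :=
  ∀ X ⊆ U, ∀ Y ⊆ U, (1 / 2 - κ) * U.card ≤ X.card → (1 / 2 - κ) * U.card ≤ Y.card →
    κ * (U.card : ℝ) ^ 2 ≤ S.ec X Y

theorem card_filter_not_adj (S : Sys V) (v : V) (U : Finset V) :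
    ((U.filter fun z => ¬ S.adj v z).card : ℝ) = U.card - S.deg v U := by
  have := Finset.card_filter_add_card_filter_not (s := U) (S.adj v)
  unfold deg nb
  have : ((U.filter (S.adj v)).card : ℝ) + (U.filter fun z => ¬ S.adj v z).card = U.card := by
    exact_mod_cast this
  linarith

theorem card_filter_sub {U X : Finset V} (hX : X ⊆ U) {p q : V → Prop} [DecidablePred p]
    [DecidablePred q] (h : ∀ z, p z → q z) :
    ((U.filter p).card : ℝ) - ((U.filter q).card - (X.filter q).card) ≤ (X.filter p).card := by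
  have h1 := card_ge_of_cover (U := X) (A := U.filter p) (B := U.filter q \ X.filter q) (C := ∅)
    (D := ∅) (p := p) (by
      intro x hx hB _ _
      simp only [Finset.mem_sdiff, Finset.mem_filter] at *
      have := h x hx.2
      tauto)
  rw [Finset.card_sdiff_of_subset (Finset.filter_subset_filter _ hX),
    Nat.cast_sub (Finset.card_le_card (Finset.filter_subset_filter _ hX))] at h1
  simpa using h1

theorem ne_inherit {S : Sys V} {V0 U : Finset V} {κ ζ e : ℝ} (hκ : 0 < κ) (hκ1 : κ ≤ 1 / 10)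
    (hζ : 0 ≤ ζ) (he : 0 ≤ e) (hsmall : ζ + e ≤ κ / 8) (hUp : 0 < U.card)
    (hne : NE S V0 κ) (hd : ∀ v ∈ U, (1 / 2 - e) * U.card ≤ S.deg v U)
    (i0 : ∀ x, Inh V0 U ζ (S.adj x))
    (i2 : ∀ x y, Inh V0 U ζ fun z => S.adj x z ∧ ¬ S.adj y z)
    (i3 : ∀ x y, Inh V0 U ζ fun z => ¬ S.adj y z ∧
      κ / 2 * V0.card ≤ (V0.filter fun z' => S.adj z z' ∧ ¬ S.adj x z').card) :
    NE S U (κ ^ 2 / 32) := by
  intro X hX Y hY hXc hYc
  by_contra hcon
  push Not at hcon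
  obtain ⟨m, hm⟩ : ∃ m : ℝ, m = U.card := ⟨_, rfl⟩
  obtain ⟨n, hn⟩ : ∃ m : ℝ, m = V0.card := ⟨_, rfl⟩
  obtain ⟨k, hk⟩ : ∃ k : ℝ, k = κ ^ 2 / 32 := ⟨_, rfl⟩
  have hmp : 0 < m := by rw [hm]; exact_mod_cast hUp
  have hn0 : 0 ≤ n := by rw [hn]; positivity
  have hk0 : 0 < k := by rw [hk]; positivity
  have hk1 : 4 * k ≤ κ / 8 := by rw [hk]; nlinarith
  rw [← hm, ← hk] at hXc hYc hcon
  rw [← hm] at hd
  have hkm : k * m ≤ 1 / 6 * m := mul_le_mul_of_nonneg_right (by linarith) hmp.le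
  have hkm0 : 0 < k * m := by positivity
  obtain ⟨x0, hx0, hx0'⟩ := exists_deg_lt (S := S) (X := X) (Y := Y) (t := 3 * k * m) (by
    have : m / 3 * (3 * k * m) ≤ X.card * (3 * k * m) :=
      mul_le_mul_of_nonneg_right (by linarith) (by linarith)
    linarith)
  obtain ⟨y0, hy0, hy0'⟩ := exists_deg_lt (S := S) (X := Y) (Y := X) (t := 3 * k * m) (by
    have : m / 3 * (3 * k * m) ≤ Y.card * (3 * k * m) :=
      mul_le_mul_of_nonneg_right (by linarith) (by linarith)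
    rw [ec_comm]
    linarith)
  have big : ∀ (Z : Finset V) (z0 : V), Z ⊆ U → (1 / 2 - k) * m ≤ Z.card →
      S.deg z0 Z < 3 * k * m → (1 / 2 - κ) * V0.card ≤ (V0.filter fun z => ¬ S.adj z0 z).card := by
    intro Z z0 hZ hZc hz
    rw [card_filter_not_adj]
    by_contra hh
    push Not at hh
    have e1 := (i0 z0).lower (1 / 2 + κ) (by
      change _ ≤ S.deg z0 V0
      linarith)
    change _ ≤ S.deg z0 U at e1
    have e2 := deg_split (S := S) z0 hZ
    have e3 := deg_le (S := S) z0 (U \ Z)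
    rw [Finset.card_sdiff_of_subset hZ, Nat.cast_sub (Finset.card_le_card hZ)] at e3
    rw [← hm] at e1 e3
    have e4 : (4 * k + ζ) * m ≤ κ * m := mul_le_mul_of_nonneg_right (by linarith) hmp.le
    linarith
  have h1 := hne _ (Finset.filter_subset _ _) _ (Finset.filter_subset _ _)
    (big X y0 hX hXc hy0') (big Y x0 hY hYc hx0')
  set T3 : V → Prop := fun z => ¬ S.adj y0 z ∧
      κ / 2 * V0.card ≤ (V0.filter fun z' => S.adj z z' ∧ ¬ S.adj x0 z').card with hT3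
  have h2 : κ / 2 * V0.card ≤ (V0.filter T3).card := by
    have e1 : S.ec (V0.filter fun z => ¬ S.adj y0 z) (V0.filter fun z => ¬ S.adj x0 z) ≤
        ∑ z ∈ V0, ((if T3 z then (V0.card : ℝ) else 0) + κ / 2 * V0.card) := by
      unfold ec
      rw [Finset.sum_filter]
      refine Finset.sum_le_sum fun z _ => ?_
      have f0 : (0 : ℝ) ≤ κ / 2 * V0.card := by positivity
      have f1 : S.deg z (V0.filter fun z => ¬ S.adj x0 z) =
          (V0.filter fun z' => S.adj z z' ∧ ¬ S.adj x0 z').card := by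
        unfold deg nb
        rw [Finset.filter_filter]
        simp only [and_comm]
      have f2 : ((V0.filter fun z' => S.adj z z' ∧ ¬ S.adj x0 z').card : ℝ) ≤ V0.card := by
        exact_mod_cast Finset.card_filter_le _ _
      rw [f1]
      by_cases g1 : T3 z
      · rw [if_pos g1, if_pos g1.1]
        linarith
      · rw [if_neg g1]
        split_ifs with g2
        · linarith
        · have : ¬ (κ / 2 * V0.card ≤
              (V0.filter fun z' => S.adj z z' ∧ ¬ S.adj x0 z').card) := fun g3 => g1 ⟨g2, g3⟩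
          linarith
    rw [Finset.sum_add_distrib, ← Finset.sum_filter] at e1
    simp only [Finset.sum_const, nsmul_eq_mul] at e1
    by_cases hn1 : n = 0
    · have : κ / 2 * V0.card = 0 := by rw [← hn, hn1, mul_zero]
      exact this.le.trans (Nat.cast_nonneg _)
    · have hnp : 0 < n := lt_of_le_of_ne hn0 (Ne.symm hn1)
      rw [hn] at hnp
      have : κ / 2 * V0.card * V0.card ≤ (V0.filter T3).card * V0.card := by linarith
      exact le_of_mul_le_mul_right this hnp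
  have h3 := (i3 x0 y0).lower _ h2
  have h4 := card_filter_sub hX (p := T3) (q := fun z => ¬ S.adj y0 z) fun z hz => hz.1
  rw [card_filter_not_adj, card_filter_not_adj] at h4
  have h5 := hd y0 (hY hy0)
  have h6 := hd x0 (hX hx0)
  have hs : (ζ + e + 4 * k) * m ≤ κ / 4 * m := mul_le_mul_of_nonneg_right (by linarith) hmp.le
  rw [← hm] at h3 h4
  have h7 : κ / 4 * m ≤ (X.filter T3).card := by linarith
  have h8 : ∀ z ∈ X.filter T3, κ / 4 * m ≤ S.deg z Y := by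
    intro z hz
    rw [Finset.mem_filter] at hz
    have e1 := (i2 z x0).lower _ hz.2.2
    have e2 := card_filter_sub hY (p := fun z' => S.adj z z' ∧ ¬ S.adj x0 z')
      (q := fun z => ¬ S.adj x0 z) fun z hz => hz.2
    rw [card_filter_not_adj, card_filter_not_adj] at e2
    have e3 : ((Y.filter fun z' => S.adj z z' ∧ ¬ S.adj x0 z').card : ℝ) ≤ S.deg z Y := by
      unfold deg
      exact_mod_cast Finset.card_le_card fun w hw => by
        rw [Finset.mem_filter] at hw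
        exact mem_nb.2 ⟨hw.1, hw.2.1⟩
    rw [← hm] at e1 e2
    linarith
  have h9 := ec_ge h8
  have h10 := ec_mono (S := S) (Finset.filter_subset T3 X) (Finset.Subset.refl Y)
  have h11 : κ / 4 * m * (κ / 4 * m) ≤ (X.filter T3).card * (κ / 4 * m) :=
    mul_le_mul_of_nonneg_right h7 (by positivity)
  have h12 : κ / 4 * m * (κ / 4 * m) = 2 * (k * m ^ 2) := by rw [hk]; ring
  have h13 : 0 < k * m ^ 2 := by positivity
  linarith

theorem cut_of_ne {S : Sys V} {U : Finset V} {κ e θ : ℝ} (hκ : 0 < κ) (hθ1 : θ ≤ 1)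
    (he : e ≤ κ / 2) (hne : NE S U κ) (hd : ∀ v ∈ U, (1 / 2 - e) * U.card ≤ S.deg v U) :
    ∀ X ⊆ U, θ * U.card ≤ X.card → θ * U.card ≤ (U \ X).card →
      θ * κ / 2 * (U.card : ℝ) ^ 2 ≤ S.ec X (U \ X) := by
  have aux : ∀ X ⊆ U, θ * U.card ≤ X.card → (X.card : ℝ) < (1 / 2 - κ) * U.card →
      θ * κ / 2 * (U.card : ℝ) ^ 2 ≤ S.ec X (U \ X) := by
    intro X hX h1 h2
    have h0 : (0 : ℝ) ≤ U.card := Nat.cast_nonneg _
    have e1 := ec_ge (S := S) (X := X) (Y := U \ X) (t := κ / 2 * U.card) fun x hx => by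
      have f1 := deg_split (S := S) x hX
      have f2 := deg_le (S := S) x X
      have f3 := hd x (hX hx)
      have f4 : e * U.card ≤ κ / 2 * U.card := mul_le_mul_of_nonneg_right he h0
      linarith
    have e2 : θ * U.card * (κ / 2 * U.card) ≤ X.card * (κ / 2 * U.card) :=
      mul_le_mul_of_nonneg_right h1 (by positivity)
    linarith
  intro X hX h1 h2
  by_cases c1 : (X.card : ℝ) < (1 / 2 - κ) * U.card
  · exact aux X hX h1 c1
  by_cases c2 : ((U \ X).card : ℝ) < (1 / 2 - κ) * U.card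
  · have := aux (U \ X) Finset.sdiff_subset h2 c2
    rwa [Finset.sdiff_sdiff_eq_self hX, ec_comm] at this
  have := hne X hX (U \ X) Finset.sdiff_subset (not_lt.1 c1) (not_lt.1 c2)
  have h3 : θ * (κ * (U.card : ℝ) ^ 2) ≤ 1 * (κ * (U.card : ℝ) ^ 2) :=
    mul_le_mul_of_nonneg_right hθ1 (by positivity)
  have h4 : 0 ≤ κ * (U.card : ℝ) ^ 2 := by positivity
  linarith

theorem level_of_ne {S : Sys V} {U : Finset V} {ρ γ η β θ τ σ κ : ℝ} (hρ : 1 ≤ ρ) (hγ : 0 < γ)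
    (hγ1 : γ ≤ 1 / 12) (hη : 0 ≤ η)
    (hβ : 0 ≤ β) (hθ : 12 * β ≤ θ) (hηβ : η + β ≤ γ ^ 2 / 10) (hU : 0 < U.card)
    (hd : ∀ v ∈ U, ρ * (1 / 2 - η) * U.card ≤ S.deg v U)
    (hτ : 0 ≤ τ) (hτσ : τ ≤ σ) (hτβ : τ ≤ β * U.card) (hσ : σ ≤ ρ * (1 / 6 - γ) * U.card)
    (hne : NE S U κ) (hκ : 10 * (η + β) / γ ≤ κ) (hκβ : 2 * β < κ) :
    Level S U τ σ (θ * U.card) := by
  intro P hP
  by_contra hcon
  push Not at hcon
  have h1 := level_core hρ hγ hγ1 hη hβ hθ hηβ hU hd hτ hτσ hτβ hσ hP hcon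
  have hm : (0 : ℝ) < U.card := by exact_mod_cast hU
  set F := U.filter fun v => ninP S U P v < τ with hF
  have hFU : F ⊆ U := Finset.filter_subset _ _
  have h2 : (1 / 2 - κ) * U.card ≤ F.card :=
    le_trans (mul_le_mul_of_nonneg_right (by linarith) hm.le) h1
  have h3 := hne F hFU F hFU h2 h2
  have h4 := ec_F_le hP hFU (τ := τ) fun v hv => (Finset.mem_filter.1 hv).2.le
  have h5 : (F.card : ℝ) ≤ U.card := by exact_mod_cast Finset.card_le_card hFU
  have h6 : 2 * τ * F.card ≤ 2 * (β * U.card) * U.card := by gcongr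
  have h7 : 2 * β * (U.card : ℝ) ^ 2 < κ * (U.card : ℝ) ^ 2 := by gcongr
  linarith

theorem free_count {S : Sys V} {V0 Z : Finset V} {p q q' : V} {M : ℝ}
    (hb : ∀ v u, S.bdeg v u V0 ≤ M) {P : V → Prop} [DecidablePred P]
    (h : ∀ x, S.adj p x → ¬ S.bad p q x → ¬ S.bad p q' x → x ∉ Z → P x) :
    S.deg p V0 - 2 * M - Z.card ≤ (V0.filter P).card := by
  have h1 := card_ge_of_cover (U := V0) (A := S.nb p V0) (B := S.bd p q V0) (C := S.bd p q' V0)
    (D := Z) (p := P) (by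
      intro x hx h2 h3 h4
      simp only [mem_nb, mem_bd, not_and] at *
      exact ⟨hx.1, h x hx.2 (h2 hx.1) (h3 hx.1) h4⟩)
  have h2 := hb p q
  have h3 := hb p q'
  unfold bdeg at h2 h3
  unfold deg
  linarith

theorem card_union_list_le (Used : Finset V) (l : List V) :
    ((Used ∪ l.toFinset).card : ℝ) ≤ Used.card + l.length := by
  have h1 := Finset.card_union_le Used l.toFinset
  have h2 := List.toFinset_card_le l
  exact_mod_cast (by omega : (Used ∪ l.toFinset).card ≤ Used.card + l.length)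

theorem nodup8 {k1 k2 k3 k4 k5 k6 k7 k8 : V} (h6 : k6 ∉ [k2]) (h3 : k3 ∉ [k2, k6])
    (h7 : k7 ∉ [k2, k6, k3]) (h4 : k4 ∉ [k2, k6, k3, k7]) (h8 : k8 ∉ [k2, k6, k3, k7, k4])
    (h1 : k1 ∉ [k2, k6, k3, k7, k4, k8]) (h5 : k5 ∉ [k2, k6, k3, k7, k4, k8, k1]) :
    [k1, k2, k3, k4, k5, k6, k7, k8].Nodup := by
  simp only [List.nodup_cons, List.mem_cons, List.not_mem_nil, or_false, not_or,
    List.nodup_nil, not_false_eq_true, and_true] at *
  simp only [← ne_eq] at *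
  obtain ⟨a1, a2⟩ := h3
  obtain ⟨b1, b2, b3⟩ := h7
  obtain ⟨c1, c2, c3, c4⟩ := h4
  obtain ⟨d1, d2, d3, d4, d5⟩ := h8
  obtain ⟨e1, e2, e3, e4, e5, e6⟩ := h1
  obtain ⟨f1, f2, f3, f4, f5, f6, f7⟩ := h5
  exact ⟨⟨e1, e3, e5, f7.symm, e2, e4, e6⟩,
    ⟨a1.symm, c1.symm, f1.symm, h6.symm, b1.symm, d1.symm⟩,
    ⟨c3.symm, f3.symm, a2, b3.symm, d3.symm⟩, ⟨f5.symm, c2, c4, d5.symm⟩, ⟨f2, f4, f6⟩,
    ⟨b2.symm, d2.symm⟩, d4.symm⟩

theorem keyChoice_single {S : Sys V} {V0 : Finset V} {κ M : ℝ} {A : ℕ} (hκ : 0 < κ)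
    (hV : 0 < V0.card) (hb : ∀ v u, S.bdeg v u V0 ≤ M)
    (hd : ∀ v ∈ V0, 2 * M + A + 8 + 1 / 10 * V0.card ≤ S.deg v V0)
    (hd' : ∀ v ∈ V0, (1 / 2 - κ) * V0.card + A + 8 ≤ S.deg v V0) (hne : NE S V0 κ) :
    KeyChoice S V0 V0 (fun v => [v]) (fun _ => []) ((1 / 10) ^ 4) A := by
  intro Used hU w hw
  have hU' : (Used.card : ℝ) ≤ A := by exact_mod_cast hU
  have hc : (0 : ℝ) < 1 / 10 := by norm_num
  have cnt : ∀ (p q q' : V) (l : List V) (P : V → Prop) [DecidablePred P], p ∈ V0 →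
      l.length ≤ 8 →
      (∀ x, S.adj p x → ¬ S.bad p q x → ¬ S.bad p q' x → x ∉ Used → x ∉ l → P x) →
      1 / 10 * (V0.card : ℝ) ≤ (V0.filter P).card := by
    intro p q q' l P _ hp hl h
    have e1 := free_count (Z := Used ∪ l.toFinset) (p := p) (q := q) (q' := q') (P := P) hb (by
      intro x h1 h2 h3 h4
      simp only [Finset.mem_union, List.mem_toFinset, not_or] at h4
      exact h x h1 h2 h3 h4.1 h4.2)
    have e2 := card_union_list_le Used l
    have e3 : (l.length : ℝ) ≤ 8 := by exact_mod_cast hl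
    linarith [hd p hp]
  have ex : ∀ (P : V → Prop) [DecidablePred P], 1 / 10 * (V0.card : ℝ) ≤ (V0.filter P).card → ∃ x ∈ V0, P x := by
    intro P _ h
    have h2 : (0 : ℝ) < 1 / 10 * V0.card := mul_pos hc (by exact_mod_cast hV)
    have h3 : 0 < (V0.filter P).card := by exact_mod_cast h2.trans_le h
    obtain ⟨x, hx⟩ := Finset.card_pos.1 h3
    exact ⟨x, Finset.mem_filter.1 hx⟩
  have s0 : 0 < ∑ u ∈ V0, w u := Finset.sum_pos (fun u _ => hw u) (Finset.card_pos.1 hV)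
  obtain ⟨k2, m2, c2, w2, p2⟩ := averaging2 hw hV hc s0 (fun x => x ∉ Used)
    (fun v x => S.adj v x) fun v hv => cnt v v v [] _ hv (by simp) fun x h1 _ _ h4 _ => ⟨h4, h1⟩
  obtain ⟨k6, m6, c6, w6, p6⟩ := averaging2 hw hV hc p2 (fun x => x ∉ Used ∧ x ∉ [k2])
    (fun v x => S.adj v x ∧ ¬ S.bad v k2 x) fun v hv =>
      cnt v k2 k2 [k2] _ (Finset.mem_filter.1 hv).1 (by simp)
        fun x h1 h2 _ h4 h5 => ⟨⟨h4, h5⟩, h1, h2⟩
  have side : ∀ p ∈ V0, (1 / 2 - κ) * V0.card ≤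
      (V0.filter fun x => S.adj p x ∧ x ∉ Used ∧ x ∉ [k2, k6]).card := by
    intro p hp
    have e1 := card_ge_of_cover (U := V0) (A := S.nb p V0) (B := Used) (C := [k2, k6].toFinset)
      (D := ∅) (p := fun x => S.adj p x ∧ x ∉ Used ∧ x ∉ [k2, k6]) (by
        intro x h1 h2 h3 _
        rw [mem_nb] at h1
        rw [List.mem_toFinset] at h3
        exact ⟨h1.1, h1.2, h2, h3⟩)
    have e2 : (([k2, k6].toFinset.card : ℕ) : ℝ) ≤ 2 := by
      exact_mod_cast List.toFinset_card_le [k2, k6]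
    have e3 := hd' p hp
    unfold deg at e3
    simp only [Finset.card_empty, Nat.cast_zero] at e1
    linarith
  obtain ⟨k3, m3, k7, m7, a37⟩ := exists_adj_of_ec_pos (lt_of_lt_of_le
    (mul_pos hκ (by positivity : (0 : ℝ) < (V0.card : ℝ) ^ 2))
    (hne _ (Finset.filter_subset _ _) _ (Finset.filter_subset _ _) (side k2 m2) (side k6 m6)))
  rw [Finset.mem_filter] at m3 m7
  have n37 : k3 ≠ k7 := by
    rintro rfl
    exact S.adj_irrefl a37
  obtain ⟨k4, m4, c4⟩ := ex _ (cnt k3 k2 k7 [k2, k6, k3, k7] (fun x => S.adj k3 x ∧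
    ¬ S.bad k3 k2 x ∧ ¬ S.bad k3 k7 x ∧ x ∉ Used ∧ x ∉ [k2, k6, k3, k7]) m3.1 (by simp)
    fun x h1 h2 h3 h4 h5 => ⟨h1, h2, h3, h4, h5⟩)
  obtain ⟨k8, m8, c8⟩ := ex _ (cnt k7 k6 k3 [k2, k6, k3, k7, k4] (fun x => S.adj k7 x ∧
    ¬ S.bad k7 k6 x ∧ ¬ S.bad k7 k3 x ∧ x ∉ Used ∧ x ∉ [k2, k6, k3, k7, k4]) m7.1 (by simp)
    fun x h1 h2 h3 h4 h5 => ⟨h1, h2, h3, h4, h5⟩)
  obtain ⟨k1, m1, c1, w1, p1⟩ := averaging2 hw hV hc p6
    (fun x => S.adj k2 x ∧ ¬ S.bad k2 k3 x ∧ x ∉ Used ∧ x ∉ [k2, k6, k3, k7, k4, k8])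
    (fun v x => ¬ S.bad k2 v x) fun v _ =>
      cnt k2 k3 v [k2, k6, k3, k7, k4, k8] _ m2 (by simp)
        fun x h1 h2 h3 h4 h5 => ⟨⟨h1, h2, h4, h5⟩, h3⟩
  obtain ⟨k5, m5, c5, w5, -⟩ := averaging2 hw hV hc p1
    (fun x => S.adj k6 x ∧ ¬ S.bad k6 k7 x ∧ x ∉ Used ∧ x ∉ [k2, k6, k3, k7, k4, k8, k1])
    (fun v x => ¬ S.bad k6 v x) fun v _ =>
      cnt k6 k7 v [k2, k6, k3, k7, k4, k8, k1] _ m6 (by simp)
        fun x h1 h2 h3 h4 h5 => ⟨⟨h1, h2, h4, h5⟩, h3⟩
  refine ⟨⟨k1, k2, k3, k4, k5, k6, k7, k8⟩, ?_, ?_, ?_, ?_⟩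
  · refine nodup8 c6.2 m3.2.2.2 ?_ c4.2.2.2.2 c8.2.2.2.2 c1.2.2.2 c5.2.2.2
    have := m7.2.2.2
    simp only [List.mem_cons, List.not_mem_nil, or_false, not_or] at this ⊢
    exact ⟨this.1, this.2, n37.symm⟩
  · simp only [Gad.list, List.mem_cons, List.not_mem_nil, or_false]
    rintro x (rfl | rfl | rfl | rfl | rfl | rfl | rfl | rfl)
    exacts [⟨m1, c1.2.2.1⟩, ⟨m2, c2⟩, ⟨m3.1, m3.2.2.1⟩, ⟨m4, c4.2.2.2.1⟩, ⟨m5, c5.2.2.1⟩,
      ⟨m6, c6.1⟩, ⟨m7.1, m7.2.2.1⟩, ⟨m8, c8.2.2.2.1⟩]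
  · exact ⟨⟨S.adj_symm c1.1, m3.2.1, fun h => c1.2.1 (S.bad_symm h)⟩, ⟨m3.2.1, c4.1, c4.2.1⟩,
      ⟨S.adj_symm c5.1, m7.2.1, fun h => c5.2.1 (S.bad_symm h)⟩, ⟨m7.2.1, c8.1, c8.2.1⟩⟩
  · refine le_trans (by linarith) (Finset.sum_le_sum_of_subset_of_nonneg
      (s := (((V0.filter fun v => S.adj v k2).filter fun v => S.adj v k6 ∧ ¬ S.bad v k2 k6).filter
        fun v => ¬ S.bad k2 v k1).filter fun v => ¬ S.bad k6 v k5) ?_ fun u _ _ => (hw u).le)
    intro v hv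
    simp only [Finset.mem_filter] at hv ⊢
    obtain ⟨⟨⟨⟨h0, h1⟩, h2, h3⟩, h4⟩, h5⟩ := hv
    refine ⟨h0, ?_, ?_⟩
    · rw [lk_cons, lk_nil]
      exact ⟨⟨S.adj_symm c1.1, S.adj_symm h1, fun h => h4 (S.bad_symm h)⟩,
        ⟨S.adj_symm h1, h2, h3⟩, ⟨h2, c5.1, h5⟩⟩
    · rw [lk_nil]
      exact ⟨⟨S.adj_symm c4.1, a37, fun h => c4.2.2.1 (S.bad_symm h)⟩, ⟨a37, c8.1, c8.2.2.1⟩⟩

end Pool.Agent.Lib.MP_ac307a_co
end

-- part Pool.Agent.Lib.MP_ac307a_co.HamNE
section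

/-! Spanning links in the non-extremal case. -/

namespace Pool.Agent.Lib.MP_ac307a_co

open Classical Sys

variable {V : Type}

theorem Conn.mono {S : Sys V} {U : Finset V} {K : ℕ} {H H' : V → Prop} (h : Conn S U K H)
    (hH : ∀ v, H' v → H v) : Conn S U K H' :=
  fun a b c d h1 h2 h3 h4 => h a b c d h1 (hH _ h2) h3 (hH _ h4)

/-- the test sets in the non-extremal case -/
def testNE (S : Sys V) (V0 : Finset V) (κ : ℝ) : V × V × Fin 4 → V → Prop
  | (x, _, 0) => S.adj x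
  | (x, y, 1) => S.bad x y
  | (x, y, 2) => fun z => S.adj x z ∧ ¬ S.adj y z
  | (x, y, 3) => fun z => ¬ S.adj y z ∧
      κ / 2 * V0.card ≤ (V0.filter fun z' => S.adj z z' ∧ ¬ S.adj x z').card

theorem exists_big {ε0 : ℝ} (hε0 : 0 < ε0) (m : ℕ) :
    ∃ N : ℕ, ∀ n u : ℕ, N ≤ n → ε0 * n ≤ u → m ≤ u := by
  obtain ⟨N, hN⟩ := exists_nat_ge (m / ε0)
  refine ⟨N, fun n u hn hu => ?_⟩
  rw [div_le_iff₀ hε0] at hN
  have h1 : (N : ℝ) ≤ n := by exact_mod_cast hn
  have h2 : (N : ℝ) * ε0 ≤ n * ε0 := by gcongr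
  have : (m : ℝ) ≤ u := by linarith
  exact_mod_cast this

theorem card_test_le {n v k : ℕ} (h : v ≤ 3 * n) (hn : 6 ≤ n) (hk : k ≤ 4) :
    v * (v * k) ≤ n ^ 4 := by
  calc v * (v * k) ≤ (3 * n) * ((3 * n) * 4) := by gcongr
    _ = 6 * 6 * n ^ 2 := by ring
    _ ≤ n * n * n ^ 2 := by gcongr
    _ = n ^ 4 := by ring

theorem hamNE {γ κ : ℝ} (hγ : 0 < γ) (hγ1 : γ ≤ 1 / 12) (hκ : 0 < κ) (hκ1 : κ ≤ 1 / 10) :
    ∃ η : ℝ, 0 < η ∧ ∃ N : ℕ, ∀ (V : Type) [Fintype V] (S : Sys V) (V0 : Finset V) (ρ : ℝ),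
      1 ≤ ρ → ρ ≤ 2 → N ≤ V0.card → Fintype.card V ≤ 3 * V0.card →
      (∀ v u, S.bdeg v u V0 ≤ ρ * (1 / 6 - γ) * V0.card) →
      (∀ v ∈ V0, ρ * (1 / 2 - η) * V0.card ≤ S.deg v V0) → NE S V0 κ →
      ∀ a b c d, S.adj a b → (ρ * (1 / 6 - γ) + γ) * V0.card ≤ S.deg b V0 → S.adj c d →
        (ρ * (1 / 6 - γ) + γ) * V0.card ≤ S.deg c V0 →
        ∃ l : List V, l.Perm V0.toList ∧ Lk S.R a b l c d := by
  obtain ⟨k, hk⟩ : ∃ k : ℝ, k = κ ^ 2 / 32 := ⟨_, rfl⟩
  have hk0 : 0 < k := by rw [hk]; positivity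
  have hk1 : k ≤ κ / 320 := by rw [hk]; nlinarith
  obtain ⟨η, hη⟩ : ∃ η : ℝ, η = γ ^ 2 * k / 200 := ⟨_, rfl⟩
  have hη0 : 0 < η := by rw [hη]; positivity
  have hγ2 : γ ^ 2 ≤ γ / 12 := by nlinarith
  have hη1 : η ≤ k / 200 := by rw [hη]; nlinarith
  have hη2 : η ≤ γ ^ 2 / 200 := by rw [hη]; nlinarith [sq_nonneg γ]
  have hη3 : 60 * η ≤ k * γ := by rw [hη]; nlinarith [mul_pos hk0 hγ]
  obtain ⟨K, m1, hconn⟩ := connect (γ := γ / 2) (θ' := (γ / 2) ^ 2 / 2 * k / 2) (by positivity)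
    (by linarith) (by positivity)
  obtain ⟨ε0, ε, hε0, hε, L0, hL0⟩ := hamLinkT K (c := (1 / 10) ^ 4) (ζ := η) (α := κ / 4)
    (by positivity) (by norm_num) hη0 (by linarith) (by positivity)
  obtain ⟨L1, hL1⟩ := exists_nat_ge (4 / ε)
  obtain ⟨L, hL⟩ : ∃ L, L = max L0 L1 := ⟨_, rfl⟩
  have hL2 : 4 ≤ ε * L := by
    rw [div_le_iff₀ hε] at hL1
    have : (L1 : ℝ) ≤ L := by rw [hL]; exact_mod_cast le_max_right _ _
    nlinarith
  have hLp : (0 : ℝ) < L := by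
    by_contra h
    push Not at h
    nlinarith
  obtain ⟨N0, hN0⟩ := hL0 L (by rw [hL]; exact le_max_left _ _)
  obtain ⟨β, hβ⟩ : ∃ β : ℝ, β = min η (ε / (4 * L) / 12) := ⟨_, rfl⟩
  have hβ0 : 0 < β := by rw [hβ]; exact lt_min hη0 (by positivity)
  have hβ1 : β ≤ η := by rw [hβ]; exact min_le_left _ _
  have hβ2 : 12 * β ≤ ε / (4 * L) := by
    have : β ≤ ε / (4 * L) / 12 := by rw [hβ]; exact min_le_right _ _
    linarith
  obtain ⟨m2, hkey⟩ := key_of_level hγ hγ1 hε hβ0 (by linarith) L hL2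
  obtain ⟨N1, hN1⟩ := exists_big hε0 (max 1 (max m1 m2))
  obtain ⟨N2, hN2⟩ := exists_nat_ge (32 / κ)
  refine ⟨η, hη0, max (max N0 N1) (max N2 1000), ?_⟩
  intro V _ S V0 ρ hρ1 hρ2 hN hV hb hd hne a b c d hab hb' hcd hc'
  simp only [max_le_iff] at hN
  obtain ⟨⟨n0, n1⟩, n2, n3⟩ := hN
  have : Nonempty V := ⟨a⟩
  have hn0 : (0 : ℝ) < V0.card := by exact_mod_cast (by omega : 0 < V0.card)
  have hn3 : (1000 : ℝ) ≤ V0.card := by exact_mod_cast n3
  have hn2 : 32 ≤ κ * V0.card := by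
    rw [div_le_iff₀ hκ] at hN2
    have : (N2 : ℝ) ≤ V0.card := by exact_mod_cast n2
    nlinarith
  have common : ∀ U ⊆ V0, ε0 * V0.card ≤ U.card → (∀ i, Inh V0 U η (testNE S V0 κ i)) →
      m1 ≤ U.card ∧ m2 ≤ U.card ∧ 0 < U.card ∧
      (∀ v u, S.bdeg v u U ≤ (ρ * (1 / 6 - γ) + η) * U.card) ∧
      (∀ v ∈ U, ρ * (1 / 2 - 2 * η) * U.card ≤ S.deg v U) ∧
      (∀ v ∈ U, (1 / 2 - 2 * η) * U.card ≤ S.deg v U) ∧ NE S U k := by
    intro U hU hUc hI
    have e0 := hN1 _ _ n1 hUc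
    simp only [max_le_iff] at e0
    have hUp : (0 : ℝ) ≤ U.card := Nat.cast_nonneg _
    have e1 : ∀ v ∈ U, ρ * (1 / 2 - 2 * η) * U.card ≤ S.deg v U := by
      intro v hv
      have f1 := (hI (v, v, 0)).lower _ (hd v (hU hv))
      have f2 : η * U.card ≤ ρ * (η * U.card) := le_mul_of_one_le_left (by positivity) hρ1
      change _ ≤ S.deg v U at f1
      linarith
    have e2 : ∀ v ∈ U, (1 / 2 - 2 * η) * U.card ≤ S.deg v U := by
      intro v hv
      have f2 : (1 / 2 - 2 * η) * U.card ≤ ρ * ((1 / 2 - 2 * η) * U.card) :=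
        le_mul_of_one_le_left (mul_nonneg (by linarith) hUp) hρ1
      linarith [e1 v hv]
    refine ⟨e0.2.1, e0.2.2, e0.1, fun v u => (hI (v, u, 1)).upper _ (hb v u), e1, e2, ?_⟩
    rw [hk]
    exact ne_inherit hκ hκ1 hη0.le (by linarith) (by linarith) e0.1 hne e2
      (fun x => hI (x, x, 0)) (fun x y => hI (x, y, 2)) (fun x y => hI (x, y, 3))
  have hρn : (V0.card : ℝ) ≤ ρ * V0.card := le_mul_of_one_le_left hn0.le hρ1
  have hργ : γ * V0.card ≤ ρ * (γ * V0.card) := le_mul_of_one_le_left (by positivity) hρ1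
  have hρη : ρ * (η * V0.card) ≤ 2 * (η * V0.card) :=
    mul_le_mul_of_nonneg_right hρ2 (by positivity)
  have hηn : η * V0.card ≤ κ / 64000 * V0.card := mul_le_mul_of_nonneg_right (by linarith) hn0.le
  have hκn : κ * V0.card ≤ 1 / 10 * V0.card := mul_le_mul_of_nonneg_right hκ1 hn0.le
  have hγn : 0 ≤ γ * V0.card := by positivity
  refine hN0 V (V × V × Fin 4) V S V0 (testNE S V0 κ)
    (fun v => (ρ * (1 / 6 - γ) + γ) * V0.card ≤ S.deg v V0) (fun _ => 0) V0 (fun v => [v])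
    (fun _ => []) n0 ?_ ?_ ?_ (by simp) (by simp) ?_ ?_ ?_ ?_ a b c d hab hb' hcd hc' (by simp)
  · simp only [Fintype.card_prod, Fintype.card_fin]
    exact card_test_le hV (by omega) le_rfl
  · nlinarith
  · intro v hv
    linarith [hd v hv]
  · intro U hU hUc hI
    obtain ⟨a1, -, a3, a4, a5, a6, a7⟩ := common U hU hUc hI
    have hUp : (0 : ℝ) ≤ U.card := Nat.cast_nonneg _
    refine (hconn V S U (ρ * (1 / 6 - γ) + η) a1 ?_ a4 (fun v hv => ?_)
      (cut_of_ne hk0 (by nlinarith) (by linarith) a7 a6)).mono fun v hv => ?_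
    · have : 0 ≤ ρ * (1 / 6 - γ) := mul_nonneg (by linarith) (by linarith)
      linarith
    · refine le_trans (mul_le_mul_of_nonneg_right ?_ hUp) (a5 v hv)
      have : 1 / 6 + 2 * γ - 2 * η ≤ ρ * (1 / 6 + 2 * γ - 2 * η) :=
        le_mul_of_one_le_left (by linarith) hρ1
      linarith
    · have f1 := (hI (v, v, 0)).lower _ hv
      change _ ≤ S.deg v U at f1
      refine le_trans (mul_le_mul_of_nonneg_right (by linarith) hUp) f1
  · intro U hU hUc hI _
    obtain ⟨-, a2, a3, a4, a5, a6, a7⟩ := common U hU hUc hI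
    have hUp : (0 : ℝ) ≤ U.card := Nat.cast_nonneg _
    refine hkey V S U ρ hρ1 hρ2 a2 (fun v u => (a4 v u).trans
      (mul_le_mul_of_nonneg_right (by linarith) hUp)) (fun v hv => ?_) ?_
    · refine le_trans (mul_le_mul_of_nonneg_right ?_ hUp) (a5 v hv)
      have : ρ * (1 / 3) ≤ ρ * (1 / 2 - 2 * η) := mul_le_mul_of_nonneg_left (by linarith) (by linarith)
      linarith
    · intro τ σ t1 t2 t3 t4
      refine level_of_ne (γ := γ / 2) (η := 2 * η) hρ1 (by positivity) (by linarith) (by linarith)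
        hβ0.le hβ2 (by linarith) a3 a5 t1 t2 t3 t4 a7 ?_ (by linarith)
      rw [div_le_iff₀ (by positivity)]
      linarith
  · intro A hA
    refine keyChoice_single hκ (by omega) hb (fun v hv => ?_) (fun v hv => ?_) hne
    · linarith [hd v hv]
    · linarith [hd v hv]
  · intro W hW _
    refine ⟨W.toList, fun u hu => hW (Finset.mem_toList.1 hu), by simp, ?_⟩
    simp

end Pool.Agent.Lib.MP_ac307a_co
end

-- part Pool.Agent.Lib.MP_ac307a_co.Clique
section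

/-! The extremal case of two cliques. -/

namespace Pool.Agent.Lib.MP_ac307a_co

open Classical Sys

variable {V : Type}

/-- a compatible Hamilton cycle, as a closed link -/
def HamCyc [Fintype V] (S : Sys V) : Prop :=
  ∃ (a b : V) (l : List V), S.adj a b ∧ (a :: b :: l).Perm (Finset.univ : Finset V).toList ∧
    Lk S.R a b l a b

theorem count_toList (s : Finset V) (x : V) : s.toList.count x = if x ∈ s then 1 else 0 := by
  split_ifs with h
  · exact List.count_eq_one_of_mem (Finset.nodup_toList s) (Finset.mem_toList.2 h)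
  · exact List.count_eq_zero_of_not_mem fun h' => h (Finset.mem_toList.1 h')

theorem pick {S : Sys V} {U Z : Finset V} (z w : V) (h : S.bdeg z w U + Z.card < S.deg z U) :
    ∃ p ∈ U, p ∉ Z ∧ S.adj z p ∧ ¬ S.bad z w p := by
  by_contra hcon
  push Not at hcon
  have : S.nb z U ⊆ S.bd z w U ∪ Z := by
    intro x hx
    rw [mem_nb] at hx
    by_cases hz : x ∈ Z
    · exact Finset.mem_union_right _ hz
    · exact Finset.mem_union_left _ (mem_bd.2 ⟨hx.1, hcon x hx.1 hz hx.2⟩)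
  have h1 := (Finset.card_le_card this).trans (Finset.card_union_le _ _)
  unfold bdeg deg at h
  have : ((S.nb z U).card : ℝ) ≤ (S.bd z w U).card + Z.card := by exact_mod_cast h1
  linarith

theorem card_insert_le' (p : V) (Z : Finset V) : ((insert p Z).card : ℝ) ≤ Z.card + 1 := by
  exact_mod_cast Finset.card_insert_le p Z

theorem ext_single {S : Sys V} {U Z : Finset V} {M : ℝ} (hb : ∀ v u, S.bdeg v u U ≤ M) {z : V}
    (h : M + Z.card + 1 < S.deg z U) :
    ∃ p ∈ U, ∃ q ∈ U, p ∉ Z ∧ q ∉ Z ∧ p ≠ q ∧ S.R p z q := by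
  obtain ⟨p, hp, hpZ, h1, -⟩ := pick (S := S) (U := U) (Z := Z) z z (by linarith [hb z z])
  obtain ⟨q, hq, hqZ, h2, h3⟩ := pick (S := S) (U := U) (Z := insert p Z) z p
    (by linarith [hb z p, card_insert_le' p Z])
  rw [Finset.mem_insert, not_or] at hqZ
  exact ⟨p, hp, q, hq, hpZ, hqZ.2, fun h => hqZ.1 h.symm, S.adj_symm h1, h2, h3⟩

theorem card_le_sdiff (T Z : Finset V) : (T.card : ℝ) ≤ (T \ Z).card + Z.card := by
  exact_mod_cast (Finset.card_le_card_sdiff_add_card : T.card ≤ (T \ Z).card + Z.card)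

theorem deg_le_sdiff {S : Sys V} (v : V) (T Z : Finset V) :
    S.deg v T ≤ S.deg v (T \ Z) + Z.card := by
  have h1 := deg_le_add (S := S) v T (T \ Z)
  have h2 : ((T \ (T \ Z)).card : ℝ) ≤ Z.card := by
    exact_mod_cast Finset.card_le_card fun x hx => by
      simp only [Finset.mem_sdiff] at hx
      tauto
  linarith

theorem ne_of_complete {S : Sys V} {U : Finset V}
    (hd : ∀ v ∈ U, 9 / 10 * U.card ≤ S.deg v U) : NE S U (1 / 10) := by
  intro X hX Y hY h1 h2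
  have h0 : (0 : ℝ) ≤ U.card := Nat.cast_nonneg _
  have e1 := ec_ge (S := S) (X := X) (Y := Y) (t := 3 / 10 * U.card) fun x hx => by
    have f1 := deg_le_add (S := S) x U Y
    rw [Finset.card_sdiff_of_subset hY, Nat.cast_sub (Finset.card_le_card hY)] at f1
    linarith [hd x (hX hx)]
  have e2 : (1 / 2 - 1 / 10 : ℝ) * U.card * (3 / 10 * U.card) ≤ X.card * (3 / 10 * U.card) :=
    mul_le_mul_of_nonneg_right h1 (by positivity)
  nlinarith

theorem count_split {X T : Finset V} (hTX : T ⊆ X) (Z : Finset V) (x : V) :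
    (X \ Z).toList.count x = (T \ Z).toList.count x + ((X \ T) \ Z).toList.count x := by
  simp only [count_toList, Finset.mem_sdiff]
  have := @hTX x
  by_cases b1 : x ∈ X <;> by_cases b2 : x ∈ T <;> by_cases b3 : x ∈ Z <;> simp_all

theorem clique_side {γ : ℝ} (hγ : 0 < γ) (hγ1 : γ ≤ 1 / 12) :
    ∃ ν : ℝ, 0 < ν ∧ ∃ N : ℕ, ∀ (V : Type) [Fintype V] (S : Sys V) (X T : Finset V),
      N ≤ Fintype.card V → (∀ v u, S.bdeg v u Finset.univ ≤ (1 / 6 - γ) * Fintype.card V) →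
      T ⊆ X → ((X \ T).card : ℝ) ≤ 2 * ν * Fintype.card V →
      (1 / 2 - 2 * ν) * Fintype.card V ≤ T.card → (T.card : ℝ) ≤ (1 / 2 + 2 * ν) * Fintype.card V →
      (∀ v ∈ T, (1 / 2 - 2 * ν) * Fintype.card V ≤ S.deg v T) →
      (∀ v ∈ X, 1 / 5 * Fintype.card V ≤ S.deg v T) →
      ∀ x1 ∈ X, ∀ x2 ∈ X, ∀ y1 y2, S.adj y1 x1 → S.adj x2 y2 →
        ∃ l : List V, l.Perm (X \ {x1, x2}).toList ∧ Lk S.R y1 x1 l x2 y2 := by
  obtain ⟨K, m1, hconn⟩ := connect (γ := γ / 2) (θ' := (γ / 2) ^ 2 / 2 * (1 / 10) / 2)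
    (by positivity) (by linarith) (by positivity)
  obtain ⟨η, hη, N1, hham⟩ := hamNE (γ := γ / 2) (κ := 1 / 10) (by positivity) (by linarith)
    (by norm_num) le_rfl
  obtain ⟨δ, hδ⟩ : ∃ δ : ℝ, δ = min (η / 2) (min γ (1 / 100)) := ⟨_, rfl⟩
  have hδ0 : 0 < δ := by rw [hδ]; exact lt_min (by positivity) (lt_min hγ (by norm_num))
  have hδ1 : δ ≤ η / 2 := by rw [hδ]; exact min_le_left _ _
  have hδ2 : δ ≤ γ := by rw [hδ]; exact (min_le_right _ _).trans (min_le_left _ _)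
  have hδ3 : δ ≤ 1 / 100 := by rw [hδ]; exact (min_le_right _ _).trans (min_le_right _ _)
  obtain ⟨ν, hν⟩ : ∃ ν : ℝ, ν = δ / (6 * (K + 2)) := ⟨_, rfl⟩
  have hK0 : (0 : ℝ) ≤ K := Nat.cast_nonneg _
  have hν0 : 0 < ν := by rw [hν]; positivity
  have hν1 : ν * (6 * (K + 2)) = δ := by rw [hν]; field_simp
  have hν2 : 12 * ν ≤ δ := by nlinarith
  obtain ⟨N2, hN2⟩ := exists_nat_ge (6 / δ)
  refine ⟨ν, hν0, max N2 (3 * max m1 N1), ?_⟩
  intro V _ S X T hN hb hTX hXT hT1 hT2 hdT hdX x1 hx1 x2 hx2 y1 y2 ha1 ha2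
  simp only [max_le_iff] at hN
  obtain ⟨n, hn⟩ : ∃ n : ℝ, n = Fintype.card V := ⟨_, rfl⟩
  have hδn : 6 ≤ δ * n := by
    rw [div_le_iff₀ hδ0] at hN2
    have : (N2 : ℝ) ≤ n := by rw [hn]; exact_mod_cast hN.1
    nlinarith
  have hn0 : 0 < n := by
    by_contra h
    push Not at h
    nlinarith
  rw [← hn] at hb hXT hT1 hT2 hdT hdX
  have hνn : 12 * ν * n ≤ δ * n := mul_le_mul_of_nonneg_right hν2 hn0.le
  have hδn3 : δ * n ≤ 1 / 100 * n := mul_le_mul_of_nonneg_right hδ3 hn0.le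
  have hδn2 : δ * n ≤ γ * n := mul_le_mul_of_nonneg_right hδ2 hn0.le
  have hγn : γ * n ≤ 1 / 12 * n := mul_le_mul_of_nonneg_right hγ1 hn0.le
  have hνn0 : 0 ≤ ν * n := by positivity
  obtain ⟨A, hA⟩ : ∃ A : ℕ, A = ⌊δ / 3 * n⌋₊ := ⟨_, rfl⟩
  have hA1 : (A : ℝ) ≤ δ / 3 * n := by rw [hA]; exact Nat.floor_le (by positivity)
  set V1 := T \ {x1, x2} with hV1
  have hc2 : ((({x1, x2} : Finset V).card : ℕ) : ℝ) ≤ 2 := by exact_mod_cast Finset.card_le_two
  have facts : ∀ Used : Finset V, Used.card ≤ A →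
      (∀ v u, S.bdeg v u (V1 \ Used) ≤ 2 * (1 / 6 - γ / 2) * (V1 \ Used).card) ∧
      (∀ v ∈ V1 \ Used, (1 - 4 * δ) * (V1 \ Used).card ≤ S.deg v (V1 \ Used)) ∧
      (∀ v ∈ X, (2 * (1 / 6 - γ / 2) + γ / 2) * (V1 \ Used).card ≤ S.deg v (V1 \ Used)) ∧
      Fintype.card V ≤ 3 * (V1 \ Used).card := by
    intro Used hU
    have hU' : (Used.card : ℝ) ≤ A := by exact_mod_cast hU
    have e1 := card_le_sdiff T {x1, x2}
    have e2 := card_le_sdiff V1 Used
    have e3 : ((V1 \ Used).card : ℝ) ≤ T.card := by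
      exact_mod_cast Finset.card_le_card (Finset.sdiff_subset.trans Finset.sdiff_subset)
    have e4 : ∀ v, S.deg v T ≤ S.deg v (V1 \ Used) + 2 / 3 * δ * n := by
      intro v
      have f1 := deg_le_sdiff (S := S) v T {x1, x2}
      have f2 := deg_le_sdiff (S := S) v V1 Used
      linarith
    rw [← hV1] at e1
    obtain ⟨m, hm⟩ : ∃ m : ℝ, m = (V1 \ Used).card := ⟨_, rfl⟩
    rw [← hm] at e2 e3 ⊢
    have e5 : (1 / 2 - δ) * n ≤ m := by linarith
    have e6 : m ≤ (1 / 2 + δ) * n := by linarith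
    refine ⟨fun v u => ?_, fun v hv => ?_, fun v hv => ?_, ?_⟩
    · refine ((bdeg_mono v u (Finset.subset_univ _)).trans (hb v u)).trans ?_
      have f1 := mul_le_mul_of_nonneg_left e5 (by linarith : 0 ≤ 2 * (1 / 6 - γ / 2))
      have f2 : 0 ≤ γ * δ * n := by positivity
      linarith
    · have f1 := mul_le_mul_of_nonneg_left e6 (by linarith : 0 ≤ 1 - 4 * δ)
      have f2 : 0 ≤ δ * δ * n := by positivity
      linarith [hdT v (Finset.mem_sdiff.1 (Finset.mem_sdiff.1 hv).1).1, e4 v]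
    · have f1 : (2 * (1 / 6 - γ / 2) + γ / 2) * m ≤ 1 / 3 * m :=
        mul_le_mul_of_nonneg_right (by linarith) (by linarith)
      linarith [hdX v hv, e4 v]
    · have : (Fintype.card V : ℝ) ≤ 3 * (V1 \ Used).card := by rw [← hn, ← hm]; linarith
      exact_mod_cast this
  have hitems : ((X \ T) \ {x1, x2}).card * (K + 2) ≤ A := by
    rw [hA]
    refine Nat.le_floor ?_
    push_cast
    have e1 : (((X \ T) \ {x1, x2}).card : ℝ) ≤ (X \ T).card := by
      exact_mod_cast Finset.card_le_card Finset.sdiff_subset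
    have e2 : (((X \ T) \ {x1, x2}).card : ℝ) * (K + 2) ≤ 2 * ν * n * (K + 2) :=
      mul_le_mul_of_nonneg_right (by linarith) (by positivity)
    have e3 : 2 * ν * n * (K + 2) = δ / 3 * n := by rw [← hν1]; ring
    linarith
  obtain ⟨l, w, c, d, p1, p2, p3, p4, p5, p6, p7, -⟩ := precover (S := S) (S' := S)
    (fun _ _ _ h => h) (V1 := V1) (K := K) (A := A) (Home := fun v => v ∈ X)
    (fun v hv => hTX (Finset.mem_sdiff.1 hv).1) (bal := fun _ => 0) (by simp)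
    (fun Used hU => by
      obtain ⟨f1, f2, f3, f4⟩ := facts Used hU
      have f0 : (0 : ℝ) ≤ (V1 \ Used).card := Nat.cast_nonneg _
      refine (hconn V S (V1 \ Used) (2 * (1 / 6 - γ / 2)) (by omega) (by linarith) f1
        (fun v hv => le_trans (mul_le_mul_of_nonneg_right (by linarith) f0) (f2 v hv))
        (cut_of_ne (e := 0) (by norm_num) (by nlinarith) (by norm_num)
          (ne_of_complete fun v hv =>
            le_trans (mul_le_mul_of_nonneg_right (by linarith) f0) (f2 v hv))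
          fun v hv => le_trans (mul_le_mul_of_nonneg_right (by linarith) f0) (f2 v hv))).mono f3)
    ha1 hx1 (((X \ T) \ {x1, x2}).toList.map fun z => (z, [])) (by simpa using hitems) (by
      intro it hit Used hU
      rw [List.mem_map] at hit
      obtain ⟨z, hz, rfl⟩ := hit
      have hU' : (Used.card : ℝ) ≤ A := by exact_mod_cast hU
      have hzX : z ∈ X := (Finset.mem_sdiff.1 (Finset.mem_sdiff.1 (Finset.mem_toList.1 hz)).1).1
      obtain ⟨p, hp, q, hq, a1, a2, a3, a4⟩ := ext_single (S := S) (U := V1) (Z := Used) (z := z)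
        (fun v u => (bdeg_mono v u (Finset.subset_univ _)).trans (hb v u)) (by
          have f1 := deg_le_sdiff (S := S) z T {x1, x2}
          have f2 : 0 ≤ γ * n := by positivity
          linarith [hdX z hzX])
      exact ⟨p, hp, q, hq, a1, a2, a3, z, a4.1, ⟨a4, rfl, rfl⟩, a4.2.1, rfl⟩)
  obtain ⟨f1, f2, f3, f4⟩ := facts l.toFinset (by
    have := List.toFinset_card_le l
    simp only [List.length_map, Finset.length_toList] at p3
    omega)
  have f0 : (0 : ℝ) ≤ (V1 \ l.toFinset).card := Nat.cast_nonneg _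
  obtain ⟨l2, q1, q2⟩ := hham V S (V1 \ l.toFinset) 2 (by norm_num) le_rfl (by omega) f4 f1
    (fun v hv => le_trans (mul_le_mul_of_nonneg_right (by linarith) f0) (f2 v hv))
    (ne_of_complete fun v hv => le_trans (mul_le_mul_of_nonneg_right (by linarith) f0) (f2 v hv))
    c d x2 y2 p6 (f3 d p7) ha2 (f3 x2 hx2)
  refine ⟨w ++ l2, ?_, p4.trans_lk q2⟩
  have e1 := toList_perm_sdiff p1 p2
  have e2 : (((X \ T) \ {x1, x2}).toList.map fun z => (z, ([] : List V))).flatMap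
      (fun it => it.1 :: it.2) = ((X \ T) \ {x1, x2}).toList := by
    rw [List.flatMap_map]
    simp
  rw [e2] at p5
  rw [List.perm_iff_count] at e1 p5 q1 ⊢
  intro x
  have g1 := e1 x
  have g2 := p5 x
  have g3 := q1 x
  simp only [List.count_append] at g1 g2 g3 ⊢
  have g4 := count_split hTX {x1, x2} x
  rw [← hV1] at g4
  omega

theorem deg_le_pred {S : Sys V} {X : Finset V} {x : V} (hx : x ∈ X) :
    S.deg x X ≤ X.card - 1 := by
  have h1 : S.nb x X ⊆ X.erase x := fun z hz => by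
    rw [mem_nb] at hz
    refine Finset.mem_erase.2 ⟨?_, hz.1⟩
    rintro rfl
    exact S.adj_irrefl hz.2
  have h2 := Finset.card_le_card h1
  have h3 := Finset.card_erase_add_one hx
  unfold deg
  have : ((S.nb x X).card : ℝ) + 1 ≤ X.card := by exact_mod_cast (by omega)
  linarith

theorem deg_compl [Fintype V] {S : Sys V} (v : V) (X : Finset V) :
    S.deg v Finset.univ = S.deg v X + S.deg v Xᶜ := by
  rw [deg_split v (Finset.subset_univ X), Finset.compl_eq_univ_sdiff]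

theorem card_compl' [Fintype V] (X : Finset V) : (X.card : ℝ) + Xᶜ.card = Fintype.card V := by
  exact_mod_cast Finset.card_add_card_compl X

theorem exists_adj_of_deg_pos {S : Sys V} {x : V} {Y : Finset V} (h : 0 < S.deg x Y) :
    ∃ y ∈ Y, S.adj x y := by
  unfold deg at h
  obtain ⟨y, hy⟩ := Finset.card_pos.1 (by exact_mod_cast h : 0 < (S.nb x Y).card)
  exact ⟨y, mem_nb.1 hy⟩

theorem cross_aux [Fintype V] {S : Sys V}
    (hD : ∀ v, (Fintype.card V : ℝ) / 2 ≤ S.deg v Finset.univ) {X : Finset V}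
    (h1 : 1 < X.card) (h2 : 1 < Xᶜ.card) (h3 : (X.card : ℝ) ≤ Fintype.card V / 2) :
    ∃ x1 ∈ X, ∃ x2 ∈ X, ∃ y1 ∈ Xᶜ, ∃ y2 ∈ Xᶜ, x1 ≠ x2 ∧ y1 ≠ y2 ∧ S.adj x1 y1 ∧ S.adj x2 y2 := by
  by_contra hcon
  push Not at hcon
  have nbr : ∀ Z : Finset V, (Z.card : ℝ) ≤ Fintype.card V / 2 → ∀ x ∈ Z, ∃ y ∈ Zᶜ, S.adj x y := by
    intro Z hZ x hx
    refine exists_adj_of_deg_pos ?_
    linarith [deg_compl (S := S) x Z, hD x, deg_le_pred (S := S) hx]
  obtain ⟨x1, hx1, x2, hx2, hne⟩ := Finset.one_lt_card.1 h1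
  obtain ⟨y1, hy1, a1⟩ := nbr X h3 x1 hx1
  have e1 : ∀ x ∈ X, x ≠ x1 → ∀ y ∈ Xᶜ, S.adj x y → y = y1 := by
    intro x hx hxx y hy ha
    by_contra hh
    exact hcon x hx x1 hx1 y hy y1 hy1 hxx hh ha a1
  obtain ⟨y2, hy2, a2⟩ := nbr X h3 x2 hx2
  obtain rfl := e1 x2 hx2 hne.symm y2 hy2 a2
  have e2 : ∀ x ∈ X, ∀ y ∈ Xᶜ, S.adj x y → y = y2 := by
    intro x hx y hy ha
    by_cases hxx : x = x1
    · subst hxx
      by_contra hh
      exact hcon x hx x2 hx2 y hy y2 hy2 hne hh ha a2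
    · exact e1 x hx hxx y hy ha
  have e3 : S.deg x1 Xᶜ ≤ 1 := by
    unfold deg
    have : S.nb x1 Xᶜ ⊆ {y2} := fun y hy => by
      rw [mem_nb] at hy
      exact Finset.mem_singleton.2 (e2 x1 hx1 y hy.1 hy.2)
    exact_mod_cast Finset.card_le_card this
  have e4 : (Xᶜ.card : ℝ) ≤ Fintype.card V / 2 := by
    linarith [deg_compl (S := S) x1 X, hD x1, deg_le_pred (S := S) hx1, card_compl' X]
  obtain ⟨y, hy, hyy⟩ := Finset.exists_mem_ne h2 y2
  obtain ⟨x, hx, a3⟩ := nbr Xᶜ e4 y hy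
  rw [compl_compl] at hx
  exact hyy (e2 x hx y hy (S.adj_symm a3))

theorem cross [Fintype V] {S : Sys V}
    (hD : ∀ v, (Fintype.card V : ℝ) / 2 ≤ S.deg v Finset.univ) {X : Finset V}
    (h1 : 1 < X.card) (h2 : 1 < Xᶜ.card) :
    ∃ x1 ∈ X, ∃ x2 ∈ X, ∃ y1 ∈ Xᶜ, ∃ y2 ∈ Xᶜ, x1 ≠ x2 ∧ y1 ≠ y2 ∧ S.adj x1 y1 ∧ S.adj x2 y2 := by
  by_cases h3 : (X.card : ℝ) ≤ Fintype.card V / 2
  · exact cross_aux hD h1 h2 h3
  · obtain ⟨y1, a1, y2, a2, x1, a3, x2, a4, a5, a6, a7, a8⟩ := cross_aux hD (X := Xᶜ) h2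
      (by rwa [compl_compl]) (by linarith [card_compl' X])
    rw [compl_compl] at a3 a4
    exact ⟨x1, a3, x2, a4, y1, a1, y2, a2, a6, a5, S.adj_symm a7, S.adj_symm a8⟩

theorem markov {S : Sys V} {X Y : Finset V} {ν n : ℝ} (hν : 0 < ν) (hn : 0 < n)
    (h : S.ec X Y ≤ ν ^ 2 * n ^ 2) :
    ((X \ X.filter fun x => S.deg x Y ≤ ν * n).card : ℝ) ≤ ν * n := by
  have e1 := ec_ge (S := S) (X := X \ X.filter fun x => S.deg x Y ≤ ν * n) (Y := Y) (t := ν * n)
    fun x hx => by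
      simp only [Finset.mem_sdiff, Finset.mem_filter, not_and, not_le] at hx
      exact (hx.2 hx.1).le
  have e2 := ec_mono (S := S) (Finset.sdiff_subset : (X \ X.filter fun x => S.deg x Y ≤ ν * n) ⊆ X)
    (Finset.Subset.refl Y)
  have : ((X \ X.filter fun x => S.deg x Y ≤ ν * n).card : ℝ) * (ν * n) ≤ ν * n * (ν * n) := by
    linarith
  exact le_of_mul_le_mul_right this (by positivity)

theorem clique_case {γ : ℝ} (hγ : 0 < γ) (hγ1 : γ ≤ 1 / 12) :
    ∃ ν0 : ℝ, 0 < ν0 ∧ ∃ N : ℕ, ∀ (V : Type) [Fintype V] (S : Sys V) (X : Finset V),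
      N ≤ Fintype.card V → (∀ v u, S.bdeg v u Finset.univ ≤ (1 / 6 - γ) * Fintype.card V) →
      (∀ v, (Fintype.card V : ℝ) / 2 ≤ S.deg v Finset.univ) →
      (1 / 2 - ν0) * Fintype.card V ≤ X.card → (X.card : ℝ) ≤ (1 / 2 + ν0) * Fintype.card V →
      S.ec X Xᶜ ≤ ν0 * (Fintype.card V : ℝ) ^ 2 → HamCyc S := by
  obtain ⟨ν1, hν1, N, hside⟩ := clique_side hγ hγ1
  obtain ⟨ν, hν⟩ : ∃ ν : ℝ, ν = min ν1 (1 / 100) := ⟨_, rfl⟩
  have hν0 : 0 < ν := by rw [hν]; exact lt_min hν1 (by norm_num)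
  have hν2 : ν ≤ ν1 := by rw [hν]; exact min_le_left _ _
  have hν3 : ν ≤ 1 / 100 := by rw [hν]; exact min_le_right _ _
  refine ⟨ν ^ 2, by positivity, max N 10, ?_⟩
  intro V _ S X hN hb hD hX1 hX2 hec
  rw [max_le_iff] at hN
  have hside' := hside V S
  have hcc := card_compl' X
  obtain ⟨n, hn⟩ : ∃ n : ℝ, n = Fintype.card V := ⟨_, rfl⟩
  have hn10 : 10 ≤ n := by rw [hn]; exact_mod_cast hN.2
  have hn0 : 0 < n := by linarith
  have hD' := hD
  rw [← hn] at hD hX1 hX2 hec hside' hcc hb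
  have g1 : ν ^ 2 * n ≤ ν * n := mul_le_mul_of_nonneg_right (by nlinarith) hn0.le
  have g2 : ν * n ≤ ν1 * n := mul_le_mul_of_nonneg_right hν2 hn0.le
  have g3 : ν * n ≤ 1 / 100 * n := mul_le_mul_of_nonneg_right hν3 hn0.le
  have g4 : 0 ≤ ν * n := by positivity
  have m1 := markov hν0 hn0 hec
  have m2 := markov hν0 hn0 (by rwa [ec_comm] at hec)
  set T1 := X.filter fun x => S.deg x Xᶜ ≤ ν * n with hT1
  set T2 := Xᶜ.filter fun x => S.deg x X ≤ ν * n with hT2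
  set X1 := Finset.univ.filter fun v => S.deg v Xᶜ ≤ S.deg v X with hX1d
  have dc : ∀ v, n / 2 ≤ S.deg v X + S.deg v Xᶜ := fun v => by
    linarith [deg_compl (S := S) v X, hD v]
  have s1 : T1 ⊆ X1 := fun v hv => by
    simp only [hT1, hX1d, Finset.mem_filter, Finset.mem_univ, true_and] at hv ⊢
    linarith [dc v, hv.2]
  have s2 : T2 ⊆ X1ᶜ := fun v hv => by
    simp only [hT2, hX1d, Finset.mem_filter, Finset.mem_univ, true_and, Finset.mem_compl,
      not_le] at hv ⊢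
    linarith [dc v, hv.2]
  have ex : ∀ Z T T' : Finset V, Disjoint Z T' → T ∪ T' = T1 ∪ T2 →
      ((Z \ T).card : ℝ) ≤ 2 * ν1 * n := by
    intro Z T T' hd hu
    have : Z \ T ⊆ (X \ T1) ∪ (Xᶜ \ T2) := by
      intro v hv
      rw [Finset.mem_sdiff] at hv
      have b1 : v ∉ T1 ∪ T2 := by
        rw [← hu, Finset.mem_union, not_or]
        exact ⟨hv.2, Finset.disjoint_left.1 hd hv.1⟩
      simp only [Finset.mem_union, Finset.mem_sdiff, Finset.mem_compl] at b1 ⊢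
      tauto
    have e1 := (Finset.card_le_card this).trans (Finset.card_union_le _ _)
    have e2 : ((Z \ T).card : ℝ) ≤ (X \ T1).card + (Xᶜ \ T2).card := by exact_mod_cast e1
    linarith
  have k1 : (T1.card : ℝ) ≤ X.card := by exact_mod_cast Finset.card_filter_le _ _
  have k2 : (T2.card : ℝ) ≤ Xᶜ.card := by exact_mod_cast Finset.card_filter_le _ _
  have k3 : (X.card : ℝ) ≤ (X \ T1).card + T1.card := card_le_sdiff _ _
  have k4 : (Xᶜ.card : ℝ) ≤ (Xᶜ \ T2).card + T2.card := card_le_sdiff _ _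
  have k5 : ∀ v, S.deg v X ≤ S.deg v T1 + ν * n := fun v => by
    linarith [deg_le_add (S := S) v X T1]
  have k6 : ∀ v, S.deg v Xᶜ ≤ S.deg v T2 + ν * n := fun v => by
    linarith [deg_le_add (S := S) v Xᶜ T2]
  obtain ⟨x1, a1, x2, a2, y1, a3, y2, a4, a5, a6, a7, a8⟩ := cross hD' (X := X1) (by
      have e1 : (T1.card : ℝ) ≤ X1.card := by exact_mod_cast Finset.card_le_card s1
      have : (1 : ℝ) < X1.card := by linarith
      exact_mod_cast this) (by
      have e1 : (T2.card : ℝ) ≤ X1ᶜ.card := by exact_mod_cast Finset.card_le_card s2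
      have : (1 : ℝ) < X1ᶜ.card := by linarith
      exact_mod_cast this)
  obtain ⟨l1, p1, p2⟩ := hside' X1 T1 hN.1 hb s1
    (ex X1 T1 T2 (Finset.disjoint_of_subset_right s2 disjoint_compl_right) rfl) (by linarith)
    (by linarith) (fun v hv => by linarith [k5 v, dc v, (Finset.mem_filter.1 hv).2])
    (fun v hv => by linarith [k5 v, dc v, (Finset.mem_filter.1 hv).2]) x1 a1 x2 a2 y1 y2
    (S.adj_symm a7) a8
  obtain ⟨l2, q1, q2⟩ := hside' X1ᶜ T2 hN.1 hb s2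
    (ex X1ᶜ T2 T1 (Finset.disjoint_of_subset_right s1 disjoint_compl_left)
      (Finset.union_comm _ _)) (by linarith)
    (by linarith) (fun v hv => by linarith [k6 v, dc v, (Finset.mem_filter.1 hv).2])
    (fun v hv => by
      simp only [hX1d, Finset.mem_compl, Finset.mem_filter, Finset.mem_univ, true_and,
        not_le] at hv
      linarith [k6 v, dc v]) y2 a4 y1 a3 x2 x1 a8 (S.adj_symm a7)
  refine ⟨y1, x1, _, S.adj_symm a7, ?_, p2.trans q2⟩
  rw [List.perm_iff_count] at p1 q1 ⊢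
  intro x
  have g1 := p1 x
  have g2 := q1 x
  rw [Finset.mem_compl] at a3 a4
  have n1 : x1 ≠ y1 := fun h => a3 (h ▸ a1)
  have n2 : x1 ≠ y2 := fun h => a4 (h ▸ a1)
  have n3 : x2 ≠ y1 := fun h => a3 (h ▸ a2)
  have n4 : x2 ≠ y2 := fun h => a4 (h ▸ a2)
  simp only [List.count_append, List.count_cons, g1, g2, count_toList, Finset.mem_sdiff,
    Finset.mem_insert, Finset.mem_singleton, Finset.mem_compl, Finset.mem_univ, beq_iff_eq]
  by_cases b1 : x = x1
  · subst b1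
    simp [a1, a5.symm, n1.symm, n2.symm]
  by_cases b2 : x = x2
  · subst b2
    simp [a2, a5, n3.symm, n4.symm]
  by_cases b3 : x = y1
  · subst b3
    simp [a3, a6.symm, n1, n3]
  by_cases b4 : x = y2
  · subst b4
    simp [a4, a6, n2, n4]
  by_cases b5 : x ∈ X1 <;> simp [b1, b2, b3, b4, b5, Ne.symm b1, Ne.symm b2, Ne.symm b3, Ne.symm b4]

end Pool.Agent.Lib.MP_ac307a_co
end

-- part Pool.Agent.Lib.MP_ac307a_co.Matching
section

/-! A matching lemma. -/

namespace Pool.Agent.Lib.MP_ac307a_co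

open Classical Sys

variable {V : Type}

/-- the vertices of a list of pairs -/
def flat (Mt : List (V × V)) : List V := Mt.flatMap fun p => [p.1, p.2]

@[simp] theorem flat_nil : flat ([] : List (V × V)) = [] := rfl

@[simp] theorem flat_cons (p : V × V) (Mt : List (V × V)) :
    flat (p :: Mt) = p.1 :: p.2 :: flat Mt := rfl

theorem flat_length (Mt : List (V × V)) : (flat Mt).length = 2 * Mt.length := by
  induction Mt with
  | nil => simp
  | cons p Mt ih => simp [ih]; omega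

theorem mem_flat {Mt : List (V × V)} {x : V} : x ∈ flat Mt ↔ ∃ p ∈ Mt, x = p.1 ∨ x = p.2 := by
  simp [flat]

theorem ls_flat_le {y : V → ℝ} {D : ℝ} {Mt : List (V × V)} (h : ∀ p ∈ Mt, y p.1 + y p.2 ≤ D) :
    ls y (flat Mt) ≤ Mt.length * D := by
  induction Mt with
  | nil => simp
  | cons p Mt ih =>
    have h1 := h p (by simp)
    have h2 := ih fun q hq => h q (by simp [hq])
    simp only [flat_cons, ls_cons, List.length_cons]
    push_cast
    linarith

theorem matching {S : Sys V} {B : Finset V} {k : ℕ} {D h : ℝ} (hmin : ∀ v ∈ B, h ≤ S.deg v B)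
    (hmax : ∀ v ∈ B, S.deg v B ≤ D) (hD : 2 ≤ D)
    (hnum : ∀ r : ℕ, r < k → r * D < (B.card - 2 * r) * h) :
    ∀ r ≤ k, ∃ Mt : List (V × V), Mt.length = r ∧ (flat Mt).Nodup ∧
      ∀ p ∈ Mt, S.adj p.1 p.2 ∧ p.1 ∈ B ∧ p.2 ∈ B := by
  intro r
  induction r with
  | zero => intro _; exact ⟨[], rfl, by simp, by simp⟩
  | succ r ih =>
    intro hr
    obtain ⟨Mt, h1, h2, h3⟩ := ih (by omega)
    have hsub : ∀ x ∈ flat Mt, x ∈ B := by
      intro x hx
      obtain ⟨p, hp, rfl | rfl⟩ := mem_flat.1 hx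
      · exact (h3 p hp).2.1
      · exact (h3 p hp).2.2
    set O := B \ (flat Mt).toFinset with hO
    have hOm : ∀ x ∈ O, x ∈ B ∧ x ∉ flat Mt := fun x hx => by
      simpa only [hO, Finset.mem_sdiff, List.mem_toFinset] using hx
    by_cases he : ∃ x ∈ O, ∃ y ∈ O, S.adj x y
    · obtain ⟨x, hx, y, hy, hxy⟩ := he
      refine ⟨(x, y) :: Mt, by simp [h1], ?_, ?_⟩
      · simp only [flat_cons, List.nodup_cons, List.mem_cons, not_or]
        refine ⟨⟨?_, (hOm x hx).2⟩, (hOm y hy).2, h2⟩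
        rintro rfl
        exact S.adj_irrefl hxy
      · intro p hp
        rw [List.mem_cons] at hp
        rcases hp with rfl | hp
        · exact ⟨hxy, (hOm x hx).1, (hOm y hy).1⟩
        · exact h3 p hp
    push Not at he
    have hOc : (O.card : ℝ) = B.card - 2 * r := by
      have := card_sdiff_list h2 hsub
      rw [flat_length, h1, ← hO] at this
      have : (O.card : ℝ) + 2 * r = B.card := by exact_mod_cast this
      linarith
    have e1 := ec_ge (S := S) (X := O) (Y := (flat Mt).toFinset) (t := h) fun x hx => by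
      have f1 := deg_split (S := S) x (U := B) (X := (flat Mt).toFinset)
        fun z hz => hsub z (List.mem_toFinset.1 hz)
      have f2 : S.deg x O ≤ 0 := by
        by_contra hh
        obtain ⟨y, hy, hxy⟩ := exists_adj_of_deg_pos (not_le.1 hh)
        exact he x hx y hy hxy
      linarith [hmin x (hOm x hx).1]
    rw [ec_comm, hOc] at e1
    unfold ec at e1
    rw [← ls_eq_sum _ h2] at e1
    obtain ⟨p, hp, hpD⟩ : ∃ p ∈ Mt, D < S.deg p.1 O + S.deg p.2 O := by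
      by_contra hh
      push Not at hh
      have := ls_flat_le (y := fun x => S.deg x O) hh
      rw [h1] at this
      linarith [hnum r (by omega)]
    have d1 : S.deg p.1 O ≤ D := (deg_mono _ Finset.sdiff_subset).trans (hmax _ (h3 p hp).2.1)
    have d2 : S.deg p.2 O ≤ D := (deg_mono _ Finset.sdiff_subset).trans (hmax _ (h3 p hp).2.2)
    obtain ⟨o, ho, o', ho', hne⟩ : ∃ o ∈ S.nb p.1 O, ∃ o' ∈ S.nb p.2 O, o ≠ o' := by
      have c1 : 0 < (S.nb p.1 O).card := by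
        have : 0 < S.deg p.1 O := by linarith
        unfold deg at this
        exact_mod_cast this
      have c2 : 0 < (S.nb p.2 O).card := by
        have : 0 < S.deg p.2 O := by linarith
        unfold deg at this
        exact_mod_cast this
      have c3 : 2 < (S.nb p.1 O).card + (S.nb p.2 O).card := by
        have : 2 < S.deg p.1 O + S.deg p.2 O := by linarith
        unfold deg at this
        exact_mod_cast this
      obtain ⟨o, ho⟩ := Finset.card_pos.1 c1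
      obtain ⟨o', ho'⟩ := Finset.card_pos.1 c2
      by_cases c4 : 1 < (S.nb p.1 O).card
      · obtain ⟨z, hz, hzz⟩ := Finset.exists_mem_ne c4 o'
        exact ⟨z, hz, o', ho', hzz⟩
      · obtain ⟨z, hz, hzz⟩ := Finset.exists_mem_ne (by omega : 1 < (S.nb p.2 O).card) o
        exact ⟨o, ho, z, hz, hzz.symm⟩
    rw [mem_nb] at ho ho'
    have hperm : (flat Mt).Perm (flat (p :: Mt.erase p)) :=
      (List.perm_cons_erase hp).flatMap_right _
    refine ⟨(p.1, o) :: (p.2, o') :: Mt.erase p, ?_, ?_, ?_⟩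
    · have := List.length_erase_of_mem hp
      have := List.length_pos_of_mem hp
      simp only [List.length_cons]
      omega
    · have g1 : (o :: o' :: flat Mt).Nodup := by
        simp only [List.nodup_cons, List.mem_cons, not_or]
        exact ⟨⟨hne, (hOm o ho.1).2⟩, (hOm o' ho'.1).2, h2⟩
      refine (List.Perm.nodup_iff ?_).1 g1
      rw [List.perm_iff_count] at hperm ⊢
      intro x
      have := hperm x
      simp only [flat_cons, List.count_cons] at this ⊢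
      omega
    · intro q hq
      simp only [List.mem_cons] at hq
      rcases hq with rfl | rfl | hq
      · exact ⟨ho.2, (h3 p hp).2.1, (hOm o ho.1).1⟩
      · exact ⟨ho'.2, (h3 p hp).2.2, (hOm o' ho'.1).1⟩
      · exact h3 q (List.mem_of_mem_erase hq)

end Pool.Agent.Lib.MP_ac307a_co
end
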