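import Pool.Agent.Lib.MP_ac307a_co.Defs

/-! The construction showing that the constant is at most one sixth. -/

namespace Pool.Agent.Lib.MP_ac307a_co

variable {V : Type}

/-- all pairs of edges inside `B` at a common vertex -/
def insideSys (G : SimpleGraph V) (B : Finset V) (v : V) : Set (Sym2 (Sym2 V)) :=
  {P | v ∈ B ∧ ∃ u ∈ B, ∃ w ∈ B, u ≠ w ∧ G.Adj v u ∧ G.Adj v w ∧ P = s(s(v, u), s(v, w))}

theorem insideSys_sys (G : SimpleGraph V) (B : Finset V) :
    IsIncompatibilitySystem G (insideSys G B) := by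
  rintro v P ⟨-, u, -, w, -, hne, h1, h2, rfl⟩
  refine ⟨_, _, rfl, fun h => hne (Sym2.congr_right.1 h), h1, h2, fun x => ?_⟩
  simp only [Sym2.mem_iff]
  constructor
  · rintro ⟨h | rfl, h' | h'⟩
    · exact h
    · exact h
    · exact h'
    · exact absurd h' hne
  · rintro rfl
    simp

theorem insideSys_bounded [Fintype V] (G : SimpleGraph V) [DecidableRel G.Adj] (B : Finset V)
    {Δ : ℝ} (h0 : 0 ≤ Δ) (h : ∀ v ∈ B, ((B.filter (G.Adj v)).card : ℝ) ≤ Δ) :
    IsBoundedSystem G (insideSys G B) Δ := by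
  classical
  intro v e _ _
  have hsub : {e' : Sym2 V | e' ∈ G.edgeSet ∧ e' ≠ e ∧ v ∈ e' ∧ Incompatible (insideSys G B) e e'}
      ⊆ {e' | v ∈ B ∧ e' ∈ (B.filter (G.Adj v)).image fun z => s(v, z)} := by
    rintro e' ⟨a1, -, a3, x, hx, u, hu, w, hw, -, -, -, a4⟩
    have hB : ∀ y ∈ e', y ∈ B := by
      intro y hy
      rw [Sym2.eq_iff] at a4
      rcases a4 with ⟨-, rfl⟩ | ⟨-, rfl⟩ <;> rw [Sym2.mem_iff] at hy <;>
        rcases hy with rfl | rfl <;> assumption
    obtain ⟨z, rfl⟩ := Sym2.mem_iff_exists.1 a3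
    exact ⟨hB v a3, Finset.mem_image.2 ⟨z, Finset.mem_filter.2
      ⟨hB z (Sym2.mem_mk_right _ _), a1⟩, rfl⟩⟩
  have h1 := Set.ncard_le_ncard hsub (Set.toFinite _)
  refine le_trans (Nat.cast_le.2 h1) ?_
  by_cases hv : v ∈ B
  · simp only [hv, true_and, Finset.setOfPred_mem, Set.ncard_coe_finset]
    exact le_trans (Nat.cast_le.2 Finset.card_image_le) (h v hv)
  · simpa [hv] using h0

theorem insideSys_not [Fintype V] [DecidableEq V] (G : SimpleGraph V) (B : Finset V)
    (hB : 2 * Bᶜ.card < B.card) : ¬ HasCompatibleHamiltonCycle G (insideSys G B) := by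
  classical
  rintro ⟨a, p, hp, hc⟩
  have two := fun v => hp.isCycle.ncard_neighborSet_toSubgraph_eq_two (hp.mem_support v)
  have ex : ∀ v ∈ B, ∃ x ∈ Bᶜ, p.toSubgraph.Adj x v := by
    intro v hv
    obtain ⟨x, y, hxy, hs⟩ := Set.ncard_eq_two.1 (two v)
    have hx : p.toSubgraph.Adj v x := by
      have : x ∈ p.toSubgraph.neighborSet v := by rw [hs]; simp
      exact this
    have hy : p.toSubgraph.Adj v y := by
      have : y ∈ p.toSubgraph.neighborSet v := by rw [hs]; simp
      exact this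
    by_contra hcon
    push Not at hcon
    have bx : x ∈ B := by
      by_contra h
      exact hcon x (Finset.mem_compl.2 h) hx.symm
    have bY : y ∈ B := by
      by_contra h
      exact hcon y (Finset.mem_compl.2 h) hy.symm
    exact hc s(v, x) (p.mem_edges_toSubgraph.1 hx) s(v, y) (p.mem_edges_toSubgraph.1 hy)
      ⟨v, hv, x, bx, y, bY, hxy, hx.adj_sub, hy.adj_sub, rfl⟩
  choose! f hf1 hf2 using ex
  have := Finset.card_le_mul_card_image_of_maps_to hf1 2 fun x _ => by
    rw [← two x, ← Set.ncard_coe_finset]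
    refine Set.ncard_le_ncard (fun v hv => ?_) (Set.toFinite _)
    rw [Finset.mem_coe, Finset.mem_filter] at hv
    rw [← hv.2]
    exact hf2 v hv.1
  omega

/-- the extremal graph: a small set joined to everything, and a rook graph -/
def extGraph (q p : ℕ) : SimpleGraph (Fin q ⊕ Fin 4 × Fin p) where
  Adj x y := x ≠ y ∧ ∀ x' y', x = Sum.inr x' → y = Sum.inr y' → x'.1 = y'.1 ∨ x'.2 = y'.2
  symm := ⟨fun x y h => ⟨h.1.symm, fun x' y' h1 h2 => by
    rcases h.2 y' x' h2 h1 with h | h
    · exact Or.inl h.symm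
    · exact Or.inr h.symm⟩⟩
  loopless := ⟨fun x h => h.1 rfl⟩

open Classical in
theorem rook_card {p : ℕ} (z : Fin 4 × Fin p) :
    (Finset.univ.filter fun y : Fin 4 × Fin p => z ≠ y ∧ (z.1 = y.1 ∨ z.2 = y.2)).card = p + 2 := by
  have e1 : (Finset.univ.filter fun y : Fin 4 × Fin p => z ≠ y ∧ (z.1 = y.1 ∨ z.2 = y.2)) =
      ({z.1} ×ˢ Finset.univ.erase z.2) ∪ (Finset.univ.erase z.1 ×ˢ {z.2}) := by
    ext ⟨y1, y2⟩
    obtain ⟨z1, z2⟩ := z
    simp only [Finset.mem_filter, Finset.mem_univ, true_and, Finset.mem_union, Finset.mem_product,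
      Finset.mem_singleton, Finset.mem_erase, and_true, Ne, Prod.mk.injEq]
    constructor
    · rintro ⟨h1, rfl | rfl⟩
      · exact Or.inl ⟨rfl, fun h => h1 ⟨rfl, h.symm⟩⟩
      · exact Or.inr ⟨fun h => h1 ⟨h.symm, rfl⟩, rfl⟩
    · rintro (⟨rfl, h⟩ | ⟨h, rfl⟩)
      · exact ⟨fun h' => h h'.2.symm, Or.inl rfl⟩
      · exact ⟨fun h' => h h'.1.symm, Or.inr rfl⟩
  rw [e1, Finset.card_union_of_disjoint]
  · have := z.2.pos
    simp [Finset.card_erase_of_mem]
    omega
  · rw [Finset.disjoint_left]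
    intro y h1 h2
    simp only [Finset.mem_product, Finset.mem_singleton, Finset.mem_erase] at h1 h2
    exact h2.1.1 h1.1

open Classical in
theorem ext_inside {q p : ℕ} (z : Fin 4 × Fin p) :
    (Finset.univ.filter fun y => y.isRight ∧ (extGraph q p).Adj (Sum.inr z) y).card = p + 2 := by
  rw [← rook_card z]
  symm
  refine Finset.card_bij (fun y _ => Sum.inr y) ?_ ?_ ?_
  · intro y hy
    simp only [Finset.mem_filter, Finset.mem_univ, true_and] at hy ⊢
    refine ⟨rfl, fun h => hy.1 (Sum.inr_injective h), ?_⟩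
    rintro x' y' ⟨rfl⟩ ⟨rfl⟩
    exact hy.2
  · intro y _ y' _ h
    exact Sum.inr_injective h
  · rintro (y | y) hy
    · simp at hy
    · simp only [Finset.mem_filter, Finset.mem_univ, true_and] at hy
      exact ⟨y, Finset.mem_filter.2 ⟨Finset.mem_univ _, fun h => hy.2.1 (by rw [h]),
        hy.2.2 _ _ rfl rfl⟩, rfl⟩

open Classical in
theorem ext_degree {q p : ℕ} (hp : 1 ≤ p) (x : Fin q ⊕ Fin 4 × Fin p) :
    q + p + 2 ≤ (Finset.univ.filter fun y => (extGraph q p).Adj x y).card := by
  cases x with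
  | inl x =>
    have : (Finset.univ.filter fun y => (extGraph q p).Adj (Sum.inl x) y) =
        Finset.univ.erase (Sum.inl x) := by
      ext y
      simp [extGraph, eq_comm]
    rw [this, Finset.card_erase_of_mem (Finset.mem_univ _)]
    simp
    omega
  | inr z =>
    have e1 := Finset.card_filter_add_card_filter_not
      (s := Finset.univ.filter fun y => (extGraph q p).Adj (Sum.inr z) y) fun y => y.isRight
    rw [Finset.filter_filter, Finset.filter_filter] at e1
    have e2 := ext_inside (q := q) z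
    have e2' : (Finset.univ.filter fun y : Fin q ⊕ Fin 4 × Fin p =>
        (extGraph q p).Adj (Sum.inr z) y ∧ y.isRight).card = p + 2 := by
      rw [← e2]
      congr 1
      ext y
      simp only [Finset.mem_filter, and_comm]
    have e3 : q ≤ (Finset.univ.filter fun y : Fin q ⊕ Fin 4 × Fin p =>
        (extGraph q p).Adj (Sum.inr z) y ∧ ¬ y.isRight).card := by
      have : (Finset.univ : Finset (Fin q)).card ≤ _ := Finset.card_le_card_of_injOn
        (t := Finset.univ.filter fun y : Fin q ⊕ Fin 4 × Fin p =>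
          (extGraph q p).Adj (Sum.inr z) y ∧ ¬ y.isRight) Sum.inl
        (fun y _ => by simp [extGraph]) Sum.inl_injective.injOn
      simpa using this
    omega

theorem upper_bound {μ : ℝ} (hμ : 1 / 6 < μ) (n0 : ℕ) :
    ∃ n : ℕ, n0 ≤ n ∧ 3 ≤ n ∧ ∃ (G : SimpleGraph (Fin n)) (_ : DecidableRel G.Adj),
      (n : ℝ) / 2 ≤ G.minDegree ∧ ∃ F, IsIncompatibilitySystem G F ∧
        IsBoundedSystem G F (μ * n) ∧ ¬ HasCompatibleHamiltonCycle G F := by
  classical
  obtain ⟨m, hm⟩ := exists_nat_ge (3 / (μ - 1 / 6))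
  obtain ⟨r, hr⟩ : ∃ r, r = max n0 m := ⟨_, rfl⟩
  have hr1 : n0 ≤ r := by rw [hr]; exact le_max_left _ _
  have hr2 : m ≤ r := by rw [hr]; exact le_max_right _ _
  have e : Fin (6 * r + 5) ≃ Fin (2 * r + 1) ⊕ Fin 4 × Fin (r + 1) :=
    Fintype.equivOfCardEq (by simp; omega)
  have cnt : ∀ (P : Fin (2 * r + 1) ⊕ Fin 4 × Fin (r + 1) → Prop) [DecidablePred P]
      [DecidablePred fun x => P (e x)],
      (Finset.univ.filter fun x => P (e x)).card = (Finset.univ.filter P).card := by
    intro P _ _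
    exact Finset.card_equiv e fun x => by simp
  set G := (extGraph (2 * r + 1) (r + 1)).comap e with hG
  set B := Finset.univ.filter fun x : Fin (6 * r + 5) => (e x).isRight with hB
  refine ⟨6 * r + 5, by omega, by omega, G, inferInstance, ?_, insideSys G B, insideSys_sys _ _,
    insideSys_bounded _ _ (by positivity) fun v hv => ?_, insideSys_not _ _ ?_⟩
  · have : 3 * r + 3 ≤ G.minDegree := by
      refine G.le_minDegree_of_forall_le_degree _ fun v => ?_
      have e1 := ext_degree (q := 2 * r + 1) (p := r + 1) (by omega) (e v)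
      rw [← cnt] at e1
      refine le_trans (by omega) (e1.trans (Finset.card_le_card fun w hw => ?_))
      exact (G.mem_neighborFinset v w).2 (Finset.mem_filter.1 hw).2
    have : ((3 * r + 3 : ℕ) : ℝ) ≤ G.minDegree := by exact_mod_cast this
    push_cast at this ⊢
    linarith
  · obtain ⟨z, hz⟩ := Sum.isRight_iff.1 (Finset.mem_filter.1 hv).2
    have e1 := ext_inside (q := 2 * r + 1) z
    rw [← cnt, ← hz] at e1
    have e2 : (B.filter (G.Adj v)).card ≤ r + 1 + 2 := by
      rw [← e1]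
      refine Finset.card_le_card fun w hw => ?_
      simp only [hB, Finset.mem_filter, Finset.mem_univ, true_and] at hw ⊢
      exact hw
    have e3 : ((B.filter (G.Adj v)).card : ℝ) ≤ r + 3 := by exact_mod_cast e2
    have e4 : (m : ℝ) ≤ r := by exact_mod_cast hr2
    rw [div_le_iff₀ (by linarith)] at hm
    have e5 : (0 : ℝ) ≤ r := Nat.cast_nonneg _
    push_cast
    nlinarith
  · have e1 : B.card = 4 * (r + 1) := by
      rw [hB, cnt fun y => y.isRight = true]
      have : (Finset.univ.filter fun y : Fin (2 * r + 1) ⊕ Fin 4 × Fin (r + 1) =>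
          y.isRight = true) = Finset.univ.map ⟨Sum.inr, Sum.inr_injective⟩ := by
        ext y
        cases y <;> simp
      rw [this]
      simp
    have e2 := Finset.card_add_card_compl B
    rw [Fintype.card_fin] at e2
    omega

end Pool.Agent.Lib.MP_ac307a_co
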