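import Pool.Agent.Lib.MP_ac307a_co.Precover

-- part Pool.Agent.Lib.MP_ac307a_co.Cover
section

/-! Almost covering by one long walk, by a potential argument. -/

namespace Pool.Agent.Lib.MP_ac307a_co

open Classical Sys

variable {V : Type}

theorem cosh_step (a b : ℝ) (hb : |b| ≤ 1) :
    Real.exp (a - b) + Real.exp (-(a - b)) ≤
      (Real.exp a + Real.exp (-a)) * (1 + b ^ 2) - b * (Real.exp a - Real.exp (-a)) := by
  have h1 := (abs_le.1 (Real.abs_exp_sub_one_sub_id_le hb)).2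
  have h2 := (abs_le.1 (Real.abs_exp_sub_one_sub_id_le (x := -b) (by rwa [abs_neg]))).2
  have e1 : Real.exp (a - b) = Real.exp a * Real.exp (-b) := by rw [← Real.exp_add]; ring_nf
  have e2 : Real.exp (-(a - b)) = Real.exp (-a) * Real.exp b := by rw [← Real.exp_add]; ring_nf
  rw [e1, e2]
  have p1 := Real.exp_pos a
  have p2 := Real.exp_pos (-a)
  have q1 : Real.exp a * Real.exp (-b) ≤ Real.exp a * (1 - b + b ^ 2) :=
    mul_le_mul_of_nonneg_left (by nlinarith) p1.le
  have q2 : Real.exp (-a) * Real.exp b ≤ Real.exp (-a) * (1 + b + b ^ 2) :=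
    mul_le_mul_of_nonneg_left (by nlinarith) p2.le
  nlinarith

theorem sinh_sign (lam D : ℝ) (hl : 0 ≤ lam) :
    0 ≤ (Real.exp (lam * D) - Real.exp (-(lam * D))) * D := by
  by_cases h : 0 ≤ D
  · have : Real.exp (-(lam * D)) ≤ Real.exp (lam * D) :=
      Real.exp_le_exp.2 (by nlinarith [mul_nonneg hl h])
    exact mul_nonneg (by linarith) h
  · push Not at h
    have : Real.exp (lam * D) ≤ Real.exp (-(lam * D)) :=
      Real.exp_le_exp.2 (by nlinarith [mul_nonneg hl (neg_nonneg.2 h.le)])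
    exact mul_nonneg_of_nonpos_of_nonpos (by linarith) h.le

theorem sum_sdiff_list (y : V → ℝ) {U : Finset V} {Q : List V} (hQ : Q.Nodup)
    (hQU : ∀ x ∈ Q, x ∈ U) : ∑ v ∈ U \ Q.toFinset, y v = ∑ v ∈ U, y v - ls y Q := by
  have hsub : Q.toFinset ⊆ U := fun x hx => hQU x (List.mem_toFinset.1 hx)
  rw [ls_eq_sum y hQ, ← Finset.sum_sdiff hsub]
  ring

theorem card_sdiff_list {U : Finset V} {Q : List V} (hQ : Q.Nodup)
    (hQU : ∀ x ∈ Q, x ∈ U) : (U \ Q.toFinset).card + Q.length = U.card := by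
  have hsub : Q.toFinset ⊆ U := fun x hx => hQU x (List.mem_toFinset.1 hx)
  rw [← List.toFinset_card_of_nodup hQ, Finset.card_sdiff_add_card_eq_card hsub]

theorem ls_sum {ι : Type} (T : Finset ι) (w : ι → ℝ) (g : ι → V → ℝ) (Q : List V) :
    ls (fun v => ∑ i ∈ T, w i * g i v) Q = ∑ i ∈ T, w i * ls (g i) Q := by
  induction Q with
  | nil => simp
  | cons x Q ih =>
    simp only [ls_cons, ih, mul_add, Finset.sum_add_distrib]

theorem ls_div (y : V → ℝ) (c : ℝ) (Q : List V) : ls (fun v => y v / c) Q = ls y Q / c := by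
  induction Q with
  | nil => simp
  | cons x Q ih => simp only [ls_cons, ih, add_div]

/-- the potential -/
noncomputable def Pot {ι : Type} [Fintype ι] (g : ι → V → ℝ) (lam : ℝ) (U : Finset V) : ℝ :=
  ∑ i, (Real.exp (lam * ∑ v ∈ U, g i v) + Real.exp (-(lam * ∑ v ∈ U, g i v)))

section
variable {ι : Type} [Fintype ι] {g : ι → V → ℝ} {lam : ℝ}

theorem pot_pos [Nonempty ι] (U : Finset V) : 0 < Pot g lam U :=
  Finset.sum_pos (fun _ _ => by positivity) Finset.univ_nonempty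

theorem abs_le_of_pot (hl : 0 < lam) {U : Finset V} {D : ℝ} (h : Pot g lam U ≤ Real.exp (lam * D))
    (i : ι) : |∑ v ∈ U, g i v| ≤ D := by
  have h1 : Real.exp (lam * ∑ v ∈ U, g i v) + Real.exp (-(lam * ∑ v ∈ U, g i v)) ≤ Pot g lam U :=
    Finset.single_le_sum (f := fun i => Real.exp (lam * ∑ v ∈ U, g i v) +
      Real.exp (-(lam * ∑ v ∈ U, g i v))) (fun _ _ => by positivity) (Finset.mem_univ i)
  have p1 := Real.exp_pos (lam * ∑ v ∈ U, g i v)
  have p2 := Real.exp_pos (-(lam * ∑ v ∈ U, g i v))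
  have h2 : lam * ∑ v ∈ U, g i v ≤ lam * D := Real.exp_le_exp.1 (by linarith)
  have h3 : -(lam * ∑ v ∈ U, g i v) ≤ lam * D := Real.exp_le_exp.1 (by linarith)
  rw [abs_le]
  constructor
  · have : lam * -D ≤ lam * ∑ v ∈ U, g i v := by linarith
    exact le_of_mul_le_mul_left this hl
  · exact le_of_mul_le_mul_left h2 hl

/-- the gradient of the potential -/
noncomputable def grad (g : ι → V → ℝ) (lam : ℝ) (U : Finset V) (v : V) : ℝ :=
  (∑ i, -(Real.exp (lam * ∑ v ∈ U, g i v) - Real.exp (-(lam * ∑ v ∈ U, g i v))) * g i v) /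
    Pot g lam U

theorem abs_grad_le [Nonempty ι] (hg : ∀ i v, |g i v| ≤ 1) (U : Finset V) (v : V) :
    |grad g lam U v| ≤ 1 := by
  unfold grad
  rw [abs_div, abs_of_pos (pot_pos U), div_le_one (pot_pos U)]
  refine (Finset.abs_sum_le_sum_abs _ _).trans (Finset.sum_le_sum fun i _ => ?_)
  rw [abs_mul, abs_neg]
  have p1 := Real.exp_pos (lam * ∑ v ∈ U, g i v)
  have p2 := Real.exp_pos (-(lam * ∑ v ∈ U, g i v))
  have h1 : |Real.exp (lam * ∑ v ∈ U, g i v) - Real.exp (-(lam * ∑ v ∈ U, g i v))| ≤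
      Real.exp (lam * ∑ v ∈ U, g i v) + Real.exp (-(lam * ∑ v ∈ U, g i v)) := by
    rw [abs_le]
    constructor <;> linarith
  calc _ ≤ (Real.exp (lam * ∑ v ∈ U, g i v) + Real.exp (-(lam * ∑ v ∈ U, g i v))) * 1 :=
        mul_le_mul h1 (hg i v) (abs_nonneg _) (by positivity)
    _ = _ := mul_one _

theorem sum_grad_le [Nonempty ι] (hl : 0 ≤ lam) (U : Finset V) : ∑ v ∈ U, grad g lam U v ≤ 0 := by
  unfold grad
  rw [← Finset.sum_div]
  refine div_nonpos_of_nonpos_of_nonneg ?_ (pot_pos U).le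
  rw [Finset.sum_comm]
  refine Finset.sum_nonpos fun i _ => ?_
  rw [← Finset.mul_sum]
  have := sinh_sign lam (∑ v ∈ U, g i v) hl
  linarith

theorem pot_step [Nonempty ι] (hg : ∀ i v, |g i v| ≤ 1) (hl : 0 ≤ lam) {U : Finset V}
    {Q : List V} (hQ : Q.Nodup) (hQU : ∀ x ∈ Q, x ∈ U) {r : ℝ} (hr : (Q.length : ℝ) ≤ r)
    (hlr : lam * r ≤ 1) :
    Pot g lam (U \ Q.toFinset) ≤
      Pot g lam U * (1 + (lam * r) ^ 2 + lam * ls (grad g lam U) Q) := by
  have h1 : ∀ i, |lam * ls (g i) Q| ≤ lam * r := by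
    intro i
    rw [abs_mul, abs_of_nonneg hl]
    exact mul_le_mul_of_nonneg_left ((abs_ls_le fun x _ => hg i x).trans hr) hl
  have h2 : Pot g lam U * (lam * ls (grad g lam U) Q) =
      ∑ i, -(Real.exp (lam * ∑ v ∈ U, g i v) - Real.exp (-(lam * ∑ v ∈ U, g i v))) *
        (lam * ls (g i) Q) := by
    have : grad g lam U = fun v => (∑ i, -(Real.exp (lam * ∑ v ∈ U, g i v) -
      Real.exp (-(lam * ∑ v ∈ U, g i v))) * g i v) / Pot g lam U := rfl
    rw [this, ls_div, ls_sum]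
    have hp := (pot_pos (g := g) (lam := lam) U).ne'
    field_simp
    rw [Finset.mul_sum]
    exact Finset.sum_congr rfl fun i _ => by ring
  rw [mul_add, h2]
  unfold Pot
  rw [Finset.sum_mul, ← Finset.sum_add_distrib]
  refine Finset.sum_le_sum fun i _ => ?_
  rw [sum_sdiff_list _ hQ hQU, mul_sub]
  have h3 := cosh_step (lam * ∑ v ∈ U, g i v) (lam * ls (g i) Q) ((h1 i).trans hlr)
  have h4 : (lam * ls (g i) Q) ^ 2 ≤ (lam * r) ^ 2 := by
    rw [← sq_abs]
    exact pow_le_pow_left₀ (abs_nonneg _) (h1 i) 2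
  have h5 : (Real.exp (lam * ∑ v ∈ U, g i v) + Real.exp (-(lam * ∑ v ∈ U, g i v))) *
      (1 + (lam * ls (g i) Q) ^ 2) ≤ (Real.exp (lam * ∑ v ∈ U, g i v) +
        Real.exp (-(lam * ∑ v ∈ U, g i v))) * (1 + (lam * r) ^ 2) := by gcongr
  linarith

end

theorem cover {ι : Type} [Fintype ι] [Nonempty ι] {S : Sys V} {U0 : Finset V} {g : ι → V → ℝ}
    (hg : ∀ i v, |g i v| ≤ 1) (hg0 : ∀ i, ∑ v ∈ U0, g i v = 0)
    {Home : V → Prop} (hHome : ∀ v ∈ U0, Home v) {bal : V → ℝ}
    (hbal : ∀ u v, S.adj u v → bal u + bal v = 0) (hbal1 : ∀ v, |bal v| ≤ 1)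
    {K L s : ℕ} {ε lam ξ D B0 : ℝ} (hl : 0 < lam) (hξ : 0 ≤ ξ)
    (hB : |∑ v ∈ U0, bal v| ≤ B0) (hs : s ≤ U0.card)
    (h1 : lam * (L + 2 + K) ≤ 1) (h2 : lam * (L + 2 + K) ^ 2 + ε * (L + 2) + K ≤ ξ * (L + 2))
    (h3 : 2 * Fintype.card ι * Real.exp (lam * ξ * U0.card) ≤ Real.exp (lam * (D - (L + 2))))
    (hConn : ∀ U ⊆ U0, s ≤ U.card → (∀ i, |∑ v ∈ U, g i v| ≤ D) → Conn S U K Home)
    (hKey : ∀ U ⊆ U0, s ≤ U.card → (∀ i, |∑ v ∈ U, g i v| ≤ D) → |∑ v ∈ U, bal v| ≤ B0 + 1 →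
      KeyP S U L ε)
    {a b : V} (hab : S.adj a b) (hb : Home b) :
    ∃ (l : List V) (c d : V), l.Nodup ∧ (∀ x ∈ l, x ∈ U0) ∧ Wk S.R a b l c d ∧ Home d ∧
      s ≤ (U0 \ l.toFinset).card ∧ (U0 \ l.toFinset).card < s + (L + 2) + K ∧
      ∀ i, |∑ v ∈ U0 \ l.toFinset, g i v| ≤ D := by
  have hdev : ∀ l : List V, l.Nodup → (∀ x ∈ l, x ∈ U0) → Pot g lam (U0 \ l.toFinset) ≤
      2 * Fintype.card ι * Real.exp (lam * ξ * l.length) →
      ∀ i, |∑ v ∈ U0 \ l.toFinset, g i v| ≤ D - (L + 2) := by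
    intro l hl1 hl2 hl3
    refine abs_le_of_pot hl (hl3.trans (le_trans ?_ h3))
    have : (l.length : ℝ) ≤ U0.card := by
      have := card_sdiff_list hl1 hl2
      exact_mod_cast (by omega : l.length ≤ U0.card)
    gcongr
  have hL2 : (0 : ℝ) ≤ L + 2 := by positivity
  by_contra hcon
  push Not at hcon
  have main : ∀ k : ℕ, ∃ (l : List V) (c d : V), l.Nodup ∧ (∀ x ∈ l, x ∈ U0) ∧ Wk S.R a b l c d ∧
      Home d ∧ s ≤ (U0 \ l.toFinset).card ∧ Pot g lam (U0 \ l.toFinset) ≤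
        2 * Fintype.card ι * Real.exp (lam * ξ * l.length) ∧ k ≤ l.length := by
    intro k
    induction k with
    | zero =>
      refine ⟨[], a, b, by simp, by simp, ⟨rfl, rfl⟩, hb, by simpa using hs, ?_, le_rfl⟩
      simp [Pot, hg0]
      linarith
    | succ k ih =>
      obtain ⟨l, c, d, hl1, hl2, hl3, hl4, hl5, hl6, hl7⟩ := ih
      have hd1 := hdev l hl1 hl2 hl6
      set U := U0 \ l.toFinset with hU
      have hUsub : U ⊆ U0 := Finset.sdiff_subset
      have hbig : s + (L + 2) + K ≤ U.card := by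
        by_contra hh
        push Not at hh
        obtain ⟨i, hi⟩ := hcon l c d hl1 hl2 hl3 hl4 hl5 hh
        linarith [hd1 i]
      have hbalU : |∑ v ∈ U, bal v| ≤ B0 + 1 := by
        rw [hU, sum_sdiff_list _ hl1 hl2]
        have e1 := wk_bal hbal hl3
        have e2 := abs_le.1 (hbal1 b)
        have e3 := abs_le.1 (hbal1 d)
        have e4 := abs_le.1 hB
        rw [abs_le]
        constructor <;> linarith [e2.1, e2.2, e3.1, e3.2, e4.1, e4.2]
      obtain ⟨u, v, p, c', d', k1, k2, k3, k4, k5, k6⟩ := hKey U hUsub hl5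
        (fun i => by linarith [hd1 i]) hbalU (grad g lam U) (fun v _ => abs_grad_le hg U v)
        (sum_grad_le hl.le U)
      have hlen : (u :: v :: p).length = L + 2 := by simp [k2]
      have hcard := card_sdiff_list k3 k4
      obtain ⟨q, q1, q2, q3, q4⟩ := hConn (U \ (u :: v :: p).toFinset)
        (Finset.sdiff_subset.trans hUsub) (by omega) (fun i => by
          rw [sum_sdiff_list _ k3 k4]
          have e1 := abs_ls_le (y := g i) (l := u :: v :: p) fun x _ => hg i x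
          rw [hlen] at e1
          push_cast at e1
          have e2 := abs_sub (∑ v ∈ U, g i v) (ls (g i) (u :: v :: p))
          linarith [hd1 i]) c d u v (wk_adj hab hl3) hl4 k1 (hHome u (hUsub (k4 u (by simp))))
      have hQ : (q ++ u :: v :: p).Nodup := by
        rw [List.nodup_append]
        refine ⟨q1, k3, fun x hx y hy => ?_⟩
        rintro rfl
        exact (Finset.mem_sdiff.1 (q2 x hx)).2 (List.mem_toFinset.2 hy)
      have hQU : ∀ x ∈ q ++ u :: v :: p, x ∈ U := by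
        intro x hx
        rw [List.mem_append] at hx
        rcases hx with hx | hx
        · exact (Finset.mem_sdiff.1 (q2 x hx)).1
        · exact k4 x hx
      have hQlen : (q ++ u :: v :: p).length = q.length + (L + 2) := by
        rw [List.length_append, hlen]
      have hUQ : U0 \ (l ++ (q ++ u :: v :: p)).toFinset = U \ (q ++ u :: v :: p).toFinset := by
        rw [List.toFinset_append, hU, sdiff_sdiff_left]
        rfl
      have hcard2 := card_sdiff_list hQ hQU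
      refine ⟨l ++ (q ++ u :: v :: p), c', d', ?_, ?_, hl3.append (q4.trans_wk k5),
        hHome d' (hUsub (k4 d' (List.mem_cons_of_mem _ k5.end_mem))), ?_, ?_, ?_⟩
      · rw [List.nodup_append]
        refine ⟨hl1, hQ, fun x hx y hy => ?_⟩
        rintro rfl
        exact (Finset.mem_sdiff.1 (hQU x hy)).2 (List.mem_toFinset.2 hx)
      · intro x hx
        rw [List.mem_append] at hx
        rcases hx with hx | hx
        · exact hl2 x hx
        · exact hUsub (hQU x hx)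
      · rw [hUQ]
        omega
      · rw [hUQ]
        have e1 := pot_step (r := L + 2 + K) hg hl.le hQ hQU (by
          rw [hQlen]
          push_cast
          have : (q.length : ℝ) ≤ K := by exact_mod_cast q3
          linarith) h1
        have e2 : ls (grad g lam U) (q ++ u :: v :: p) ≤ K + ε * (L + 2) := by
          rw [ls_append]
          have := (abs_le.1 (abs_ls_le (y := grad g lam U) (l := q)
            fun x _ => abs_grad_le hg U x)).2
          have : (q.length : ℝ) ≤ K := by exact_mod_cast q3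
          linarith
        have e3 : 1 + (lam * (L + 2 + K)) ^ 2 + lam * ls (grad g lam U) (q ++ u :: v :: p) ≤
            Real.exp (lam * ξ * (q ++ u :: v :: p).length) := by
          refine le_trans ?_ (Real.add_one_le_exp _)
          rw [hQlen]
          push_cast
          have f1 : lam * ls (grad g lam U) (q ++ u :: v :: p) ≤ lam * (K + ε * (L + 2)) := by
            gcongr
          have f2 : lam * (lam * (L + 2 + K) ^ 2 + ε * (L + 2) + K) ≤ lam * (ξ * (L + 2)) := by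
            gcongr
          have f3 : 0 ≤ lam * ξ * q.length := by positivity
          nlinarith
        calc _ ≤ _ := e1
          _ ≤ Pot g lam U * Real.exp (lam * ξ * (q ++ u :: v :: p).length) :=
              mul_le_mul_of_nonneg_left e3 (pot_pos U).le
          _ ≤ (2 * Fintype.card ι * Real.exp (lam * ξ * l.length)) *
              Real.exp (lam * ξ * (q ++ u :: v :: p).length) := by gcongr
          _ = _ := by
              rw [mul_assoc, ← Real.exp_add, List.length_append (as := l)]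
              push_cast
              ring_nf
      · rw [List.length_append, hQlen]
        omega
  obtain ⟨l, -, -, hl1, hl2, -, -, -, -, hl7⟩ := main (U0.card + 1)
  have := card_sdiff_list hl1 hl2
  omega

end Pool.Agent.Lib.MP_ac307a_co
end

-- part Pool.Agent.Lib.MP_ac307a_co.Absorb
section

/-! The absorbing walk. -/

namespace Pool.Agent.Lib.MP_ac307a_co

open Classical Sys

variable {V : Type}

/-- the eight special vertices of an absorbing gadget -/
structure Gad (V : Type) where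
  k1 : V
  k2 : V
  k3 : V
  k4 : V
  k5 : V
  k6 : V
  k7 : V
  k8 : V

/-- the vertices of a gadget -/
def Gad.list (k : Gad V) : List V := [k.k1, k.k2, k.k3, k.k4, k.k5, k.k6, k.k7, k.k8]

/-- the two fixed paths of a gadget -/
def Gad.ok (S : Sys V) (k : Gad V) : Prop :=
  S.R k.k1 k.k2 k.k3 ∧ S.R k.k2 k.k3 k.k4 ∧ S.R k.k5 k.k6 k.k7 ∧ S.R k.k6 k.k7 k.k8

/-- the gadget can absorb the two lists -/
def Gad.good (S : Sys V) (k : Gad V) (l1 l2 : List V) : Prop :=
  Lk S.R k.k1 k.k2 l1 k.k6 k.k5 ∧ Lk S.R k.k4 k.k3 l2 k.k7 k.k8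

/-- a gadget good for a constant proportion of the weight can be found -/
def KeyChoice {𝒰 : Type} (S : Sys V) (V0 : Finset V) (I : Finset 𝒰) (i1 i2 : 𝒰 → List V)
    (c : ℝ) (A : ℕ) : Prop :=
  ∀ Used : Finset V, Used.card ≤ A → ∀ w : 𝒰 → ℝ, (∀ u, 0 < w u) →
    ∃ k : Gad V, k.list.Nodup ∧ (∀ x ∈ k.list, x ∈ V0 ∧ x ∉ Used) ∧ k.ok S ∧
      c * ∑ u ∈ I, w u ≤ ∑ u ∈ I.filter (fun u => k.good S (i1 u) (i2 u)), w u

/-- number of good gadgets -/
noncomputable def cnt {𝒰 : Type} (S : Sys V) (i1 i2 : 𝒰 → List V) (ks : List (Gad V)) (u : 𝒰) :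
    ℕ := ks.countP fun k => decide (k.good S (i1 u) (i2 u))

theorem absorb_aux {𝒰 : Type} {S : Sys V} {V0 : Finset V} {I : Finset 𝒰} {i1 i2 : 𝒰 → List V}
    {c : ℝ} (hc : c ≤ 2) {A K : ℕ} {Home : V → Prop} (hHome : ∀ v ∈ V0, Home v)
    (hKC : KeyChoice S V0 I i1 i2 c A)
    (hConn : ∀ Used : Finset V, Used.card ≤ A → Conn S (V0 \ Used) K Home)
    {a b : V} (hab : S.adj a b) (hb : Home b) :
    ∀ r : ℕ, r * (2 * K + 8) ≤ A → ∃ (P : List V) (c' d' : V) (ks : List (Gad V)),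
      P.Nodup ∧ (∀ x ∈ P, x ∈ V0) ∧ P.length ≤ r * (2 * K + 8) ∧ Home d' ∧
      ∑ u ∈ I, (1 / 2 : ℝ) ^ cnt S i1 i2 ks u ≤ I.card * (1 - c / 2) ^ r ∧
      ∀ us : List 𝒰, (∀ u ∈ us, us.length ≤ cnt S i1 i2 ks u) →
        ∃ l, Wk S.R a b l c' d' ∧ l.Perm (P ++ us.flatMap fun u => i1 u ++ i2 u) := by
  intro r
  induction r with
  | zero =>
    intro _
    refine ⟨[], a, b, [], by simp, by simp, by simp, hb, by simp [cnt], ?_⟩
    intro us hus
    cases us with
    | nil => exact ⟨[], ⟨rfl, rfl⟩, by simp⟩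
    | cons u us => have := hus u (by simp); simp [cnt] at this
  | succ r ih =>
    intro hr
    have hr' : r * (2 * K + 8) + (2 * K + 8) ≤ A := by rwa [← Nat.succ_mul]
    obtain ⟨P, c', d', ks, hP1, hP2, hP3, hP4, hP5, hP6⟩ := ih (by omega)
    have hPc := List.toFinset_card_le P
    obtain ⟨k, hk1, hk2, hk3, hk4⟩ := hKC P.toFinset (by omega)
      (fun u => (1 / 2 : ℝ) ^ cnt S i1 i2 ks u) fun u => by positivity
    have hkc : k.list.toFinset.card ≤ 8 := (List.toFinset_card_le _).trans (by simp [Gad.list])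
    obtain ⟨l0, hl0, -⟩ := hP6 [] (by simp)
    have hcd : S.adj c' d' := wk_adj hab hl0
    have hm : ∀ x ∈ k.list, Home x := fun x hx => hHome x (hk2 x hx).1
    obtain ⟨q1, a1, a2, a3, a4⟩ := hConn (P.toFinset ∪ k.list.toFinset) (by
      have := Finset.card_union_le P.toFinset k.list.toFinset
      omega) c' d' k.k1 k.k2 hcd hP4 hk3.1.1 (hm _ (by simp [Gad.list]))
    obtain ⟨q2, b1, b2, b3, b4⟩ := hConn (P.toFinset ∪ k.list.toFinset ∪ q1.toFinset) (by
      have := Finset.card_union_le P.toFinset k.list.toFinset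
      have := Finset.card_union_le (P.toFinset ∪ k.list.toFinset) q1.toFinset
      have := List.toFinset_card_le q1
      omega) k.k3 k.k4 k.k5 k.k6 hk3.2.1.2.1 (hm _ (by simp [Gad.list])) hk3.2.2.1.1
      (hm _ (by simp [Gad.list]))
    simp only [Finset.mem_sdiff, Finset.mem_union, List.mem_toFinset, not_or] at a2 b2
    refine ⟨P ++ (k.list ++ (q1 ++ q2)), k.k7, k.k8, k :: ks, ?_, ?_, ?_,
      hm _ (by simp [Gad.list]), ?_, ?_⟩
    · rw [List.nodup_append, List.nodup_append, List.nodup_append]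
      refine ⟨hP1, ⟨hk1, ⟨a1, b1, ?_⟩, ?_⟩, ?_⟩
      · rintro x hx y hy rfl
        exact (b2 x hy).2.2 hx
      · rintro x hx y hy rfl
        rw [List.mem_append] at hy
        rcases hy with hy | hy
        · exact (a2 x hy).2.2 hx
        · exact (b2 x hy).2.1.2 hx
      · rintro x hx y hy rfl
        rw [List.mem_append, List.mem_append] at hy
        rcases hy with hy | hy | hy
        · exact (hk2 x hy).2 (List.mem_toFinset.2 hx)
        · exact (a2 x hy).2.1 hx
        · exact (b2 x hy).2.1.1 hx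
    · intro x hx
      simp only [List.mem_append] at hx
      rcases hx with hx | hx | hx | hx
      · exact hP2 x hx
      · exact (hk2 x hx).1
      · exact (a2 x hx).1
      · exact (b2 x hx).1
    · simp only [List.length_append, Gad.list, List.length_cons, List.length_nil]
      rw [Nat.succ_mul]
      omega
    · have e1 : ∑ u ∈ I, (1 / 2 : ℝ) ^ cnt S i1 i2 (k :: ks) u =
          ∑ u ∈ I, (1 / 2 : ℝ) ^ cnt S i1 i2 ks u - 1 / 2 *
            ∑ u ∈ I.filter (fun u => k.good S (i1 u) (i2 u)), (1 / 2 : ℝ) ^ cnt S i1 i2 ks u := by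
        rw [Finset.sum_filter, Finset.mul_sum, ← Finset.sum_sub_distrib]
        refine Finset.sum_congr rfl fun u _ => ?_
        by_cases hg : k.good S (i1 u) (i2 u)
        · simp [cnt, hg, pow_succ]
          ring
        · simp [cnt, hg]
      rw [e1, pow_succ, ← mul_assoc]
      have e2 : (∑ u ∈ I, (1 / 2 : ℝ) ^ cnt S i1 i2 ks u) * (1 - c / 2) ≤
          I.card * (1 - c / 2) ^ r * (1 - c / 2) :=
        mul_le_mul_of_nonneg_right hP5 (by linarith)
      linarith
    · intro us hus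
      by_cases hex : ∃ u ∈ us, k.good S (i1 u) (i2 u)
      · obtain ⟨u, hu, hg⟩ := hex
        have hperm := List.perm_cons_erase hu
        obtain ⟨l, hl1, hl2⟩ := hP6 (us.erase u) (by
          intro z hz
          have e1 := hus z (List.mem_of_mem_erase hz)
          have e2 := List.length_erase_of_mem hu
          have e3 : cnt S i1 i2 (k :: ks) z ≤ cnt S i1 i2 ks z + 1 := by
            unfold cnt
            rw [List.countP_cons]
            split_ifs <;> omega
          omega)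
        refine ⟨_, hl1.append (Wk.append a4 (Wk.append hg.1
          (Wk.append (b4.reverse S.R_symm) hg.2))), ?_⟩
        have e1 := hperm.flatMap_right fun u => i1 u ++ i2 u
        rw [List.perm_iff_count] at *
        intro x
        have f1 := hl2 x
        have f2 := e1 x
        simp only [List.count_append, List.flatMap_cons, Gad.list, List.count_cons,
          List.count_nil, List.count_reverse] at *
        omega
      · push Not at hex
        obtain ⟨l, hl1, hl2⟩ := hP6 us (by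
          intro z hz
          have e1 := hus z hz
          unfold cnt at *
          rw [List.countP_cons] at e1
          simpa [hex z hz] using e1)
        have w1 : Wk S.R k.k1 k.k2 [k.k3, k.k4] k.k3 k.k4 := ⟨hk3.1, hk3.2.1, rfl, rfl⟩
        have w2 : Wk S.R k.k5 k.k6 [k.k7, k.k8] k.k7 k.k8 := ⟨hk3.2.2.1, hk3.2.2.2, rfl, rfl⟩
        refine ⟨_, hl1.append (Wk.append a4 (w1.append (Wk.append b4 w2))), ?_⟩
        rw [List.perm_iff_count] at *
        intro x
        have f1 := hl2 x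
        simp only [List.count_append, Gad.list, List.count_cons, List.count_nil] at *
        omega

theorem absorb {𝒰 : Type} {S : Sys V} {V0 : Finset V} {I : Finset 𝒰} {i1 i2 : 𝒰 → List V}
    {c : ℝ} (hc : c ≤ 2) {A K r t : ℕ} {Home : V → Prop} (hHome : ∀ v ∈ V0, Home v)
    (hKC : KeyChoice S V0 I i1 i2 c A)
    (hConn : ∀ Used : Finset V, Used.card ≤ A → Conn S (V0 \ Used) K Home)
    {a b : V} (hab : S.adj a b) (hb : Home b) (hr : r * (2 * K + 8) ≤ A)
    (ht : I.card * (1 - c / 2) ^ r ≤ (1 / 2 : ℝ) ^ t) :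
    ∃ (P : List V) (c' d' : V), P.Nodup ∧ (∀ x ∈ P, x ∈ V0) ∧ P.length ≤ A ∧ Home d' ∧
      ∀ us : List 𝒰, (∀ u ∈ us, u ∈ I) → us.length ≤ t →
        ∃ l, Wk S.R a b l c' d' ∧ l.Perm (P ++ us.flatMap fun u => i1 u ++ i2 u) := by
  obtain ⟨P, c', d', ks, h1, h2, h3, h4, h5, h6⟩ := absorb_aux hc hHome hKC hConn hab hb r hr
  refine ⟨P, c', d', h1, h2, h3.trans hr, h4, fun us hus hlen => h6 us fun u hu => ?_⟩
  have e1 : (1 / 2 : ℝ) ^ cnt S i1 i2 ks u ≤ ∑ u ∈ I, (1 / 2 : ℝ) ^ cnt S i1 i2 ks u :=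
    Finset.single_le_sum (f := fun u => (1 / 2 : ℝ) ^ cnt S i1 i2 ks u)
      (fun _ _ => by positivity) (hus u hu)
  have e2 : (1 / 2 : ℝ) ^ cnt S i1 i2 ks u ≤ (1 / 2 : ℝ) ^ t := e1.trans (h5.trans ht)
  have e3 := (pow_le_pow_iff_right_of_lt_one₀ (by norm_num) (by norm_num)).1 e2
  omega

/-- averaging: a choice that is good for a proportion of the weight -/
theorem averaging {𝒰 : Type} {J : Finset 𝒰} {w : 𝒰 → ℝ} (hw : ∀ u, 0 < w u) {U : Finset V}
    (hU : U.Nonempty) {c : ℝ} (good : 𝒰 → V → Prop)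
    (h : ∀ u ∈ J, c * U.card ≤ (U.filter (good u)).card) :
    ∃ x ∈ U, c * ∑ u ∈ J, w u ≤ ∑ u ∈ J.filter (fun u => good u x), w u := by
  by_contra hcon
  push Not at hcon
  have h1 := Finset.sum_lt_sum_of_nonempty hU hcon
  have h2 : ∑ x ∈ U, ∑ u ∈ J.filter (fun u => good u x), w u =
      ∑ u ∈ J, w u * (U.filter (good u)).card := by
    simp only [Finset.sum_filter]
    rw [Finset.sum_comm]
    refine Finset.sum_congr rfl fun u _ => ?_
    rw [Finset.card_filter]
    push_cast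
    rw [Finset.mul_sum]
    exact Finset.sum_congr rfl fun x _ => by split_ifs <;> simp
  have h3 : ∑ u ∈ J, w u * (c * U.card) ≤ ∑ u ∈ J, w u * (U.filter (good u)).card :=
    Finset.sum_le_sum fun u hu => mul_le_mul_of_nonneg_left (h u hu) (hw u).le
  rw [← Finset.sum_mul] at h3
  simp only [Finset.sum_const, nsmul_eq_mul] at h1
  linarith

end Pool.Agent.Lib.MP_ac307a_co
end

-- part Pool.Agent.Lib.MP_ac307a_co.HamLink
section

/-! The abstract spanning link theorem. -/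

namespace Pool.Agent.Lib.MP_ac307a_co

open Classical Sys

variable {V : Type}

theorem toList_perm_sdiff {U : Finset V} {Q : List V} (hQ : Q.Nodup) (hQU : ∀ x ∈ Q, x ∈ U) :
    U.toList.Perm (Q ++ (U \ Q.toFinset).toList) := by
  rw [List.perm_ext_iff_of_nodup (Finset.nodup_toList _)]
  · intro x
    simp only [Finset.mem_toList, List.mem_append, Finset.mem_sdiff, List.mem_toFinset]
    have := hQU x
    tauto
  · rw [List.nodup_append]
    refine ⟨hQ, Finset.nodup_toList _, ?_⟩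
    rintro x hx y hy rfl
    simp only [Finset.mem_toList, Finset.mem_sdiff, List.mem_toFinset] at hy
    exact hy.2 hx

theorem log_small {δ : ℝ} (hδ : 0 < δ) (C : ℝ) :
    ∃ N : ℕ, ∀ n : ℕ, N ≤ n → C + 4 * Real.log n ≤ δ * n := by
  obtain ⟨N, hN⟩ := exists_nat_ge (max 1 ((C - 4 * Real.log (δ / 8)) / (δ / 2)))
  refine ⟨N, fun n hn => ?_⟩
  have hn' : (N : ℝ) ≤ n := by exact_mod_cast hn
  have h1 : (1 : ℝ) ≤ n := (le_max_left _ _).trans (hN.trans hn')
  have h2 : (C - 4 * Real.log (δ / 8)) / (δ / 2) ≤ n := (le_max_right _ _).trans (hN.trans hn')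
  rw [div_le_iff₀ (by positivity)] at h2
  have h3 := Real.log_le_sub_one_of_pos (x := δ / 8 * n) (by positivity)
  rw [Real.log_mul (by positivity) (by positivity)] at h3
  linarith

/-- representative subsets -/
def Rep {ι : Type} (g : ι → V → ℝ) (ζ : ℝ) (U : Finset V) : Prop :=
  ∀ i, |∑ v ∈ U, g i v| ≤ ζ * U.card

theorem abs_sum_le_card {y : V → ℝ} (hy : ∀ v, |y v| ≤ 1) (X : Finset V) :
    |∑ v ∈ X, y v| ≤ X.card := by
  refine (Finset.abs_sum_le_sum_abs _ _).trans ?_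
  have := Finset.sum_le_card_nsmul X (fun v => |y v|) 1 fun v _ => hy v
  simpa using this

theorem hamLink (K : ℕ) {c ζ α : ℝ} (hc : 0 < c) (hc1 : c ≤ 1) (hζ : 0 < ζ) (hζ1 : ζ ≤ 1)
    (hα : 0 < α) :
    ∃ ε0 ε : ℝ, 0 < ε0 ∧ 0 < ε ∧ ∃ L0 : ℕ, ∀ L : ℕ, L0 ≤ L → ∃ N0 : ℕ,
    ∀ (V ι 𝒰 : Type) [Fintype ι] [Nonempty ι] (S : Sys V) (V0 : Finset V) (g : ι → V → ℝ)
      (Home : V → Prop) (bal : V → ℝ) (I : Finset 𝒰) (i1 i2 : 𝒰 → List V),
      N0 ≤ V0.card → Fintype.card ι ≤ V0.card ^ 4 → I.card ≤ V0.card ^ 2 →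
      (∀ i v, |g i v| ≤ 1) → (∀ i, ∑ v ∈ V0, g i v = 0) → (∀ v ∈ V0, Home v) →
      (∀ u v, S.adj u v → bal u + bal v = 0) → (∀ v, |bal v| ≤ 1) →
      (∀ U ⊆ V0, ε0 * V0.card ≤ U.card → Rep g ζ U → Conn S U K Home) →
      (∀ U ⊆ V0, ε0 * V0.card ≤ U.card → Rep g ζ U → |∑ v ∈ U, bal v| ≤ 2 → KeyP S U L ε) →
      (∀ A : ℕ, A ≤ α * V0.card → KeyChoice S V0 I i1 i2 c A) →
      (∀ W ⊆ V0, ∑ v ∈ W, bal v = 0 → ∃ us : List 𝒰, (∀ u ∈ us, u ∈ I) ∧ us.length ≤ W.card ∧
        (us.flatMap fun u => i1 u ++ i2 u).Perm W.toList) →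
      ∀ a b c' d', S.adj a b → Home b → S.adj c' d' → Home c' →
        bal b + 2 * ∑ v ∈ V0, bal v + bal c' = 0 →
        ∃ l : List V, l.Perm V0.toList ∧ Lk S.R a b l c' d' := by
  obtain ⟨α', hα'⟩ : ∃ x : ℝ, x = min α (ζ / 4) := ⟨_, rfl⟩
  have hα'0 : 0 < α' := by rw [hα']; exact lt_min hα (by positivity)
  have hα'1 : α' ≤ α := by rw [hα']; exact min_le_left _ _
  have hα'2 : α' ≤ ζ / 4 := by rw [hα']; exact min_le_right _ _
  obtain ⟨ε0, hε0⟩ : ∃ x : ℝ, x = c * α' / (8 * (2 * K + 8)) := ⟨_, rfl⟩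
  have hε0p : 0 < ε0 := by rw [hε0]; positivity
  have hK0 : (0 : ℝ) ≤ K := Nat.cast_nonneg _
  have hε0e : ε0 * (8 * (2 * K + 8)) = c * α' := by rw [hε0]; field_simp
  have hε0s : ε0 ≤ 1 / 4 := by
    have h1 : c * α' ≤ 1 * (1 / 4) := mul_le_mul hc1 (by linarith) hα'0.le (by norm_num)
    nlinarith
  obtain ⟨ξ, hξ⟩ : ∃ x : ℝ, x = ζ * ε0 / 8 := ⟨_, rfl⟩
  have hξp : 0 < ξ := by rw [hξ]; positivity
  obtain ⟨L0, hL0⟩ := exists_nat_ge (4 * K / ξ)
  refine ⟨ε0, ξ / 4, hε0p, by positivity, L0, fun L hL => ?_⟩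
  have hL' : (L0 : ℝ) ≤ L := by exact_mod_cast hL
  have hLK : (K : ℝ) ≤ ξ / 4 * (L + 2) := by
    rw [div_le_iff₀ hξp] at hL0
    nlinarith
  have hL0' : (0 : ℝ) ≤ L := Nat.cast_nonneg _
  obtain ⟨lam, hlam⟩ : ∃ x : ℝ, x = min (1 / ((L : ℝ) + 2 + K))
      (ξ / 2 * (L + 2) / (L + 2 + K) ^ 2) :=
    ⟨_, rfl⟩
  have hlamp : 0 < lam := by rw [hlam]; exact lt_min (by positivity) (by positivity)
  have hlam1 : lam * (L + 2 + K) ≤ 1 := by
    have : lam ≤ 1 / (L + 2 + K) := by rw [hlam]; exact min_le_left _ _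
    rwa [le_div_iff₀ (by positivity)] at this
  have hlam2 : lam * (L + 2 + K) ^ 2 ≤ ξ / 2 * (L + 2) := by
    have : lam ≤ ξ / 2 * (L + 2) / (L + 2 + K) ^ 2 := by rw [hlam]; exact min_le_right _ _
    rwa [le_div_iff₀ (by positivity)] at this
  obtain ⟨N1, hN1⟩ := log_small (δ := 3 * ε0) (by positivity) (L + K + 5)
  obtain ⟨N2, hN2⟩ := log_small (δ := lam * ξ) (by positivity) (Real.log 2 + lam * (L + 2))
  refine ⟨max 4 (max N1 N2), ?_⟩
  intro V ι 𝒰 _ _ S V0 g Home bal I i1 i2 hN hι hI hg hg0 hHome hbal hbal1 hConn hKey hKC hPart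
    a b c' d' hab hb hcd hc' hbal0
  have hn4 : (4 : ℝ) ≤ V0.card := by exact_mod_cast (le_max_left _ _).trans hN
  have g1 := hN1 V0.card ((le_max_left _ _).trans ((le_max_right _ _).trans hN))
  have g2 := hN2 V0.card ((le_max_right _ _).trans ((le_max_right _ _).trans hN))
  obtain ⟨n, hn⟩ : ∃ x : ℝ, x = V0.card := ⟨_, rfl⟩
  rw [← hn] at hn4 g1 g2 hConn hKey hKC
  have hnp : 0 < n := by linarith
  have hlog : 0 ≤ Real.log n := Real.log_nonneg (by linarith)
  obtain ⟨A, hA⟩ : ∃ A : ℕ, A = ⌊α' * n⌋₊ := ⟨_, rfl⟩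
  have hA1 : (A : ℝ) ≤ α' * n := by rw [hA]; exact Nat.floor_le (by positivity)
  have hA2 : α' * n < A + 1 := by rw [hA]; exact Nat.lt_floor_add_one _
  have hA3 : α' * n ≤ ζ / 4 * n := by gcongr
  have hA4 : ζ / 4 * n ≤ 1 / 4 * n := by gcongr
  have hεn : ε0 * n ≤ 1 / 4 * n := mul_le_mul_of_nonneg_right hε0s hnp.le
  obtain ⟨r, hr⟩ : ∃ r : ℕ, r = A / (2 * K + 8) := ⟨_, rfl⟩
  have hr1 : r * (2 * K + 8) ≤ A := by rw [hr]; exact Nat.div_mul_le_self _ _
  have hr2 : (A : ℝ) + 1 ≤ (r + 1) * (2 * K + 8) := by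
    have : A < (r + 1) * (2 * K + 8) := by
      rw [hr, Nat.succ_mul]
      exact Nat.lt_div_mul_add (by omega)
    exact_mod_cast this
  obtain ⟨s, hs⟩ : ∃ s : ℕ, s = ⌈ε0 * n⌉₊ := ⟨_, rfl⟩
  have hs1 : ε0 * n ≤ s := by rw [hs]; exact Nat.le_ceil _
  have hs2 : (s : ℝ) < ε0 * n + 1 := by rw [hs]; exact Nat.ceil_lt_add_one (by positivity)
  have hcap : I.card * (1 - c / 2) ^ r ≤ (1 / 2 : ℝ) ^ (s + (L + 2) + K) := by
    have e1 : (I.card : ℝ) ≤ Real.exp (2 * Real.log n) := by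
      have : Real.exp (2 * Real.log n) = n ^ 2 := by
        rw [two_mul, Real.exp_add, Real.exp_log hnp, sq]
      rw [this, hn]
      exact_mod_cast hI
    have e2 : (1 - c / 2) ^ r ≤ Real.exp (-(c / 2) * r) := by
      rw [mul_comm, Real.exp_nat_mul]
      refine pow_le_pow_left₀ (by linarith) ?_ r
      linarith [Real.add_one_le_exp (-(c / 2))]
    have e3 : Real.exp (-((s + (L + 2) + K : ℕ) : ℝ)) ≤ (1 / 2 : ℝ) ^ (s + (L + 2) + K) := by
      rw [← mul_neg_one, Real.exp_nat_mul]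
      refine pow_le_pow_left₀ (Real.exp_pos _).le ?_ _
      rw [Real.exp_neg, ← one_div]
      refine one_div_le_one_div_of_le (by norm_num) ?_
      linarith [Real.add_one_le_exp 1]
    have e4 : 4 * ε0 * n - 1 ≤ c / 2 * r := by
      have f1 : ε0 * n * (8 * (2 * K + 8)) ≤ c * ((r + 1) * (2 * K + 8)) := by
        have : c * (α' * n) ≤ c * ((r + 1) * (2 * K + 8)) :=
          mul_le_mul_of_nonneg_left (by linarith) hc.le
        calc ε0 * n * (8 * (2 * K + 8)) = ε0 * (8 * (2 * K + 8)) * n := by ring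
          _ = c * (α' * n) := by rw [hε0e]; ring
          _ ≤ _ := this
      have f2 : ε0 * n * 8 ≤ c * (r + 1) := by
        have : (ε0 * n * 8) * (2 * K + 8) ≤ (c * (r + 1)) * (2 * K + 8) := by linarith
        exact le_of_mul_le_mul_right this (by positivity)
      linarith
    calc I.card * (1 - c / 2) ^ r ≤ Real.exp (2 * Real.log n) * Real.exp (-(c / 2) * r) :=
          mul_le_mul e1 e2 (pow_nonneg (by linarith) _) (Real.exp_pos _).le
      _ ≤ Real.exp (-((s + (L + 2) + K : ℕ) : ℝ)) := by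
          rw [← Real.exp_add, Real.exp_le_exp]
          push_cast
          linarith
      _ ≤ _ := e3
  obtain ⟨P, c1, d1, p1, p2, p3, p4, p5⟩ := absorb (t := s + (L + 2) + K) (by linarith) hHome
    (hKC A (hA1.trans (mul_le_mul_of_nonneg_right hα'1 hnp.le))) (K := K) (fun Used hU => by
      have e0 : (Used.card : ℝ) ≤ A := by exact_mod_cast hU
      have e1 : n - A ≤ ((V0 \ Used).card : ℝ) := by
        have : V0.card ≤ (V0 \ Used).card + Used.card := Finset.card_le_card_sdiff_add_card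
        have : (V0.card : ℝ) ≤ (V0 \ Used).card + Used.card := by exact_mod_cast this
        linarith
      refine hConn _ Finset.sdiff_subset (by linarith) fun i => ?_
      have e2 := Finset.sum_sdiff (f := g i) (Finset.inter_subset_left : V0 ∩ Used ⊆ V0)
      rw [Finset.sdiff_inter_self_left, hg0 i] at e2
      have e3 := abs_sum_le_card (hg i) (V0 ∩ Used)
      have e4 : ((V0 ∩ Used).card : ℝ) ≤ Used.card := by
        exact_mod_cast Finset.card_le_card Finset.inter_subset_right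
      have e5 : ∑ v ∈ V0 \ Used, g i v = -∑ v ∈ V0 ∩ Used, g i v := by linarith
      rw [e5, abs_neg]
      have e6 : ζ * (n / 2) ≤ ζ * (V0 \ Used).card :=
        mul_le_mul_of_nonneg_left (by linarith) hζ.le
      linarith) hab hb hr1 hcap
  obtain ⟨l0, hl0, hl0p⟩ := p5 [] (by simp) (by simp)
  simp only [List.flatMap_nil, List.append_nil] at hl0p
  set U0 := V0 \ P.toFinset with hU0
  have hU0sub : U0 ⊆ V0 := Finset.sdiff_subset
  have hPlen : (P.length : ℝ) ≤ A := by exact_mod_cast p3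
  have hU0c : (U0.card : ℝ) + P.length = n := by
    rw [hn]; exact_mod_cast card_sdiff_list p1 p2
  have hP0 : (0 : ℝ) ≤ P.length := Nat.cast_nonneg _
  have hU0p : (0 : ℝ) < U0.card := by linarith
  set ρ : ι → ℝ := fun i => (∑ v ∈ U0, g i v) / U0.card with hρ
  have hρ1 : ∀ i, |ρ i| ≤ ζ / 2 := by
    intro i
    simp only [hρ]
    rw [abs_div, abs_of_pos hU0p, div_le_iff₀ hU0p, hU0, sum_sdiff_list _ p1 p2, hg0 i, zero_sub,
      abs_neg]
    have e1 := abs_ls_le (y := g i) (l := P) fun x _ => hg i x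
    have e6 : ζ / 2 * (n / 2) ≤ ζ / 2 * U0.card :=
      mul_le_mul_of_nonneg_left (by linarith) (by linarith)
    linarith
  have hRep : ∀ U : Finset V, s ≤ U.card →
      (∀ i, |∑ v ∈ U, (g i v - ρ i) / 2| ≤ ζ * ε0 * n / 4) → Rep g ζ U := by
    intro U hU h i
    have e1 := h i
    rw [← Finset.sum_div, Finset.sum_sub_distrib] at e1
    simp only [Finset.sum_const, nsmul_eq_mul] at e1
    have e2 : (s : ℝ) ≤ U.card := by exact_mod_cast hU
    have e3 : ζ * (ε0 * n) ≤ ζ * U.card := mul_le_mul_of_nonneg_left (by linarith) hζ.le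
    have e4 := abs_le.1 (hρ1 i)
    have e5 : (U.card : ℝ) * ρ i ≤ U.card * (ζ / 2) :=
      mul_le_mul_of_nonneg_left e4.2 (Nat.cast_nonneg _)
    have e6 : (U.card : ℝ) * -(ζ / 2) ≤ U.card * ρ i :=
      mul_le_mul_of_nonneg_left e4.1 (Nat.cast_nonneg _)
    rw [abs_le] at *
    constructor <;> linarith [e1.1, e1.2]
  have hsz : ∀ U : Finset V, s ≤ U.card → ε0 * n ≤ U.card := fun U hU => by
    have e2 : (s : ℝ) ≤ U.card := by exact_mod_cast hU
    linarith
  have hb0 : ∑ v ∈ U0, bal v = -(bal c' + bal d1) / 2 := by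
    rw [hU0, sum_sdiff_list _ p1 p2, ← ls_perm bal hl0p]
    have := wk_bal hbal hl0
    linarith
  obtain ⟨l1, c2, d2, q1, q2, q3, q4, q5, q6, q7⟩ := cover (S := S) (U0 := U0)
    (g := fun i v => (g i v - ρ i) / 2) (K := K) (L := L) (s := s) (ε := ξ / 4) (lam := lam)
    (ξ := ξ) (D := ζ * ε0 * n / 4) (B0 := 1) (Home := Home) (bal := bal)
    (fun i v => by
      have e1 := abs_le.1 (hg i v)
      have e2 := abs_le.1 (hρ1 i)
      rw [abs_le]
      constructor <;> linarith [e1.1, e1.2, e2.1, e2.2])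
    (fun i => by
      rw [← Finset.sum_div, Finset.sum_sub_distrib]
      simp only [Finset.sum_const, nsmul_eq_mul, hρ]
      field_simp
      simp)
    (fun v hv => hHome v (hU0sub hv)) hbal hbal1 hlamp hξp.le
    (by
      rw [hb0]
      have e1 := abs_le.1 (hbal1 c')
      have e2 := abs_le.1 (hbal1 d1)
      rw [abs_le]
      constructor <;> linarith [e1.1, e1.2, e2.1, e2.2])
    (by
      have : (s : ℝ) ≤ U0.card := by linarith
      exact_mod_cast this)
    hlam1 (by linarith)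
    (by
      have e1 : (Fintype.card ι : ℝ) ≤ Real.exp (4 * Real.log n) := by
        have : Real.exp (4 * Real.log n) = n ^ 4 := by
          rw [show (4 : ℝ) = ((4 : ℕ) : ℝ) by norm_num, Real.exp_nat_mul, Real.exp_log hnp]
        rw [this, hn]
        exact_mod_cast hι
      calc 2 * (Fintype.card ι : ℝ) * Real.exp (lam * ξ * U0.card) ≤
            Real.exp (Real.log 2) * Real.exp (4 * Real.log n) * Real.exp (lam * ξ * n) := by
            rw [Real.exp_log (by norm_num)]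
            refine mul_le_mul (mul_le_mul_of_nonneg_left e1 (by norm_num))
              (Real.exp_le_exp.2 ?_) (Real.exp_pos _).le (by positivity)
            exact mul_le_mul_of_nonneg_left (by linarith) (mul_pos hlamp hξp).le
        _ ≤ _ := by
            rw [← Real.exp_add, ← Real.exp_add, Real.exp_le_exp]
            have : ζ * ε0 * n / 4 = 2 * ξ * n := by rw [hξ]; ring
            rw [this]
            linarith)
    (fun U hU h1 h2 => hConn U (hU.trans hU0sub) (hsz U h1) (hRep U h1 h2))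
    (fun U hU h1 h2 h3 => hKey U (hU.trans hU0sub) (hsz U h1) (hRep U h1 h2) (by linarith))
    (wk_adj hab hl0) p4
  set U1 := U0 \ l1.toFinset with hU1
  have hU1sub : U1 ⊆ U0 := Finset.sdiff_subset
  obtain ⟨q, t1, t2, t3, t4⟩ := hConn U1 (hU1sub.trans hU0sub) (hsz U1 q5) (hRep U1 q5 q7) c2 d2
    c' d' (wk_adj (wk_adj hab hl0) q3) q4 hcd hc'
  obtain ⟨us, u1, u2, u3⟩ := hPart (U1 \ q.toFinset)
    (Finset.sdiff_subset.trans (hU1sub.trans hU0sub)) (by
      rw [sum_sdiff_list _ t1 t2, hU1, sum_sdiff_list _ q1 q2, hb0]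
      have e1 := lk_bal hbal hcd (q3.trans_lk t4)
      simp only [ls_append] at e1
      linarith)
  have hW : (U1 \ q.toFinset).card ≤ U1.card := Finset.card_le_card Finset.sdiff_subset
  obtain ⟨l, hl1, hl2⟩ := p5 us u1 (by omega)
  refine ⟨l ++ (l1 ++ q), ?_, hl1.trans_lk (q3.trans_lk t4)⟩
  have e1 := toList_perm_sdiff p1 p2
  have e2 := toList_perm_sdiff q1 q2
  have e3 := toList_perm_sdiff t1 t2
  rw [← hU0] at e1
  rw [← hU1] at e2
  rw [List.perm_iff_count] at *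
  intro x
  have f1 := e1 x
  have f2 := e2 x
  have f3 := e3 x
  have f4 := hl2 x
  have f5 := u3 x
  simp only [List.count_append] at *
  omega

end Pool.Agent.Lib.MP_ac307a_co
end

-- part Pool.Agent.Lib.MP_ac307a_co.Level
section

/-! The level inequality: numeric core and counting. -/

namespace Pool.Agent.Lib.MP_ac307a_co

open Classical Sys

theorem num_core {γ η τ θ a b c d f : ℝ} (hγ : 0 < γ) (hγ1 : γ ≤ 1 / 12) (hτ : 0 ≤ τ)
    (hτη : τ ≤ η) (hθ : 12 * τ ≤ θ) (hη : η ≤ γ ^ 2 / 10)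
    (ha : 0 ≤ a) (hb : 0 ≤ b) (hc : 0 ≤ c) (hd : 0 ≤ d) (hf : 0 ≤ f)
    (h1 : (1 / 2 - η) * f ≤ a * f + (1 / 6 - γ) * (c + d) + τ)
    (h2 : (1 / 2 - η) * f + (1 / 2 - η - (1 / 6 - γ)) * (b + d) ≤
      a * (f + b + d) + (1 / 6 - γ) * (c + d) + τ)
    (hS : a + b + c + d + f ≤ 1) (hH : 2 * a + c + θ < b + 2 * f) :
    (1 / 2 - f) * γ ≤ 10 * η := by
  obtain ⟨σ, hσ⟩ : ∃ σ : ℝ, σ = 1 / 6 - γ := ⟨_, rfl⟩
  obtain ⟨L, hL⟩ : ∃ L : ℝ, L = 1 / 2 - η - a := ⟨_, rfl⟩
  have hσ1 : 1 / 12 ≤ σ := by linarith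
  have hσ2 : σ ≤ 1 / 6 := by linarith
  have hη0 : 0 ≤ η := by linarith
  have hθ0 : 0 ≤ θ := by linarith
  have hηγ : η ≤ γ / 120 := by nlinarith
  have i1 : L * f ≤ σ * (c + d) + τ := by rw [hL, hσ]; linarith
  have i2 : L * f + (L - σ) * (b + d) ≤ σ * (c + d) + τ := by rw [hL, hσ]; linarith
  by_cases hA : 2 * σ ≤ L
  · exfalso
    have e1 : 2 * σ * f ≤ L * f := by gcongr
    have e2 : σ * (b + d) ≤ (L - σ) * (b + d) := by gcongr; linarith
    have e3 : σ * (c + θ) < σ * (b + 2 * f) := mul_lt_mul_of_pos_left (by linarith) (by linarith)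
    have e4 : 1 / 12 * θ ≤ σ * θ := by gcongr
    nlinarith
  push Not at hA
  by_cases hB : σ ≤ L
  · exfalso
    have e1 : (L - σ) * (1 - 2 * η - 2 * L + c) ≤ (L - σ) * (b + 2 * f) :=
      mul_le_mul_of_nonneg_left (by linarith) (by linarith)
    have e2 : (2 * σ - L) * (d - f) ≤ (2 * σ - L) * (3 * L - 1 / 2 + 3 * η - 2 * c) :=
      mul_le_mul_of_nonneg_left (by linarith) (by linarith)
    have e3 : 0 ≤ c * (2 * σ - L) := mul_nonneg hc (by linarith)
    have e4 : σ * (3 * γ) ≤ L * (1 / 2 + L - 4 * σ) := by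
      apply mul_le_mul hB (by linarith) (by linarith) (by linarith)
    have e5 : η * (L - σ) ≤ η * (1 / 6) := mul_le_mul_of_nonneg_left (by linarith) hη0
    have e6 : η * (2 * σ - L) ≤ η * (1 / 6) := mul_le_mul_of_nonneg_left (by linarith) hη0
    have e7 : 1 / 12 * (3 * γ) ≤ σ * (3 * γ) := by gcongr
    nlinarith
  push Not at hB
  obtain ⟨x, hx⟩ : ∃ x : ℝ, x = c + d := ⟨_, rfl⟩
  have hx0 : 0 ≤ x := by linarith
  have j1 : x / 2 + b / 4 - η ≤ L := by linarith
  have j2 : 2 * σ - b / 2 + 3 * γ - η ≤ f := by linarith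
  have j3 : (x / 2 + b / 4) * γ ≤ 2 * η := by
    by_cases hC : η ≤ x / 2 + b / 4
    · have e0 : 0 ≤ 2 * σ - b / 2 + 3 * γ - η := by linarith
      have e1 : (x / 2 + b / 4 - η) * (2 * σ - b / 2 + 3 * γ - η) ≤ L * f :=
        mul_le_mul j1 j2 e0 (by linarith)
      have e2 : b / 4 * (-2 * η) ≤ b / 4 * (2 * σ - b / 2 - x) :=
        mul_le_mul_of_nonneg_left (by linarith) (by linarith)
      have e3 : b * η ≤ 1 * η := by gcongr; linarith
      have e4 : η * (2 * σ - b / 2 + 3 * γ - η) ≤ η * 1 :=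
        mul_le_mul_of_nonneg_left (by linarith) hη0
      have e5 : (x / 2 + b / 4) * (2 * γ) ≤ (x / 2 + b / 4) * (3 * γ - η) :=
        mul_le_mul_of_nonneg_left (by linarith) (by linarith)
      rw [← hx] at i1
      nlinarith
    · push Not at hC
      have : (x / 2 + b / 4) * γ ≤ η * 1 := mul_le_mul hC.le (by linarith) hγ.le hη0
      linarith
  obtain ⟨ω, hω⟩ : ∃ ω : ℝ, ω = x / 2 + b / 4 := ⟨_, rfl⟩
  have hω0 : 0 ≤ ω := by linarith
  have hω1 : ω ≤ γ / 5 := by
    have : ω * γ ≤ γ / 5 * γ := by rw [hω]; nlinarith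
    exact le_of_mul_le_mul_right this hγ
  have j4 : 1 / 3 ≤ f := by linarith
  have j5 : L ≤ ω + 3 * τ := by
    by_cases hL0 : 0 ≤ L
    · have e1 : L * (1 / 3) ≤ L * f := by gcongr
      have e2 : σ * x ≤ 1 / 6 * x := by gcongr
      rw [← hx] at i1
      linarith
    · linarith
  have j6 : 1 / 2 - f ≤ 4 * η + 3 * ω := by linarith
  have j7 : (1 / 2 - f) * γ ≤ (4 * η + 3 * ω) * γ := by gcongr
  have j8 : η * γ ≤ η * 1 := by gcongr; linarith
  rw [← hω] at j3
  nlinarith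

variable {V : Type}

section
variable {S : Sys V} {U : Finset V} {P : V → V → Prop}

theorem outP_le_ninP (hP : ∀ u v, P u v → ¬ P v u) (v : V) : outP S U P v ≤ ninP S U P v := by
  unfold outP ninP
  exact_mod_cast Finset.card_le_card fun u hu => by
    rw [Finset.mem_filter] at *
    exact ⟨hu.1, hu.2.1, hP _ _ hu.2.2⟩

/-- counting in-edges of a set -/
theorem in_count {X : Finset V} (hX : X ⊆ U) {τ σ : ℝ} (hτ : 0 ≤ τ) (hτσ : τ ≤ σ) :
    ∑ v ∈ X, (S.deg v U - ninP S U P v) ≤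
      (U.filter fun v => σ ≤ outP S U P v).card * X.card +
      (((U.filter fun v => τ ≤ outP S U P v).card : ℝ) -
        (U.filter fun v => σ ≤ outP S U P v).card) * σ + U.card * τ := by
  have h1 : ∀ v, S.deg v U - ninP S U P v =
      ∑ u ∈ U, if S.adj v u ∧ P u v then (1 : ℝ) else 0 := by
    intro v
    rw [deg_eq_sum]
    unfold ninP
    rw [Finset.card_filter]
    push_cast
    rw [← Finset.sum_sub_distrib]
    refine Finset.sum_congr rfl fun u _ => ?_
    by_cases ha : S.adj v u <;> by_cases hp : P u v <;> simp [ha, hp]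
  simp only [h1]
  rw [Finset.sum_comm]
  have h2 : ∀ u ∈ U, ∑ v ∈ X, (if S.adj v u ∧ P u v then (1 : ℝ) else 0) ≤
      (if σ ≤ outP S U P u then (1 : ℝ) else 0) * X.card +
      ((if τ ≤ outP S U P u then (1 : ℝ) else 0) - (if σ ≤ outP S U P u then (1 : ℝ) else 0)) * σ
        + τ := by
    intro u _
    have h3 : ∑ v ∈ X, (if S.adj v u ∧ P u v then (1 : ℝ) else 0) ≤ X.card := by
      have := Finset.sum_le_card_nsmul X (fun v => if S.adj v u ∧ P u v then (1 : ℝ) else 0) 1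
        fun v _ => by split_ifs <;> norm_num
      simpa using this
    have h4 : ∑ v ∈ X, (if S.adj v u ∧ P u v then (1 : ℝ) else 0) ≤ outP S U P u := by
      unfold outP
      rw [Finset.card_filter]
      push_cast
      refine le_trans (Finset.sum_le_sum fun v _ => ?_)
        (Finset.sum_le_sum_of_subset_of_nonneg hX fun v _ _ => by split_ifs <;> norm_num)
      by_cases hh : S.adj v u ∧ P u v
      · rw [if_pos hh, if_pos ⟨S.adj_symm hh.1, hh.2⟩]
      · rw [if_neg hh]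
        split_ifs <;> norm_num
    by_cases h5 : σ ≤ outP S U P u
    · rw [if_pos h5, if_pos (hτσ.trans h5)]
      linarith
    · rw [if_neg h5]
      by_cases h6 : τ ≤ outP S U P u
      · rw [if_pos h6]
        linarith
      · rw [if_neg h6]
        linarith
  refine (Finset.sum_le_sum h2).trans (le_of_eq ?_)
  rw [Finset.sum_add_distrib, Finset.sum_add_distrib, ← Finset.sum_mul, ← Finset.sum_mul,
    Finset.sum_sub_distrib, Finset.card_filter, Finset.card_filter]
  push_cast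
  simp

theorem level_core {ρ γ η β θ τ σ : ℝ} (hρ : 1 ≤ ρ) (hγ : 0 < γ) (hγ1 : γ ≤ 1 / 12) (hη : 0 ≤ η)
    (hβ : 0 ≤ β) (hθ : 12 * β ≤ θ) (hηβ : η + β ≤ γ ^ 2 / 10) (hU : 0 < U.card)
    (hd : ∀ v ∈ U, ρ * (1 / 2 - η) * U.card ≤ S.deg v U)
    (hτ : 0 ≤ τ) (hτσ : τ ≤ σ) (hτβ : τ ≤ β * U.card) (hσ : σ ≤ ρ * (1 / 6 - γ) * U.card)
    (hP : ∀ u v, P u v → ¬ P v u)
    (hcon : ((U.filter fun v => τ ≤ outP S U P v).card : ℝ) +
      (U.filter fun v => σ ≤ outP S U P v).card + θ * U.card <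
      (U.filter fun v => ninP S U P v < τ).card + (U.filter fun v => ninP S U P v < σ).card) :
    (1 / 2 - 10 * (η + β) / γ) * U.card ≤ (U.filter fun v => ninP S U P v < τ).card := by
  obtain ⟨m, hm⟩ : ∃ m : ℝ, m = U.card := ⟨_, rfl⟩
  have hmpos : 0 < m := by rw [hm]; exact_mod_cast hU
  set A := U.filter fun v => σ ≤ outP S U P v with hA
  set O := U.filter fun v => τ ≤ outP S U P v with hO
  set F := U.filter fun v => ninP S U P v < τ with hF
  set N := U.filter fun v => ninP S U P v < σ with hN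
  set D := N ∩ O with hD
  have hFN : F ⊆ N := fun v hv => by
    rw [Finset.mem_filter] at *
    exact ⟨hv.1, lt_of_lt_of_le hv.2 hτσ⟩
  have hAO : A ⊆ O := fun v hv => by
    rw [Finset.mem_filter] at *
    exact ⟨hv.1, hτσ.trans hv.2⟩
  have hFO : Disjoint F O := by
    rw [Finset.disjoint_left]
    intro v h1 h2
    rw [Finset.mem_filter] at h1 h2
    linarith [outP_le_ninP (S := S) (U := U) hP v, h1.2, h2.2]
  have hNA : Disjoint N A := by
    rw [Finset.disjoint_left]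
    intro v h1 h2
    rw [Finset.mem_filter] at h1 h2
    linarith [outP_le_ninP (S := S) (U := U) hP v, h1.2, h2.2]
  have c1 : F.card + D.card ≤ N.card := by
    rw [← Finset.card_union_of_disjoint (hFO.mono_right Finset.inter_subset_right)]
    exact Finset.card_le_card (Finset.union_subset hFN Finset.inter_subset_left)
  have c2 : A.card + D.card ≤ O.card := by
    rw [← Finset.card_union_of_disjoint (hNA.mono_left Finset.inter_subset_left).symm]
    exact Finset.card_le_card (Finset.union_subset hAO Finset.inter_subset_right)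
  have c3 : N.card + O.card ≤ U.card + D.card := by
    rw [← Finset.card_union_add_card_inter, ← hD]
    have : (N ∪ O).card ≤ U.card := Finset.card_le_card
      (Finset.union_subset (Finset.filter_subset _ _) (Finset.filter_subset _ _))
    omega
  have c1' : (F.card : ℝ) + D.card ≤ N.card := by exact_mod_cast c1
  have c2' : (A.card : ℝ) + D.card ≤ O.card := by exact_mod_cast c2
  have c3' : (N.card : ℝ) + O.card ≤ m + D.card := by rw [hm]; exact_mod_cast c3
  have k1 := in_count (S := S) (P := P) (Finset.filter_subset _ _ : F ⊆ U) hτ hτσ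
  have k2 := in_count (S := S) (P := P) (Finset.filter_subset _ _ : N ⊆ U) hτ hτσ
  rw [← hA, ← hO, ← hm] at k1 k2
  rw [← hF] at k1
  rw [← hN] at k2
  rw [← hm] at hd hτβ hσ hcon ⊢
  have l1 : F.card * (ρ * (1 / 2 - η) * m - β * m) ≤ ∑ v ∈ F, (S.deg v U - ninP S U P v) := by
    have := Finset.card_nsmul_le_sum F (fun v => S.deg v U - ninP S U P v)
      (ρ * (1 / 2 - η) * m - β * m) fun v hv => by
        rw [Finset.mem_filter] at hv
        linarith [hd v hv.1, hv.2]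
    simpa using this
  have l2 : ((N.card : ℝ) - F.card) * (ρ * (1 / 2 - η) * m - ρ * (1 / 6 - γ) * m) ≤
      ∑ v ∈ N \ F, (S.deg v U - ninP S U P v) := by
    have := Finset.card_nsmul_le_sum (N \ F) (fun v => S.deg v U - ninP S U P v)
      (ρ * (1 / 2 - η) * m - ρ * (1 / 6 - γ) * m) fun v hv => by
        rw [Finset.mem_sdiff, Finset.mem_filter] at hv
        linarith [hd v hv.1.1, hv.1.2]
    rw [Finset.card_sdiff_of_subset hFN, nsmul_eq_mul,
      Nat.cast_sub (Finset.card_le_card hFN)] at this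
    exact this
  have hsd := Finset.sum_sdiff (f := fun v => S.deg v U - ninP S U P v) hFN
  obtain ⟨a, ha⟩ : ∃ a : ℝ, (A.card : ℝ) = a * m := ⟨A.card / m, by field_simp⟩
  obtain ⟨o, ho⟩ : ∃ a : ℝ, (O.card : ℝ) = a * m := ⟨O.card / m, by field_simp⟩
  obtain ⟨f, hf⟩ : ∃ a : ℝ, (F.card : ℝ) = a * m := ⟨F.card / m, by field_simp⟩
  obtain ⟨ν, hν⟩ : ∃ a : ℝ, (N.card : ℝ) = a * m := ⟨N.card / m, by field_simp⟩
  obtain ⟨d, hdd⟩ : ∃ a : ℝ, (D.card : ℝ) = a * m := ⟨D.card / m, by field_simp⟩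
  have nn : ∀ (X : Finset V) (x : ℝ), (X.card : ℝ) = x * m → 0 ≤ x := by
    intro X x hx
    have : 0 ≤ x * m := by rw [← hx]; positivity
    exact nonneg_of_mul_nonneg_left this hmpos
  have ha0 := nn A a ha
  have hf0 := nn F f hf
  have hd0 := nn D d hdd
  have hν0 := nn N ν hν
  simp only [ha, ho, hf, hν, hdd] at c1' c2' c3' k1 k2 l1 l2 hcon ⊢
  have cancel : ∀ x y : ℝ, x * m ≤ y * m → x ≤ y := fun x y h => le_of_mul_le_mul_right h hmpos
  have d1 : f + d ≤ ν := cancel _ _ (by linarith)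
  have d2 : a + d ≤ o := cancel _ _ (by linarith)
  have d3 : ν + o ≤ 1 + d := cancel _ _ (by linarith)
  have d4 : o + a + θ < f + ν := lt_of_mul_lt_mul_right (by linarith) hmpos.le
  have hσ' : (o * m - a * m) * σ ≤ (o * m - a * m) * (ρ * (1 / 6 - γ) * m) := by
    gcongr
    nlinarith
  have hτ' : m * τ ≤ m * (β * m) := by gcongr
  have hm2 : 0 < m * m := by positivity
  have cancel2 : ∀ x y : ℝ, x * (m * m) ≤ y * (m * m) → x ≤ y :=
    fun x y h => le_of_mul_le_mul_right h hm2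
  have d5 : f * (ρ * (1 / 2 - η) - β) ≤ a * f + (o - a) * (ρ * (1 / 6 - γ)) + β :=
    cancel2 _ _ (by linarith)
  have d6 : f * (ρ * (1 / 2 - η) - β) + (ν - f) * (ρ * (1 / 2 - η) - ρ * (1 / 6 - γ)) ≤
      a * ν + (o - a) * (ρ * (1 / 6 - γ)) + β :=
    cancel2 _ _ (by linarith)
  have hρ0 : 0 < ρ := by linarith
  have r1 : a * f ≤ ρ * (a * f) := le_mul_of_one_le_left (by positivity) hρ
  have r2 : a * ν ≤ ρ * (a * ν) := le_mul_of_one_le_left (by positivity) hρ
  have r3 : β ≤ ρ * β := le_mul_of_one_le_left hβ hρ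
  have r4 : f * β ≤ ρ * (f * β) := le_mul_of_one_le_left (by positivity) hρ
  have r5 : 0 ≤ ρ * ((ν - f) * β) := mul_nonneg hρ0.le (mul_nonneg (by linarith) hβ)
  have hnum := num_core (γ := γ) (η := η + β) (τ := β) (θ := θ) (a := a) (b := ν - f - d)
    (c := o - a - d) (d := d) (f := f) hγ hγ1 hβ (by linarith) hθ hηβ ha0 (by linarith)
    (by linarith) hd0 hf0
    (le_of_mul_le_mul_left (a := ρ) (by linarith) hρ0)
    (le_of_mul_le_mul_left (a := ρ) (by linarith) hρ0) (by linarith) (by linarith)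
  have : 1 / 2 - 10 * (η + β) / γ ≤ f := by
    have : 1 / 2 - f ≤ 10 * (η + β) / γ := by rwa [le_div_iff₀ hγ]
    linarith
  gcongr

theorem ec_F_le (hP : ∀ u v, P u v → ¬ P v u) {τ : ℝ} {F : Finset V} (hF : F ⊆ U)
    (h : ∀ v ∈ F, ninP S U P v ≤ τ) : S.ec F F ≤ 2 * τ * F.card := by
  have h1 : ∀ v ∈ F, ∑ u ∈ F, (if S.adj v u ∧ ¬ P u v then (1 : ℝ) else 0) ≤ τ := by
    intro v hv
    refine le_trans ?_ (h v hv)
    unfold ninP
    rw [Finset.card_filter]
    push_cast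
    exact Finset.sum_le_sum_of_subset_of_nonneg hF fun v _ _ => by split_ifs <;> norm_num
  have h2 : ∑ v ∈ F, ∑ u ∈ F, (if S.adj v u ∧ ¬ P u v then (1 : ℝ) else 0) ≤ F.card * τ := by
    have := Finset.sum_le_card_nsmul F _ τ h1
    simpa using this
  have h3 : S.ec F F ≤ ∑ v ∈ F, ∑ u ∈ F, (if S.adj v u ∧ ¬ P u v then (1 : ℝ) else 0) +
      ∑ u ∈ F, ∑ v ∈ F, (if S.adj u v ∧ ¬ P v u then (1 : ℝ) else 0) := by
    have hcomm := Finset.sum_comm (s := F) (t := F) (f := fun u v =>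
      if S.adj u v ∧ ¬ P v u then (1 : ℝ) else 0)
    nth_rewrite 2 [hcomm]
    unfold ec
    simp only [deg_eq_sum]
    rw [← Finset.sum_add_distrib]
    refine Finset.sum_le_sum fun v _ => ?_
    rw [← Finset.sum_add_distrib]
    refine Finset.sum_le_sum fun u _ => ?_
    by_cases ha : S.adj v u
    · have ha' := S.adj_symm ha
      have := hP u v
      by_cases hp : P u v <;> by_cases hq : P v u <;> simp_all
    · rw [if_neg ha]
      split_ifs <;> norm_num
  linarith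

end

end Pool.Agent.Lib.MP_ac307a_co
end

-- part Pool.Agent.Lib.MP_ac307a_co.Wrap
section

/-! Convenient wrappers. -/

namespace Pool.Agent.Lib.MP_ac307a_co

open Classical Sys

variable {V : Type}

/-- the density of `T` is inherited by `U` -/
def Inh (V0 U : Finset V) (ζ : ℝ) (T : V → Prop) : Prop :=
  (∀ x : ℝ, x * V0.card ≤ (V0.filter T).card → (x - ζ) * U.card ≤ (U.filter T).card) ∧
  (∀ x : ℝ, (V0.filter T).card ≤ x * V0.card → (U.filter T).card ≤ (x + ζ) * U.card)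

theorem Inh.lower {V0 U : Finset V} {ζ : ℝ} {T : V → Prop} (h : Inh V0 U ζ T) [DecidablePred T]
    (x : ℝ) (hx : x * V0.card ≤ (V0.filter T).card) :
    (x - ζ) * U.card ≤ (U.filter T).card := by
  convert h.1 x (by convert hx)

theorem Inh.upper {V0 U : Finset V} {ζ : ℝ} {T : V → Prop} (h : Inh V0 U ζ T) [DecidablePred T]
    (x : ℝ) (hx : (V0.filter T).card ≤ x * V0.card) :
    (U.filter T).card ≤ (x + ζ) * U.card := by
  convert h.2 x (by convert hx)

theorem hamLinkT (K : ℕ) {c ζ α : ℝ} (hc : 0 < c) (hc1 : c ≤ 1) (hζ : 0 < ζ) (hζ1 : ζ ≤ 1)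
    (hα : 0 < α) :
    ∃ ε0 ε : ℝ, 0 < ε0 ∧ 0 < ε ∧ ∃ L0 : ℕ, ∀ L : ℕ, L0 ≤ L → ∃ N0 : ℕ,
    ∀ (V ι 𝒰 : Type) [Fintype ι] [Nonempty ι] (S : Sys V) (V0 : Finset V) (T : ι → V → Prop)
      (Home : V → Prop) (bal : V → ℝ) (I : Finset 𝒰) (i1 i2 : 𝒰 → List V),
      N0 ≤ V0.card → Fintype.card ι ≤ V0.card ^ 4 → I.card ≤ V0.card ^ 2 →
      (∀ v ∈ V0, Home v) →
      (∀ u v, S.adj u v → bal u + bal v = 0) → (∀ v, |bal v| ≤ 1) →
      (∀ U ⊆ V0, ε0 * V0.card ≤ U.card → (∀ i, Inh V0 U ζ (T i)) → Conn S U K Home) →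
      (∀ U ⊆ V0, ε0 * V0.card ≤ U.card → (∀ i, Inh V0 U ζ (T i)) → |∑ v ∈ U, bal v| ≤ 2 →
        KeyP S U L ε) →
      (∀ A : ℕ, A ≤ α * V0.card → KeyChoice S V0 I i1 i2 c A) →
      (∀ W ⊆ V0, ∑ v ∈ W, bal v = 0 → ∃ us : List 𝒰, (∀ u ∈ us, u ∈ I) ∧ us.length ≤ W.card ∧
        (us.flatMap fun u => i1 u ++ i2 u).Perm W.toList) →
      ∀ a b c' d', S.adj a b → Home b → S.adj c' d' → Home c' →
        bal b + 2 * ∑ v ∈ V0, bal v + bal c' = 0 →
        ∃ l : List V, l.Perm V0.toList ∧ Lk S.R a b l c' d' := by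
  obtain ⟨ε0, ε, h1, h2, L0, h3⟩ := hamLink K hc hc1 hζ hζ1 hα
  refine ⟨ε0, ε, h1, h2, L0, fun L hL => ?_⟩
  obtain ⟨N0, h4⟩ := h3 L hL
  refine ⟨max 1 N0, ?_⟩
  intro V ι 𝒰 _ _ S V0 T Home bal I i1 i2 hN hι hI hHome hbal hbal1 hConn hKey hKC hPart
  have hpos : (0 : ℝ) < V0.card := by
    have : 1 ≤ V0.card := (le_max_left _ _).trans hN
    exact_mod_cast this
  have hsum : ∀ (i : ι) (U : Finset V), ∑ v ∈ U, ((if T i v then (1 : ℝ) else 0) -
      (V0.filter (T i)).card / V0.card) =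
      (U.filter (T i)).card - U.card * ((V0.filter (T i)).card / V0.card) := by
    intro i U
    rw [Finset.sum_sub_distrib, Finset.card_filter (T i) U]
    push_cast
    simp
  have hInh : ∀ U : Finset V, Rep (fun i v => (if T i v then (1 : ℝ) else 0) -
      (V0.filter (T i)).card / V0.card) ζ U → ∀ i, Inh V0 U ζ (T i) := by
    intro U hR i
    have e1 := hR i
    simp only [hsum] at e1
    rw [abs_le] at e1
    have hU : (0 : ℝ) ≤ U.card := Nat.cast_nonneg _
    constructor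
    · intro x hx
      have : x ≤ (V0.filter (T i)).card / V0.card := by rwa [le_div_iff₀ hpos]
      have := mul_le_mul_of_nonneg_left this hU
      linarith [e1.1]
    · intro x hx
      have : (V0.filter (T i)).card / V0.card ≤ x := by rwa [div_le_iff₀ hpos]
      have := mul_le_mul_of_nonneg_left this hU
      linarith [e1.2]
  refine h4 V ι 𝒰 S V0 (fun i v => (if T i v then (1 : ℝ) else 0) -
      (V0.filter (T i)).card / V0.card) Home bal I i1 i2 ((le_max_right _ _).trans hN) hι hI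
      ?_ ?_ hHome hbal hbal1 (fun U a1 a2 a3 => hConn U a1 a2 (hInh U a3))
      (fun U a1 a2 a3 a4 => hKey U a1 a2 (hInh U a3) a4) hKC hPart
  · intro i v
    have e1 : (0 : ℝ) ≤ (V0.filter (T i)).card / V0.card := by positivity
    have e2 : ((V0.filter (T i)).card : ℝ) / V0.card ≤ 1 := by
      rw [div_le_one hpos]
      exact_mod_cast Finset.card_filter_le _ _
    rw [abs_le]
    split_ifs <;> constructor <;> linarith
  · intro i
    rw [hsum]
    field_simp
    simp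

theorem key_of_level {γ ε β : ℝ} (hγ : 0 < γ) (hγ1 : γ ≤ 1 / 12) (hε : 0 < ε) (hβ : 0 < β)
    (hβ1 : β ≤ 1 / 20) (L : ℕ) (hL : 4 ≤ ε * L) :
    ∃ m0 : ℕ, ∀ (V : Type) (S : Sys V) (U : Finset V) (ρ : ℝ), 1 ≤ ρ → ρ ≤ 2 → m0 ≤ U.card →
      (∀ v u, S.bdeg v u U ≤ (ρ * (1 / 6 - γ) + γ / 4) * U.card) →
      (∀ v ∈ U, ρ / 3 * U.card ≤ S.deg v U) →
      (∀ τ σ : ℝ, 0 ≤ τ → τ ≤ σ → τ ≤ β * U.card → σ ≤ ρ * (1 / 6 - γ / 2) * U.card →
        Level S U τ σ (ε / (4 * L) * U.card)) → KeyP S U L ε := by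
  obtain ⟨e, he⟩ : ∃ e : ℝ, e = L * (L + 1) := ⟨_, rfl⟩
  have he0 : 0 ≤ e := by rw [he]; positivity
  obtain ⟨m0, hm0⟩ := exists_nat_gt (max (max (2 / β) (8 * (e + 1) / γ))
    (max (16 * e / (β * γ)) (6 * (L + 2) + 20)))
  refine ⟨m0, fun V S U ρ hρ1 hρ2 hm hb hd hlev => ?_⟩
  obtain ⟨m, hmm⟩ : ∃ m : ℝ, m = U.card := ⟨_, rfl⟩
  have hm' : (m0 : ℝ) ≤ m := by rw [hmm]; exact_mod_cast hm
  simp only [max_lt_iff] at hm0
  obtain ⟨⟨a1, a2⟩, a3, a4⟩ := hm0
  have b1 : 2 < β * m := by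
    have := a1.trans_le hm'
    rw [div_lt_iff₀ hβ] at this
    linarith
  have b2 : 8 * (e + 1) < γ * m := by
    have := a2.trans_le hm'
    rw [div_lt_iff₀ hγ] at this
    linarith
  have b3 : 16 * e < β * γ * m := by
    have := a3.trans_le hm'
    rw [div_lt_iff₀ (by positivity)] at this
    linarith
  have b4 : 6 * (L + 2) + 20 < m := a4.trans_le hm'
  have hL0 : (0 : ℝ) < L := by
    by_contra h
    push Not at h
    nlinarith
  have hmp : 0 < m := by linarith
  rw [← hmm] at hb hd hlev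
  obtain ⟨τ, hτ⟩ : ∃ τ : ℕ, τ = ⌊β * m⌋₊ := ⟨_, rfl⟩
  obtain ⟨σ, hσ⟩ : ∃ σ : ℕ, σ = ⌊ρ * (1 / 6 - γ / 2) * m⌋₊ := ⟨_, rfl⟩
  have c0 : 0 ≤ ρ * (1 / 6 - γ / 2) * m :=
    mul_nonneg (mul_nonneg (by linarith) (by linarith)) hmp.le
  have c1 : (τ : ℝ) ≤ β * m := by rw [hτ]; exact Nat.floor_le (by positivity)
  have c2 : β * m < τ + 1 := by rw [hτ]; exact Nat.lt_floor_add_one _
  have c3 : (σ : ℝ) ≤ ρ * (1 / 6 - γ / 2) * m := by rw [hσ]; exact Nat.floor_le c0
  have c4 : ρ * (1 / 6 - γ / 2) * m < σ + 1 := by rw [hσ]; exact Nat.lt_floor_add_one _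
  have d1 : γ * m ≤ ρ * (γ * m) := le_mul_of_one_le_left (by positivity) hρ1
  have d2 : m ≤ ρ * m := le_mul_of_one_le_left hmp.le hρ1
  have d3 : ρ * m ≤ 2 * m := mul_le_mul_of_nonneg_right hρ2 hmp.le
  have d4 : ρ * (γ * m) ≤ ρ * (1 / 12 * m) := by gcongr
  have d5 : β * m ≤ 1 / 20 * m := by gcongr
  have d6 : γ * m ≤ 1 / 12 * m := by gcongr
  have hτσ : (τ : ℝ) ≤ σ := by linarith
  refine key (τ := τ) (σ := σ) (E := ε / (4 * L) * m) hε hL hb (fun v hv => ?_) (fun v hv => ?_)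
    ?_ (by exact_mod_cast hτσ) ?_ (hlev τ σ (Nat.cast_nonneg _) hτσ c1 c3) ?_
  · have := hd v hv
    push_cast
    linarith
  · have := hd v hv
    linarith
  · have : (1 : ℝ) ≤ τ := by linarith
    exact_mod_cast this
  · rw [← he]
    have f1 : γ * m / 8 ≤ σ - (ρ * (1 / 6 - γ) + γ / 4) * m - e := by linarith
    have f2 : β * m / 2 * (γ * m / 8) ≤ τ * (σ - (ρ * (1 / 6 - γ) + γ / 4) * m - e) :=
      mul_le_mul (by linarith) f1 (by positivity) (Nat.cast_nonneg _)
    have f3 : σ * e ≤ m * e := mul_le_mul_of_nonneg_right (by linarith) he0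
    have f4 : m * (16 * e) < m * (β * γ * m) := mul_lt_mul_of_pos_left b3 hmp
    linarith
  · rw [← hmm]
    have : ε / (4 * L) * m * L = ε / 4 * m := by field_simp
    rw [this]
    have : 0 < ε * m := by positivity
    linarith

theorem averaging2 {𝒰 : Type} {J : Finset 𝒰} {w : 𝒰 → ℝ} (hw : ∀ u, 0 < w u) {V0 : Finset V}
    (hV : 0 < V0.card) {c : ℝ} (hc : 0 < c) (hJ : 0 < ∑ u ∈ J, w u) (common : V → Prop)
    (spec : 𝒰 → V → Prop) [∀ u, DecidablePred fun x => common x ∧ spec u x]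
    [∀ x, DecidablePred fun u => spec u x]
    (h : ∀ u ∈ J, c * V0.card ≤ (V0.filter fun x => common x ∧ spec u x).card) :
    ∃ x ∈ V0, common x ∧ c * ∑ u ∈ J, w u ≤ ∑ u ∈ J.filter (fun u => spec u x), w u ∧
      0 < ∑ u ∈ J.filter (fun u => spec u x), w u := by
  have hJne : J.Nonempty := by
    rw [Finset.nonempty_iff_ne_empty]
    rintro rfl
    simp at hJ
  obtain ⟨u0, hu0⟩ := hJne
  have hne : (V0.filter common).Nonempty := by
    have h1 := h u0 hu0
    have h2 : (0 : ℝ) < c * V0.card := mul_pos hc (by exact_mod_cast hV)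
    have h3 : 0 < (V0.filter fun x => common x ∧ spec u0 x).card := by
      exact_mod_cast h2.trans_le h1
    obtain ⟨x, hx⟩ := Finset.card_pos.1 h3
    rw [Finset.mem_filter] at hx
    exact ⟨x, Finset.mem_filter.2 ⟨hx.1, hx.2.1⟩⟩
  obtain ⟨x, hx, hx'⟩ := averaging (J := J) hw hne (c := c) spec (fun u hu => by
    rw [Finset.filter_filter]
    refine le_trans ?_ ((h u hu).trans (le_of_eq (by congr)))
    gcongr
    exact Finset.filter_subset _ _)
  rw [Finset.mem_filter] at hx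
  have hx2 : c * ∑ u ∈ J, w u ≤ ∑ u ∈ J.filter (fun u => spec u x), w u := by convert hx'
  exact ⟨x, hx.1, hx.2, hx2, (mul_pos hc hJ).trans_le hx2⟩

/-- counting: a set minus three exceptional sets -/
theorem card_ge_of_cover {U A B C D : Finset V} {p : V → Prop} [DecidablePred p]
    (h : ∀ x ∈ A, x ∉ B → x ∉ C → x ∉ D → x ∈ U ∧ p x) :
    (A.card : ℝ) - B.card - C.card - D.card ≤ (U.filter p).card := by
  have hsub : A ⊆ U.filter p ∪ B ∪ C ∪ D := by
    intro x hx
    simp only [Finset.mem_union, Finset.mem_filter]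
    have := h x hx
    tauto
  have h1 := Finset.card_le_card hsub
  have h2 := Finset.card_union_le (U.filter p ∪ B ∪ C) D
  have h3 := Finset.card_union_le (U.filter p ∪ B) C
  have h4 := Finset.card_union_le (U.filter p) B
  have : A.card ≤ (U.filter p).card + B.card + C.card + D.card := by omega
  have : (A.card : ℝ) ≤ (U.filter p).card + B.card + C.card + D.card := by exact_mod_cast this
  linarith

theorem exists_adj_of_ec_pos {S : Sys V} {X Y : Finset V} (h : 0 < S.ec X Y) :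
    ∃ x ∈ X, ∃ y ∈ Y, S.adj x y := by
  by_contra hcon
  push Not at hcon
  have : S.ec X Y ≤ X.card * 0 := ec_le fun x hx => by
    unfold deg
    have : S.nb x Y = ∅ := by
      ext y
      simp only [mem_nb, Finset.notMem_empty, iff_false, not_and]
      exact hcon x hx y
    simp [this]
  linarith

theorem exists_deg_lt {S : Sys V} {X Y : Finset V} {t : ℝ} (h : S.ec X Y < X.card * t) :
    ∃ x ∈ X, S.deg x Y < t := by
  by_contra hcon
  push Not at hcon
  linarith [ec_ge hcon]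

end Pool.Agent.Lib.MP_ac307a_co
end
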